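import Pool.Agent.R456.CL.Defs

/-!
# Project CL: the module statements as Props (prove `theorem xxx_ok : St_xxx`)
-/

set_option autoImplicit false

namespace Pool.Agent.R456.CL

universe u

def St_Sa : Prop := ∀ (A : Type u) [CStarAlgebra A], IsAWStar A → PSa A
def St_Cut : Prop := ∀ (A : Type u) [CStarAlgebra A], PSa A → PCut A
def St_SupO : Prop := ∀ (A : Type u) [CStarAlgebra A], IsAWStar A → PCut A → PSupO A
def St_Sup : Prop := ∀ (A : Type u) [CStarAlgebra A], PSupO A → PCut A → PSup A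
def St_Fac : Prop := ∀ (A : Type u) [CStarAlgebra A], IsFactor A → PSup A → PCut A → PFac A
def St_AddO : Prop := ∀ (A : Type u) [CStarAlgebra A], PSupO A → PAddO A
def St_CmpO : Prop := ∀ (A : Type u) [CStarAlgebra A], PCut A → PSupO A → PFac A → PAddO A → PCmpO A
def St_Inf : Prop := ∀ (A : Type u) [CStarAlgebra A], PSup A → PAddO A → PCmpO A → PInf A
def St_Add : Prop := ∀ (A : Type u) [CStarAlgebra A], IsInfiniteAlg A → PInf A → PAddO A → PAdd A
def St_Cmp : Prop := ∀ (A : Type u) [CStarAlgebra A], IsInfiniteAlg A → PInf A → PCmpO A → PCmp A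
def St_LR : Prop := ∀ (A : Type u) [CStarAlgebra A], PCut A → PSup A → PAdd A → PLR A
def St_SB : Prop := ∀ (A : Type u) [CStarAlgebra A], PSup A → PSB A
def St_Dich : Prop := ∀ (A : Type u) [CStarAlgebra A], PInf A → PLR A → PCmp A → PDich A
def St_Join : Prop := ∀ (A : Type u) [CStarAlgebra A], PLR A → PDich A → PJoin A
def St_Main : Prop := ∀ (A : Type u) [CStarAlgebra A],
  PSa A → PCut A → PInf A → PDich A → PJoin A → PMain A
def St_CaseA : Prop := ∀ (A : Type u) [CStarAlgebra A], PCut A → PInf A → PSB A → PCaseA A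
def St_CaseB : Prop := ∀ (A : Type u) [CStarAlgebra A], PCaseB A
def St_Fin : Prop := ∀ (A : Type u) [CStarAlgebra A], PCut A → PCmp A → PFin A
def St_WF : Prop := ∀ (A : Type u) [CStarAlgebra A],
  PSup A → PInf A → PAdd A → PCmp A → PWF A

def St_Inf1 : Prop := ∀ (A : Type u) [CStarAlgebra A], PSup A → PAddO A → PCmpO A → PInf1 A
def St_Inf2 : Prop := ∀ (A : Type u) [CStarAlgebra A], PSup A → PAddO A → PInf1 A → PInf A
def St_Main1 : Prop := ∀ (A : Type u) [CStarAlgebra A], PCut A → PJoin A → PMain1 A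
def St_Main3 : Prop := ∀ (A : Type u) [CStarAlgebra A], PSa A → PDich A → PMain3 A
def St_W1 : Prop := ∀ (A : Type u) [CStarAlgebra A], PSup A → PInf A → PAdd A → PCmp A → PW1 A
def St_W2 : Prop := ∀ (A : Type u) [CStarAlgebra A], PSup A → PAdd A → PW2 A

end Pool.Agent.R456.CL
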