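import Pool.Agent.R456.CL.Stm

/-!
# Project CL: transport by two isometries with orthogonal ranges (St_Add, St_Cmp)
-/

set_option autoImplicit false

namespace Pool.Agent.R456.CL.Add

open Pool.Agent.R456.CL

universe u

section base

variable {A : Type u} [CStarAlgebra A]

/-- If `star v * v` is a projection then `v * (star v * v) = v`. -/
theorem mul_init {v : A} (h : PJ (star v * v)) : v * (star v * v) = v := by
  have hi : (star v * v) * (star v * v) = star v * v := h.isIdempotentElem
  have hs : star (star v * v) = star v * v := h.isSelfAdjoint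
  have key : star (v - v * (star v * v)) * (v - v * (star v * v)) = 0 := by
    have e1 : star (v - v * (star v * v)) = star v - (star v * v) * star v := by
      rw [star_sub, star_mul, hs]
    rw [e1]
    have e2 : (star v - star v * v * star v) * (v - v * (star v * v))
        = star v * v - (star v * v) * (star v * v) - (star v * v) * (star v * v)
          + (star v * v) * ((star v * v) * (star v * v)) := by noncomm_ring
    rw [e2, hi, hi]
    noncomm_ring
  have h0 : v - v * (star v * v) = 0 := CStarRing.star_mul_self_eq_zero_iff _ |>.1 key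
  exact (sub_eq_zero.1 h0).symm

theorem final_mul {v : A} (h : PJ (star v * v)) : (v * star v) * v = v := by
  rw [mul_assoc]; exact mul_init h

/-- Transport of a projection by an isometry. -/
theorem pj_conj {v p : A} (hv : star v * v = 1) (hp : PJ p) : PJ (v * p * star v) := by
  have hi : p * p = p := hp.isIdempotentElem
  have hs : star p = p := hp.isSelfAdjoint
  refine ⟨?_, ?_⟩
  · change v * p * star v * (v * p * star v) = v * p * star v
    calc v * p * star v * (v * p * star v) = v * p * (star v * v) * p * star v := by noncomm_ring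
      _ = v * (p * p) * star v := by rw [hv]; noncomm_ring
      _ = _ := by rw [hi]
  · change star (v * p * star v) = v * p * star v
    rw [star_mul, star_mul, star_star, hs, mul_assoc]

theorem conj_mul {v p q : A} (hv : star v * v = 1) :
    v * p * star v * (v * q * star v) = v * (p * q) * star v := by
  calc v * p * star v * (v * q * star v) = v * p * (star v * v) * q * star v := by noncomm_ring
    _ = v * (p * q) * star v := by rw [hv]; noncomm_ring

theorem conj_range {v p : A} (hv : star v * v = 1) :
    v * star v * (v * p * star v) = v * p * star v := by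
  calc v * star v * (v * p * star v) = v * (star v * v) * p * star v := by noncomm_ring
    _ = _ := by rw [hv, mul_one]

theorem conj_range' {v p : A} (hv : star v * v = 1) :
    (v * p * star v) * (v * star v) = v * p * star v := by
  calc (v * p * star v) * (v * star v) = v * p * (star v * v) * star v := by noncomm_ring
    _ = _ := by rw [hv, mul_one]

theorem conj_back {v p : A} (hv : star v * v = 1) :
    star v * (v * p * star v) * v = p := by
  calc star v * (v * p * star v) * v = (star v * v) * p * (star v * v) := by noncomm_ring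
    _ = _ := by rw [hv, mul_one, one_mul]

theorem isSup_conj {ι : Type*} {v : A} (hv : star v * v = 1) {e : ι → A} {E : A}
    (h : IsSup e E) : IsSup (fun i => v * e i * star v) (v * E * star v) := by
  obtain ⟨h1, h2, h3⟩ := h
  refine ⟨pj_conj hv h1, fun i => ?_, fun x hx => ?_⟩
  · rw [conj_mul hv, h2 i]
  · have h4 : (x * v) * E = 0 := by
      apply h3
      intro i
      have h5 : x * (v * e i * star v) * v = 0 := by rw [hx i, zero_mul]
      calc x * v * e i = x * v * e i * (star v * v) := by rw [hv, mul_one]
        _ = x * (v * e i * star v) * v := by noncomm_ring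
        _ = 0 := h5
    calc x * (v * E * star v) = ((x * v) * E) * star v := by noncomm_ring
      _ = 0 := by rw [h4, zero_mul]

/-- Sub-equivalence can be transported back along isometries. -/
theorem sub_back {v₁ v₂ e f : A} (h1 : star v₁ * v₁ = 1) (h2 : star v₂ * v₂ = 1)
    (he : PJ e) (hf : PJ f) (h : Sub (v₁ * e * star v₁) (v₂ * f * star v₂)) : Sub e f := by
  obtain ⟨w, hw1, hw2⟩ := h
  have hpj : PJ (star w * w) := by rw [hw1]; exact pj_conj h1 he
  have hfs : star (v₂ * f * star v₂) = v₂ * f * star v₂ := (pj_conj h2 hf).isSelfAdjoint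
  have hws : star (w * star w) = w * star w := by rw [star_mul, star_star]
  have hw3 : (v₂ * f * star v₂) * (w * star w) = w * star w := by
    have := congrArg star hw2
    rwa [star_mul, hfs, hws] at this
  have hw4 : (v₂ * f * star v₂) * w = w := by
    calc (v₂ * f * star v₂) * w = (v₂ * f * star v₂) * ((w * star w) * w) := by
          rw [final_mul hpj]
      _ = ((v₂ * f * star v₂) * (w * star w)) * w := by noncomm_ring
      _ = w := by rw [hw3, final_mul hpj]
  have hw5 : v₂ * star v₂ * w = w := by
    calc v₂ * star v₂ * w = v₂ * star v₂ * ((v₂ * f * star v₂) * w) := by rw [hw4]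
      _ = (v₂ * star v₂ * (v₂ * f * star v₂)) * w := by noncomm_ring
      _ = w := by rw [conj_range h2, hw4]
  have hw6 : w * (v₁ * star v₁) = w := by
    calc w * (v₁ * star v₁) = (w * (star w * w)) * (v₁ * star v₁) := by rw [mul_init hpj]
      _ = w * ((star w * w) * (v₁ * star v₁)) := by noncomm_ring
      _ = w * (star w * w) := by rw [hw1, conj_range' h1]
      _ = w := mul_init hpj
  have hvf : v₂ * f = (v₂ * f * star v₂) * v₂ := by
    calc v₂ * f = v₂ * f * (star v₂ * v₂) := by rw [h2, mul_one]
      _ = _ := by noncomm_ring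
  refine ⟨star v₂ * w * v₁, ?_, ?_⟩
  · calc star (star v₂ * w * v₁) * (star v₂ * w * v₁)
        = star v₁ * (star w * (v₂ * star v₂ * w)) * v₁ := by
          rw [star_mul, star_mul, star_star]; noncomm_ring
      _ = star v₁ * (v₁ * e * star v₁) * v₁ := by rw [hw5, hw1]
      _ = e := conj_back h1
  · have e1 : star v₂ * w * v₁ * star (star v₂ * w * v₁) = star v₂ * (w * star w) * v₂ := by
      calc star v₂ * w * v₁ * star (star v₂ * w * v₁)
          = star v₂ * ((w * (v₁ * star v₁)) * star w) * v₂ := by
            rw [star_mul, star_mul, star_star]; noncomm_ring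
        _ = _ := by rw [hw6]
    rw [e1]
    calc star v₂ * (w * star w) * v₂ * f = star v₂ * (w * star w) * (v₂ * f) := by noncomm_ring
      _ = star v₂ * (w * star w) * ((v₂ * f * star v₂) * v₂) := by rw [← hvf]
      _ = star v₂ * ((w * star w) * (v₂ * f * star v₂)) * v₂ := by noncomm_ring
      _ = star v₂ * (w * star w) * v₂ := by rw [hw2]

end base

/-- Two isometries with orthogonal ranges. -/
theorem exists_isometries (A : Type u) [CStarAlgebra A] (hinf : IsInfiniteAlg A) (hP : PInf A) :
    ∃ v₁ v₂ : A, star v₁ * v₁ = 1 ∧ star v₂ * v₂ = 1 ∧ star v₁ * v₂ = 0 := by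
  obtain ⟨v, hv1, hv2⟩ := hinf
  obtain ⟨g1, g2, -, -, h12, -, -, ⟨v₁, ha1, ha2⟩, ⟨v₂, hb1, hb2⟩⟩ :=
    hP 1 (IsStarProjection.one A) ⟨v, hv1, by rw [mul_one], hv2⟩
  refine ⟨v₁, v₂, ha1, hb1, ?_⟩
  calc star v₁ * v₂ = (star v₁ * v₁) * star v₁ * v₂ * (star v₂ * v₂) := by
        rw [ha1, hb1, one_mul, mul_one]
    _ = star v₁ * ((v₁ * star v₁) * (v₂ * star v₂)) * v₂ := by noncomm_ring
    _ = 0 := by rw [ha2, hb2, h12, mul_zero, zero_mul]

theorem add_ok : St_Add.{u} := by
  intro A _ hinf hP hAO ι w E F hpj ho1 ho2 hE hF
  obtain ⟨v₁, v₂, h1, h2, h12⟩ := exists_isometries A hinf hP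
  have hi : ∀ i, star (v₂ * w i * star v₁) * (v₂ * w i * star v₁)
      = v₁ * (star (w i) * w i) * star v₁ := by
    intro i
    calc star (v₂ * w i * star v₁) * (v₂ * w i * star v₁)
        = v₁ * (star (w i) * (star v₂ * v₂) * w i) * star v₁ := by
          rw [star_mul, star_mul, star_star]; noncomm_ring
      _ = _ := by rw [h2, mul_one]
  have hf : ∀ i, (v₂ * w i * star v₁) * star (v₂ * w i * star v₁)
      = v₂ * (w i * star (w i)) * star v₂ := by
    intro i
    calc (v₂ * w i * star v₁) * star (v₂ * w i * star v₁)
        = v₂ * (w i * (star v₁ * v₁) * star (w i)) * star v₂ := by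
          rw [star_mul, star_mul, star_star]; noncomm_ring
      _ = _ := by rw [h1, mul_one]
  obtain ⟨v, hv1, hv2, hv3⟩ := hAO ι (fun i => v₂ * w i * star v₁) (v₁ * E * star v₁)
    (v₂ * F * star v₂)
    (fun i => by
      change PJ (star (v₂ * w i * star v₁) * (v₂ * w i * star v₁))
      rw [hi]; exact pj_conj h1 (hpj i))
    (fun i j hij => by
      change star (v₂ * w i * star v₁) * (v₂ * w i * star v₁) *
        (star (v₂ * w j * star v₁) * (v₂ * w j * star v₁)) = 0
      rw [hi, hi, conj_mul h1, ho1 i j hij, mul_zero, zero_mul])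
    (fun i j hij => by
      change (v₂ * w i * star v₁) * star (v₂ * w i * star v₁) *
        ((v₂ * w j * star v₁) * star (v₂ * w j * star v₁)) = 0
      rw [hf, hf, conj_mul h2, ho2 i j hij, mul_zero, zero_mul])
    (by
      have := isSup_conj h1 hE
      have e : (fun i => star ((fun i => v₂ * w i * star v₁) i) * (fun i => v₂ * w i * star v₁) i)
          = fun i => v₁ * (star (w i) * w i) * star v₁ := funext hi
      rw [e]; exact this)
    (by
      have := isSup_conj h2 hF
      have e : (fun i => (fun i => v₂ * w i * star v₁) i * star ((fun i => v₂ * w i * star v₁) i))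
          = fun i => v₂ * (w i * star (w i)) * star v₂ := funext hf
      rw [e]; exact this)
    (by
      calc v₁ * E * star v₁ * (v₂ * F * star v₂)
          = v₁ * E * (star v₁ * v₂) * F * star v₂ := by noncomm_ring
        _ = 0 := by rw [h12]; simp)
  have hpv : PJ (star v * v) := by rw [hv1]; exact pj_conj h1 hE.1
  have hv4 : v₂ * star v₂ * v = v := by
    calc v₂ * star v₂ * v = v₂ * star v₂ * ((v * star v) * v) := by rw [final_mul hpv]
      _ = (v₂ * star v₂ * (v * star v)) * v := by noncomm_ring
      _ = (v * star v) * v := by rw [hv2, conj_range h2]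
      _ = v := final_mul hpv
  have hv5 : v * (v₁ * star v₁) = v := by
    calc v * (v₁ * star v₁) = (v * (star v * v)) * (v₁ * star v₁) := by rw [mul_init hpv]
      _ = v * ((star v * v) * (v₁ * star v₁)) := by noncomm_ring
      _ = v * (star v * v) := by rw [hv1, conj_range' h1]
      _ = v := mul_init hpv
  refine ⟨star v₂ * v * v₁, ?_, ?_, fun i => ?_⟩
  · calc star (star v₂ * v * v₁) * (star v₂ * v * v₁)
        = star v₁ * (star v * (v₂ * star v₂ * v)) * v₁ := by
          rw [star_mul, star_mul, star_star]; noncomm_ring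
      _ = star v₁ * (v₁ * E * star v₁) * v₁ := by rw [hv4, hv1]
      _ = E := conj_back h1
  · calc star v₂ * v * v₁ * star (star v₂ * v * v₁)
        = star v₂ * ((v * (v₁ * star v₁)) * star v) * v₂ := by
          rw [star_mul, star_mul, star_star]; noncomm_ring
      _ = star v₂ * (v₂ * F * star v₂) * v₂ := by rw [hv5, hv2]
      _ = F := conj_back h2
  · have h3 : v * (v₁ * (star (w i) * w i) * star v₁) = v₂ * w i * star v₁ := by
      have := hv3 i
      change v * (star (v₂ * w i * star v₁) * (v₂ * w i * star v₁)) = v₂ * w i * star v₁ at this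
      rwa [hi] at this
    calc star v₂ * v * v₁ * (star (w i) * w i)
        = star v₂ * v * v₁ * (star (w i) * w i) * (star v₁ * v₁) := by rw [h1, mul_one]
      _ = star v₂ * (v * (v₁ * (star (w i) * w i) * star v₁)) * v₁ := by noncomm_ring
      _ = star v₂ * (v₂ * w i * star v₁) * v₁ := by rw [h3]
      _ = (star v₂ * v₂) * w i * (star v₁ * v₁) := by noncomm_ring
      _ = w i := by rw [h1, h2, one_mul, mul_one]

theorem cmp_ok : St_Cmp.{u} := by
  intro A _ hinf hP hCO e f he hf
  obtain ⟨v₁, v₂, h1, h2, h12⟩ := exists_isometries A hinf hP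
  have h0 : v₁ * e * star v₁ * (v₂ * f * star v₂) = 0 := by
    calc v₁ * e * star v₁ * (v₂ * f * star v₂)
        = v₁ * e * (star v₁ * v₂) * f * star v₂ := by noncomm_ring
      _ = 0 := by rw [h12]; simp
  rcases hCO _ _ (pj_conj h1 he) (pj_conj h2 hf) h0 with h | h
  · exact Or.inl (sub_back h1 h2 he hf h)
  · exact Or.inr (sub_back h2 h1 hf he h)

end Pool.Agent.R456.CL.Add
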