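import Pool.Agent.R456.CL.Stm

/-!
# Project CL: orthogonal additivity (`St_AddO`), helper52
-/

set_option autoImplicit false

namespace Pool.Agent.R456.CL.AddO

universe u

variable {A : Type u} [CStarAlgebra A]

/-- a partial isometry satisfies `w (w* w) = w`. -/
theorem pi_mul {w : A} (h : PJ (star w * w)) : w * (star w * w) = w := by
  have hi : star w * w * (star w * w) = star w * w := h.isIdempotentElem
  have key : star (w - w * (star w * w)) * (w - w * (star w * w)) = 0 := by
    have h1 : star (w - w * (star w * w)) = star w - (star w * w) * star w := by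
      rw [star_sub, star_mul, star_mul, star_star]
    rw [h1]
    have h2 : (star w - star w * w * star w) * (w - w * (star w * w))
        = star w * w - star w * w * (star w * w) - star w * w * (star w * w)
          + star w * w * (star w * w) * (star w * w) := by noncomm_ring
    rw [h2, hi, hi]; abel
  have h3 := (CStarRing.star_mul_self_eq_zero_iff _).1 key
  exact (sub_eq_zero.1 h3).symm

theorem addO_ok : St_AddO.{u} := by
  intro A _ hS ι w E F he heo hfo hE hF hEF
  obtain ⟨hEp, hEle, hEx⟩ := hE
  obtain ⟨hFp, hFle, hFx⟩ := hF
  simp only at hEle hFle hEx hFx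
  have sE : star E = E := hEp.isSelfAdjoint
  have sF : star F = F := hFp.isSelfAdjoint
  have iE : E * E = E := hEp.isIdempotentElem
  have iF : F * F = F := hFp.isIdempotentElem
  have hFE : F * E = 0 := by
    have := congrArg star hEF
    rwa [star_mul, sE, sF, star_zero] at this
  -- relations
  have we : ∀ i, w i * (star (w i) * w i) = w i := fun i => pi_mul (he i)
  have fw : ∀ i, (w i * star (w i)) * w i = w i := fun i => by rw [mul_assoc]; exact we i
  have ews : ∀ i, (star (w i) * w i) * star (w i) = star (w i) := fun i => by
    have := congrArg star (we i)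
    rwa [star_mul, star_mul, star_star] at this
  have wsf : ∀ i, star (w i) * (w i * star (w i)) = star (w i) := fun i => by
    rw [← mul_assoc]; exact ews i
  have Ee : ∀ i, E * (star (w i) * w i) = star (w i) * w i := fun i => by
    have := congrArg star (hEle i)
    rwa [star_mul, star_mul, star_star, sE] at this
  have Ff : ∀ i, F * (w i * star (w i)) = w i * star (w i) := fun i => by
    have := congrArg star (hFle i)
    rwa [star_mul, star_mul, star_star, sF] at this
  have wE : ∀ i, w i * E = w i := fun i => by
    rw [← we i, mul_assoc, hEle i]
  have Fw : ∀ i, F * w i = w i := fun i => by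
    rw [← fw i, ← mul_assoc, Ff i]
  have Ews : ∀ i, E * star (w i) = star (w i) := fun i => by
    have := congrArg star (wE i)
    rwa [star_mul, sE] at this
  have wsF : ∀ i, star (w i) * F = star (w i) := fun i => by
    have := congrArg star (Fw i)
    rwa [star_mul, sF] at this
  have ww : ∀ i j, w i * w j = 0 := fun i j => by
    rw [← wE i, ← Fw j, mul_assoc, ← mul_assoc E F, hEF, zero_mul, mul_zero]
  have wsws : ∀ i j, star (w i) * star (w j) = 0 := fun i j => by
    rw [← star_mul, ww, star_zero]
  have wsw : ∀ i j, i ≠ j → star (w i) * w j = 0 := fun i j hij => by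
    rw [← wsf i, ← fw j, mul_assoc, ← mul_assoc (w i * star (w i)), hfo i j hij, zero_mul,
      mul_zero]
  have wws : ∀ i j, i ≠ j → w i * star (w j) = 0 := fun i j hij => by
    rw [← we i, ← ews j, mul_assoc, ← mul_assoc (star (w i) * w i), heo i j hij, zero_mul,
      mul_zero]
  -- the graph projections
  let p : ι → A := fun i => (2⁻¹ : ℂ) • (star (w i) * w i + w i + star (w i) + w i * star (w i))
  have hp2 : ∀ i, (2 : ℂ) • p i = star (w i) * w i + w i + star (w i) + w i * star (w i) := by
    intro i
    simp only [p]
    rw [smul_smul]
    norm_num
  have hps : ∀ i, star (p i) = p i := by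
    intro i
    simp only [p]
    rw [star_smul, star_add, star_add, star_add, star_mul, star_mul, star_star]
    have : star (2⁻¹ : ℂ) = 2⁻¹ := by
      rw [star_inv₀]; simp
    rw [this]
    congr 1
    abel
  have hsq : ∀ i, (star (w i) * w i + w i + star (w i) + w i * star (w i)) *
      (star (w i) * w i + w i + star (w i) + w i * star (w i)) =
      (2 : ℂ) • (star (w i) * w i + w i + star (w i) + w i * star (w i)) := by
    intro i
    have a1 := we i
    have a2 := ews i
    have a3 := ww i i
    have a4 := wsws i i
    rw [two_smul]
    generalize w i = x at *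
    generalize star x = y at *
    have b1 : x * y * x = x := by rw [mul_assoc]; exact a1
    have : (y * x + x + y + x * y) * (y * x + x + y + x * y) =
       y * (x * y * x) + y * (x * x) + (y * x * y) + y * (x * x) * y
       + x * (y * x) + x * x + x * y + (x * x) * y
       + (y * y) * x + y * x + y * y + (y * x * y)
       + x * (y * y) * x + x * y * x + x * (y * y) + x * (y * x) * y := by noncomm_ring
    rw [this, b1, a1, a2, a3, a4]
    simp only [mul_zero, zero_mul, add_zero]
    abel
  have hpi : ∀ i, p i * p i = p i := by
    intro i
    have h1 : (2 : ℂ) • p i * ((2 : ℂ) • p i) = (2 : ℂ) • ((2 : ℂ) • p i) := by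
      rw [hp2 i]; exact hsq i
    rw [smul_mul_smul_comm, smul_smul] at h1
    have h4 : (2 * 2 : ℂ) ≠ 0 := by norm_num
    exact (smul_right_injective A h4) h1
  have hpo : ∀ i j, i ≠ j → p i * p j = 0 := by
    intro i j hij
    have h1 : (2 : ℂ) • p i * ((2 : ℂ) • p j) = 0 := by
      rw [hp2 i, hp2 j]
      have a1 := ww i j
      have a2 := wsws i j
      have a3 := wsw i j hij
      have a4 := wws i j hij
      generalize w i = x at *
      generalize star x = y at *
      generalize w j = z at *
      generalize star z = t at *
      have : (y * x + x + y + x * y) * (t * z + z + t + z * t) =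
        y * (x * t) * z + y * (x * z) + y * (x * t) + y * (x * z) * t
        + (x * t) * z + x * z + x * t + (x * z) * t
        + (y * t) * z + y * z + y * t + (y * z) * t
        + x * (y * t) * z + x * (y * z) + x * (y * t) + x * (y * z) * t := by noncomm_ring
      rw [this, a1, a2, a3, a4]
      simp only [mul_zero, zero_mul, add_zero]
    rw [smul_mul_smul_comm] at h1
    have h4 : (2 * 2 : ℂ) ≠ 0 := by norm_num
    exact (smul_eq_zero.1 h1).resolve_left h4
  obtain ⟨P, hPp, hPle, hPx⟩ := hS ι p (fun i => ⟨hpi i, hps i⟩) hpo
  have sP : star P = P := hPp.isSelfAdjoint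
  -- the complementary graph
  have hx : ∀ i, (star (w i) * w i + w i * star (w i) - w i - star (w i)) * P = 0 := by
    intro i
    apply hPx
    intro j
    have h1 : (star (w i) * w i + w i * star (w i) - w i - star (w i)) * ((2 : ℂ) • p j) = 0 := by
      rw [hp2 j]
      by_cases hij : i = j
      · subst hij
        have a1 := we i
        have a2 := ews i
        have a3 := ww i i
        have a4 := wsws i i
        generalize w i = x at *
        generalize star x = y at *
        have b1 : x * y * x = x := by rw [mul_assoc]; exact a1
        have : (y * x + x * y - x - y) * (y * x + x + y + x * y) =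
          y * (x * y * x) + y * (x * x) + (y * x * y) + y * (x * x) * y
          + x * (y * y) * x + x * y * x + x * (y * y) + x * (y * x * y)
          - x * (y * x) - x * x - x * y - (x * x) * y
          - (y * y) * x - y * x - y * y - (y * x * y) := by noncomm_ring
        rw [this, b1, a1, a2, a3, a4]
        simp only [mul_zero, zero_mul, add_zero, sub_zero]
        abel
      · have a1 := ww i j
        have a2 := wsws i j
        have a3 := wsw i j hij
        have a4 := wws i j hij
        generalize w i = x at *
        generalize star x = y at *
        generalize w j = z at *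
        generalize star z = t at *
        have : (y * x + x * y - x - y) * (t * z + z + t + z * t) =
          y * (x * t) * z + y * (x * z) + y * (x * t) + y * (x * z) * t
          - (x * t) * z - x * z - x * t - (x * z) * t
          - (y * t) * z - y * z - y * t - (y * z) * t
          + x * (y * t) * z + x * (y * z) + x * (y * t) + x * (y * z) * t := by noncomm_ring
        rw [this, a1, a2, a3, a4]
        simp only [mul_zero, zero_mul, add_zero, sub_zero]
    rw [mul_smul_comm] at h1
    exact (smul_eq_zero.1 h1).resolve_left (by norm_num)
  have hy : ∀ i, (star (w i) * w i + w i + star (w i) + w i * star (w i)) * P =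
      star (w i) * w i + w i + star (w i) + w i * star (w i) := by
    intro i
    rw [← hp2 i, smul_mul_assoc, hPle i]
  have hz : ∀ i, (2 : ℂ) • ((star (w i) * w i + w i * star (w i)) * P) =
      star (w i) * w i + w i + star (w i) + w i * star (w i) := by
    intro i
    have : (2 : ℂ) • ((star (w i) * w i + w i * star (w i)) * P) =
        (star (w i) * w i + w i * star (w i) - w i - star (w i)) * P +
        (star (w i) * w i + w i + star (w i) + w i * star (w i)) * P := by
      rw [two_smul]; noncomm_ring
    rw [this, hx i, hy i, zero_add]
  have fP : ∀ i, (2 : ℂ) • ((w i * star (w i)) * P) = w i + w i * star (w i) := by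
    intro i
    have h1 := congrArg (fun z => (w i * star (w i)) * z) (hz i)
    have a1 := we i
    have a2 := ews i
    have a3 := ww i i
    have a4 := wsws i i
    rw [mul_smul_comm] at h1
    generalize w i = x at *
    generalize star x = y at *
    have b1 : x * y * x = x := by rw [mul_assoc]; exact a1
    have e1 : x * y * ((y * x + x * y) * P) = x * (y * y) * x * P + x * y * x * y * P := by
      noncomm_ring
    have e2 : x * y * (y * x + x + y + x * y) =
        x * (y * y) * x + x * y * x + x * (y * y) + x * y * x * y := by noncomm_ring
    rw [e1, e2, a4, b1] at h1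
    simpa using h1
  have Pe : ∀ i, (2 : ℂ) • (P * (star (w i) * w i)) = star (w i) * w i + w i := by
    intro i
    have h1 := congrArg (fun z => (star (w i) * w i) * z) (hz i)
    have a1 := we i
    have a2 := ews i
    have a3 := ww i i
    have a4 := wsws i i
    rw [mul_smul_comm] at h1
    have h2 : (2 : ℂ) • ((star (w i) * w i) * P) = star (w i) * w i + star (w i) := by
      generalize w i = x at *
      generalize star x = y at *
      have b1 : x * y * x = x := by rw [mul_assoc]; exact a1
      have e1 : y * x * ((y * x + x * y) * P) = y * x * y * x * P + y * (x * x) * y * P := by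
        noncomm_ring
      have e2 : y * x * (y * x + x + y + x * y) =
          y * x * y * x + y * (x * x) + y * x * y + y * (x * x) * y := by noncomm_ring
      rw [e1, e2, a3, a2] at h1
      simpa using h1
    have h3 := congrArg star h2
    rw [star_smul, star_mul, star_mul, star_star, star_add, star_mul, star_star, sP] at h3
    simpa using h3
  refine ⟨(2 : ℂ) • (F * P * E), ?_⟩
  have ve : ∀ i, ((2 : ℂ) • (F * P * E)) * (star (w i) * w i) = w i := by
    intro i
    rw [smul_mul_assoc, mul_assoc (F * P), Ee i, mul_assoc, ← mul_smul_comm, Pe i, mul_add, Fw i,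
      ← Ee i, ← mul_assoc, hFE, zero_mul, zero_add]
  have fv : ∀ i, (w i * star (w i)) * ((2 : ℂ) • (F * P * E)) = w i := by
    intro i
    have : (w i * star (w i)) * ((2 : ℂ) • (F * P * E)) =
        ((2 : ℂ) • ((w i * star (w i)) * F * P)) * E := by
      rw [mul_smul_comm, smul_mul_assoc]
      congr 1
      noncomm_ring
    rw [this, hFle i, fP i, add_mul, wE i, ← hFle i, mul_assoc, hFE, mul_zero, add_zero]
  generalize hv : (2 : ℂ) • (F * P * E) = v at *
  have vE : v * E = v := by
    rw [← hv, smul_mul_assoc, mul_assoc, iE]
  have Fv : F * v = v := by
    rw [← hv, mul_smul_comm, ← mul_assoc, ← mul_assoc, iF]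
  have svf : ∀ i, star v * (w i * star (w i)) = star (w i) := by
    intro i
    have := congrArg star (fv i)
    rwa [star_mul, star_mul, star_star] at this
  refine ⟨?_, ?_, ve⟩
  · have h1 : (star v * v - 1) * E = 0 := by
      apply hEx
      intro i
      rw [sub_mul, one_mul, mul_assoc, ve i, ← fw i, ← mul_assoc, svf i, fw i, sub_self]
    rw [sub_mul, one_mul, mul_assoc, vE, sub_eq_zero] at h1
    exact h1
  · have h1 : (v * star v - 1) * F = 0 := by
      apply hFx
      intro i
      rw [sub_mul, one_mul, mul_assoc, svf i, ← ews i, ← mul_assoc, ve i, ews i, sub_self]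
    have svF : star v * F = star v := by
      have := congrArg star Fv
      rwa [star_mul, sF] at this
    rw [sub_mul, one_mul, mul_assoc, svF, sub_eq_zero] at h1
    exact h1

end Pool.Agent.R456.CL.AddO
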