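import Pool.Agent.R456.CL.Stm

set_option autoImplicit false

namespace Pool.Agent.R456.CL

universe u

section ring

variable {A : Type u} [CStarAlgebra A]

lemma iso_mul {e f h x y : A} (hx : Iso e f x) (hy : Iso f h y) : Iso e h (y * x) := by
  obtain ⟨hx1, hx2, x', hx3, hx4, hx5, hx6⟩ := hx
  obtain ⟨hy1, hy2, y', hy3, hy4, hy5, hy6⟩ := hy
  refine ⟨by rw [← mul_assoc, hy1], by rw [mul_assoc, hx2], x' * y', by rw [← mul_assoc, hx3],
    by rw [mul_assoc, hy4], ?_, ?_⟩
  · calc x' * y' * (y * x) = x' * ((y' * y) * x) := by simp only [mul_assoc]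
      _ = e := by rw [hy5, hx1, hx5]
  · calc y * x * (x' * y') = y * ((x * x') * y') := by simp only [mul_assoc]
      _ = h := by rw [hx6, hy3, hy6]

lemma iso_add {e1 e2 f1 f2 a b : A} (he1 : e1 * e1 = e1) (he2 : e2 * e2 = e2)
    (he12 : e1 * e2 = 0) (he21 : e2 * e1 = 0) (hf12 : f1 * f2 = 0) (hf21 : f2 * f1 = 0)
    (ha : Iso e1 f1 a) (hb : Iso e2 f2 b) : Iso (e1 + e2) (f1 + f2) (a + b) := by
  obtain ⟨ha1, ha2, a', ha3, ha4, ha5, ha6⟩ := ha
  obtain ⟨hb1, hb2, b', hb3, hb4, hb5, hb6⟩ := hb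
  have z1 : f1 * b = 0 := by rw [← hb1, ← mul_assoc, hf12, zero_mul]
  have z2 : f2 * a = 0 := by rw [← ha1, ← mul_assoc, hf21, zero_mul]
  have z3 : a * e2 = 0 := by rw [← ha2, mul_assoc, he12, mul_zero]
  have z4 : b * e1 = 0 := by rw [← hb2, mul_assoc, he21, mul_zero]
  have z5 : e1 * b' = 0 := by rw [← hb3, ← mul_assoc, he12, zero_mul]
  have z6 : e2 * a' = 0 := by rw [← ha3, ← mul_assoc, he21, zero_mul]
  have z7 : a' * f2 = 0 := by rw [← ha4, mul_assoc, hf12, mul_zero]
  have z8 : b' * f1 = 0 := by rw [← hb4, mul_assoc, hf21, mul_zero]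
  have z9 : a' * b = 0 := by rw [← ha4, mul_assoc, z1, mul_zero]
  have z10 : b' * a = 0 := by rw [← hb4, mul_assoc, z2, mul_zero]
  have z11 : a * b' = 0 := by rw [← ha2, mul_assoc, z5, mul_zero]
  have z12 : b * a' = 0 := by rw [← hb2, mul_assoc, z6, mul_zero]
  refine ⟨?_, ?_, a' + b', ?_, ?_, ?_, ?_⟩
  · simp only [mul_add, add_mul, ha1, hb1, z1, z2, add_zero, zero_add]
  · simp only [mul_add, add_mul, ha2, hb2, z3, z4, add_zero, zero_add]
  · simp only [mul_add, add_mul, ha3, hb3, z5, z6, add_zero, zero_add]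
  · simp only [mul_add, add_mul, ha4, hb4, z7, z8, add_zero, zero_add]
  · simp only [mul_add, add_mul, ha5, hb5, z9, z10, add_zero, zero_add]
  · simp only [mul_add, add_mul, ha6, hb6, z11, z12, add_zero, zero_add]

lemma iso_unip {e n : A} (he : e * e = e) (h1 : e * n = n) (h2 : n * e = n) (h3 : n * n = 0) :
    Iso e e (e + n) := by
  refine ⟨by rw [mul_add, he, h1], by rw [add_mul, he, h2], e - n, by rw [mul_sub, he, h1],
    by rw [sub_mul, he, h2], ?_, ?_⟩
  · simp only [mul_add, sub_mul, he, h1, h2, h3]; abel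
  · simp only [mul_sub, add_mul, he, h1, h2, h3]; abel

/-- Schur complement. -/
lemma schur {e1 e2 f1 f2 x c : A} (he1 : e1 * e1 = e1) (he2 : e2 * e2 = e2)
    (he12 : e1 * e2 = 0) (he21 : e2 * e1 = 0) (hf1 : f1 * f1 = f1) (hf2 : f2 * f2 = f2)
    (hf12 : f1 * f2 = 0) (hf21 : f2 * f1 = 0)
    (hx1 : (f1 + f2) * x = x) (hx2 : x * (e1 + e2) = x)
    (hc1 : e1 * c = c) (hc2 : c * f1 = c) (hc3 : c * (f1 * x * e1) = e1)
    (hc4 : (f1 * x * e1) * c = f1)
    (hS : Iso e2 f2 (f2 * x * e2 - f2 * x * e1 * c * (f1 * x * e2))) :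
    Iso (e1 + e2) (f1 + f2) x := by
  set S := f2 * x * e2 - f2 * x * e1 * c * (f1 * x * e2) with hSd
  have hS1 : f2 * S = S := hS.1
  have hS2 : S * e2 = S := hS.2.1
  have ha : Iso e1 f1 (f1 * x * e1) := by
    refine ⟨by rw [← mul_assoc, ← mul_assoc, hf1], by rw [mul_assoc, he1], c, hc1, hc2, hc3, hc4⟩
  have hD := iso_add he1 he2 he12 he21 hf12 hf21 ha hS
  have hL : Iso (f1 + f2) (f1 + f2) ((f1 + f2) + f2 * x * e1 * c) := by
    refine iso_unip ?_ ?_ ?_ ?_
    · simp only [mul_add, add_mul, hf1, hf2, hf12, hf21]; abel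
    · have : f1 * (f2 * x * e1 * c) = 0 := by simp only [← mul_assoc, hf12, zero_mul]
      rw [add_mul, this, zero_add]; simp only [← mul_assoc, hf2]
    · have : f2 * x * e1 * c * f2 = 0 := by
        rw [← hc2]; simp only [mul_assoc, hf12, mul_zero]
      rw [mul_add, this, add_zero]; simp only [mul_assoc, hc2]
    · have : c * f2 = 0 := by rw [← hc2, mul_assoc, hf12, mul_zero]
      calc f2 * x * e1 * c * (f2 * x * e1 * c) = f2 * x * e1 * (c * f2) * (x * e1 * c) := by
            simp only [mul_assoc]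
        _ = 0 := by rw [this]; simp
  have hU : Iso (e1 + e2) (e1 + e2) ((e1 + e2) + c * (f1 * x * e2)) := by
    refine iso_unip ?_ ?_ ?_ ?_
    · simp only [mul_add, add_mul, he1, he2, he12, he21]; abel
    · have : e2 * (c * (f1 * x * e2)) = 0 := by
        rw [← hc1]; simp only [← mul_assoc, he21, zero_mul]
      rw [add_mul, this, add_zero]; simp only [← mul_assoc, hc1]
    · have : c * (f1 * x * e2) * e1 = 0 := by simp only [mul_assoc, he21, mul_zero]
      rw [mul_add, this, zero_add]; simp only [mul_assoc, he2]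
    · have : e2 * c = 0 := by rw [← hc1, ← mul_assoc, he21, zero_mul]
      calc c * (f1 * x * e2) * (c * (f1 * x * e2)) = c * (f1 * x) * (e2 * c) * (f1 * x * e2) := by
            simp only [mul_assoc]
        _ = 0 := by rw [this]; simp
  have hall := iso_mul (iso_mul hU hD) hL
  convert hall using 1
  have hcS : c * S = 0 := by
    rw [← hS1, ← hc2]; simp only [← mul_assoc]; rw [mul_assoc c f1 f2, hf12]; simp
  have hSc : S * c = 0 := by
    rw [← hS2, ← hc1]; simp only [mul_assoc]; rw [← mul_assoc e2 e1 c, he21]; simp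
  have hfa : (f1 + f2) * (f1 * x * e1) = f1 * x * e1 := by
    rw [add_mul]; simp only [← mul_assoc, hf1, hf21, zero_mul, add_zero]
  have hfS : (f1 + f2) * S = S := by
    rw [add_mul, hS1, ← hS1, ← mul_assoc, hf12, zero_mul, zero_add]
  have hSe : S * (e1 + e2) = S := by
    rw [mul_add, hS2, ← hS2, mul_assoc, he21, mul_zero, zero_add]
  have hae : (f1 * x * e1) * (e1 + e2) = f1 * x * e1 := by
    rw [mul_add]; simp only [mul_assoc, he1, he12, mul_zero, add_zero]
  have hse : (f2 * x * e1) * (e1 + e2) = f2 * x * e1 := by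
    rw [mul_add]; simp only [mul_assoc, he1, he12, mul_zero, add_zero]
  have step1 : ((f1 + f2) + f2 * x * e1 * c) * (f1 * x * e1 + S)
      = f1 * x * e1 + S + f2 * x * e1 := by
    rw [add_mul, mul_add, hfa, hfS, mul_add]
    have h1 : f2 * x * e1 * c * (f1 * x * e1) = f2 * x * e1 := by
      rw [mul_assoc (f2 * x * e1) c, hc3]; simp only [mul_assoc, he1]
    have h2 : f2 * x * e1 * c * S = 0 := by rw [mul_assoc (f2 * x * e1) c, hcS, mul_zero]
    rw [h1, h2, add_zero]
  have hb : (f1 * x * e1) * (c * (f1 * x * e2)) = f1 * x * e2 := by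
    rw [← mul_assoc, hc4]; simp only [← mul_assoc, hf1]
  have hSb : S * (c * (f1 * x * e2)) = 0 := by rw [← mul_assoc, hSc, zero_mul]
  rw [← mul_assoc, step1, add_mul, add_mul, mul_add (f1 * x * e1), mul_add S, mul_add (f2 * x * e1),
    hae, hSe, hse, hb, hSb, add_zero, hSd]
  have hx : x = f1 * x * e1 + f1 * x * e2 + (f2 * x * e1 + f2 * x * e2) := by
    conv_lhs => rw [← hx1, ← hx2]
    simp only [mul_add, add_mul, mul_assoc]
    abel
  conv_lhs => rw [hx]
  simp only [mul_assoc]
  abel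

lemma pj_zero : PJ (0 : A) := ⟨by simp [IsIdempotentElem], by simp [IsSelfAdjoint]⟩

lemma PJ.mul_self {p : A} (hp : PJ p) : p * p = p := hp.isIdempotentElem

lemma PJ.star {p : A} (hp : PJ p) : star p = p := hp.isSelfAdjoint

lemma Le.rev {p q : A} (hp : PJ p) (hq : PJ q) (h : Le p q) : q * p = p := by
  have := congrArg star h
  rwa [star_mul, PJ.star hp, PJ.star hq] at this

lemma pj_sub {p q : A} (hp : PJ p) (hq : PJ q) (h : Le p q) : PJ (q - p) := by
  refine ⟨?_, ?_⟩
  · unfold IsIdempotentElem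
    rw [mul_sub, sub_mul, sub_mul, PJ.mul_self hq, PJ.mul_self hp, h, h.rev hp hq]; abel
  · unfold IsSelfAdjoint
    rw [star_sub, PJ.star hp, PJ.star hq]

lemma pj_add {p q : A} (hp : PJ p) (hq : PJ q) (h : p * q = 0) : PJ (p + q) := by
  have h' : q * p = 0 := by
    have := congrArg Star.star h
    rwa [star_mul, PJ.star hp, PJ.star hq, star_zero] at this
  refine ⟨?_, ?_⟩
  · unfold IsIdempotentElem
    rw [mul_add, add_mul, add_mul, PJ.mul_self hq, PJ.mul_self hp, h, h']; abel
  · unfold IsSelfAdjoint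
    rw [star_add, PJ.star hp, PJ.star hq]

lemma orth_comm {p q : A} (hp : PJ p) (hq : PJ q) (h : p * q = 0) : q * p = 0 := by
  have := congrArg Star.star h
  rwa [star_mul, PJ.star hp, PJ.star hq, star_zero] at this

/-- a partial isometry absorbs its initial projection. -/
lemma pi_right {v p : A} (hp : PJ p) (h : star v * v = p) : v * p = v := by
  have : star (v - v * p) * (v - v * p) = 0 := by
    rw [star_sub, star_mul, PJ.star hp, sub_mul, mul_sub, mul_sub, h]
    have h1 : star v * (v * p) = p := by rw [← mul_assoc, h, PJ.mul_self hp]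
    have h2 : p * star v * v = p := by rw [mul_assoc, h, PJ.mul_self hp]
    have h3 : p * star v * (v * p) = p := by
      rw [mul_assoc, ← mul_assoc (star v), h, PJ.mul_self hp, PJ.mul_self hp]
    rw [h1, h2, h3]; abel
  have h2 := (CStarRing.star_mul_self_eq_zero_iff _).1 this
  exact (sub_eq_zero.1 h2).symm

lemma pi_final {v p : A} (hp : PJ p) (h : star v * v = p) : PJ (v * star v) := by
  refine ⟨?_, ?_⟩
  · unfold IsIdempotentElem
    calc v * star v * (v * star v) = v * (star v * v) * star v := by simp only [mul_assoc]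
      _ = v * star v := by rw [h, pi_right hp h]
  · unfold IsSelfAdjoint; simp

end ring

end Pool.Agent.R456.CL
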