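import Pool.Agent.R456.CL.Base

set_option autoImplicit false

namespace Pool.Agent.R456.CL

universe u

section an

variable {A : Type u} [CStarAlgebra A]

lemma iso_neumann {g x : A} (hg : PJ g) (h1 : g * x = x) (h2 : x * g = x) (hn : ‖x‖ < 1) :
    Iso g g (g + x) := by
  have hn' : ‖-x‖ < 1 := by rwa [norm_neg]
  set u : Aˣ := Units.oneSub (-x) hn' with hu
  have huv : (u : A) = 1 + x := by rw [hu, Units.val_oneSub]; abel
  set v : A := ((u⁻¹ : Aˣ) : A) with hv
  have hv1 : v * (1 + x) = 1 := by rw [← huv, hv]; simp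
  have hv2 : (1 + x) * v = 1 := by rw [← huv, hv]; simp
  have hgg := PJ.mul_self hg
  have hc : g * (1 + x) = (1 + x) * g := by rw [mul_add, add_mul, h1, h2]; simp
  have hgv : v * g = g * v := by
    calc v * g = v * g * ((1 + x) * v) := by rw [hv2, mul_one]
      _ = v * (g * (1 + x)) * v := by simp only [mul_assoc]
      _ = v * ((1 + x) * g) * v := by rw [hc]
      _ = (v * (1 + x)) * g * v := by simp only [mul_assoc]
      _ = g * v := by rw [hv1, one_mul]
  have e1 : (1 + x) * g = g + x := by rw [add_mul, one_mul, h2]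
  have e2 : g * (1 + x) = g + x := by rw [mul_add, mul_one, h1]
  refine ⟨by rw [mul_add, hgg, h1], by rw [add_mul, hgg, h2], g * v, by rw [← mul_assoc, hgg],
    by rw [mul_assoc, hgv, ← mul_assoc, hgg], ?_, ?_⟩
  · calc g * v * (g + x) = g * (v * (1 + x)) * g := by rw [← e1]; simp only [mul_assoc]
      _ = g := by rw [hv1, mul_one, hgg]
  · calc (g + x) * (g * v) = (g + x) * g * v := by rw [mul_assoc]
      _ = g * (1 + x) * v := by rw [add_mul, hgg, h2, e2]
      _ = g := by rw [mul_assoc, hv2, mul_one]

lemma iso_smul {e f x : A} {c : ℂ} (hc : c ≠ 0) (h : Iso e f x) : Iso e f (c • x) := by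
  obtain ⟨h1, h2, y, h3, h4, h5, h6⟩ := h
  refine ⟨by rw [mul_smul_comm, h1], by rw [smul_mul_assoc, h2], c⁻¹ • y,
    by rw [mul_smul_comm, h3], by rw [smul_mul_assoc, h4], ?_, ?_⟩
  · rw [smul_mul_smul_comm, inv_mul_cancel₀ hc, one_smul, h5]
  · rw [smul_mul_smul_comm, mul_inv_cancel₀ hc, one_smul, h6]

lemma iso_scalar {g x : A} {c : ℂ} (hg : PJ g) (h1 : g * x = x) (h2 : x * g = x)
    (hn : ‖x‖ < ‖c‖) : Iso g g (c • g + x) := by
  have hc : c ≠ 0 := by
    rintro rfl
    rw [norm_zero] at hn
    exact absurd (norm_nonneg x) (not_le.2 hn)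
  have hpos : 0 < ‖c‖ := norm_pos_iff.2 hc
  have : Iso g g (g + c⁻¹ • x) := by
    refine iso_neumann hg (by rw [mul_smul_comm, h1]) (by rw [smul_mul_assoc, h2]) ?_
    rw [norm_smul, norm_inv]
    rw [inv_mul_lt_iff₀ hpos, mul_one]; exact hn
  have h := iso_smul hc this
  rwa [smul_add, smul_smul, mul_inv_cancel₀ hc, one_smul] at h

/-- a left invertible element of `A e` gives a partial isometry with initial projection `e`,
and its range projection is `x * z`. -/
lemma left_inv {e x y : A} (he : PJ e) (hx : x * e = x) (hy : y * x = e) :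
    ∃ w l t : A, star w * w = e ∧ w * star w = l ∧ PJ l ∧ l * x = x ∧ l = x * t ∧
      w * star w = l := by
  let _ : PartialOrder A := CStarAlgebra.spectralOrder A
  let _ : StarOrderedRing A := CStarAlgebra.spectralOrderedRing A
  have hee := PJ.mul_self he
  have hes := PJ.star he
  set b : A := star x * x with hb
  have hbe : b * e = b := by rw [hb, mul_assoc, hx]
  have hxs : e * star x = star x := by
    have := congrArg star hx
    rwa [star_mul, hes] at this
  have heb : e * b = b := by rw [hb, ← mul_assoc, hxs]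
  set a : A := b + (1 - e) with ha
  have h1e : PJ (1 - e) := by
    refine ⟨?_, ?_⟩
    · unfold IsIdempotentElem
      rw [mul_sub, sub_mul, sub_mul, hee]; simp
    · unfold IsSelfAdjoint; simp [hes]
  have hbpos : 0 ≤ b := star_mul_self_nonneg x
  have h1epos : 0 ≤ 1 - e := by
    have := star_mul_self_nonneg (1 - e)
    rwa [PJ.star h1e, PJ.mul_self h1e] at this
  -- e ≤ c b
  have hyy : star y * y ≤ algebraMap ℝ A (‖star y * y‖) :=
    IsSelfAdjoint.le_algebraMap_norm_self (IsSelfAdjoint.star_mul_self y)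
  set c : ℝ := ‖star y * y‖ with hcdef
  have hc0 : 0 ≤ c := norm_nonneg _
  have h2 : e ≤ c • b := by
    have h3 := star_left_conjugate_le_conjugate hyy x
    have h4 : star x * (star y * y) * x = e := by
      calc star x * (star y * y) * x = (star x * star y) * (y * x) := by simp only [mul_assoc]
        _ = star (y * x) * (y * x) := by rw [star_mul]
        _ = e := by rw [hy, hes, hee]
    have h5 : star x * (algebraMap ℝ A c) * x = c • b := by
      rw [← Algebra.commutes, ← Algebra.smul_def, smul_mul_assoc]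
    rwa [h4, h5] at h3
  have h3 : (1 : A) ≤ (c + 1) • a := by
    have : (c + 1) • a - 1 = (c • b - e) + b + c • (1 - e) := by
      rw [ha]; simp only [smul_add, add_smul, one_smul, smul_sub]; abel
    rw [← sub_nonneg, this]
    exact add_nonneg (add_nonneg (sub_nonneg.2 h2) hbpos) (smul_nonneg hc0 h1epos)
  have hapos : 0 ≤ a := add_nonneg hbpos h1epos
  have hua : IsUnit a := by
    have hu1 : IsUnit ((c + 1) • a) := CStarAlgebra.isUnit_of_le (1 : A) h3
    have hne : (c + 1) ≠ 0 := by positivity
    have : a = (c + 1)⁻¹ • ((c + 1) • a) := by rw [smul_smul, inv_mul_cancel₀ hne, one_smul]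
    rw [this]
    exact hu1.smul (Units.mk0 (c+1)⁻¹ (inv_ne_zero hne))
  -- inverse square root
  have hcom : Commute e a := by
    show e * a = a * e
    rw [ha, mul_add, add_mul, heb, hbe, mul_sub, sub_mul, hee]; simp
  set r : A := a ^ (-(1/2) : ℝ) with hr
  have hrr : r * r * a = 1 := by
    have e1 : r * r = a ^ (-1 : ℝ) := by
      rw [hr, ← CFC.rpow_add hua]; norm_num
    have e2 : a ^ (-1 : ℝ) * a = 1 := by
      have : a ^ (-1 : ℝ) * a ^ (1 : ℝ) = a ^ (0 : ℝ) := by
        rw [← CFC.rpow_add hua]; norm_num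
      rwa [CFC.rpow_one a, CFC.rpow_zero a] at this
    rw [e1, e2]
  have hrs : star r = r := (IsSelfAdjoint.of_nonneg CFC.rpow_nonneg)
  have hra : r * a = a * r := ((Commute.refl a).cfc_nnreal _)
  have hre : r * e = e * r := (hcom.symm.cfc_nnreal _)
  have hea : e * a = b := by rw [ha, mul_add, heb, mul_sub, hee]; simp
  have hww : star (x * r) * (x * r) = e := by
    rw [star_mul, hrs]
    calc r * star x * (x * r) = r * b * r := by rw [hb]; simp only [mul_assoc]
      _ = r * e * (a * r) := by rw [← hea]; simp only [mul_assoc]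
      _ = e * (r * r * a) := by rw [hre, ← hra]; simp only [mul_assoc]
      _ = e := by rw [hrr, mul_one]
  refine ⟨x * r, x * r * star (x * r), r * star (x * r), hww, rfl, pi_final he hww, ?_, ?_, rfl⟩
  · have hae : a * e = b := by rw [← hcom.eq, hea]
    calc x * r * star (x * r) * x = x * (r * r * b) := by
          rw [star_mul, hrs, hb]; simp only [mul_assoc]
      _ = x * (r * r * a) * e := by rw [← hae]; simp only [mul_assoc]
      _ = x := by rw [hrr, mul_one, hx]
  · simp only [mul_assoc]

end an

end Pool.Agent.R456.CL
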