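import Pool.Agent.R456.CL.Base2

set_option autoImplicit false

namespace Pool.Agent.R456.CL

universe u

section fin

variable {A : Type u} [CStarAlgebra A]

lemma pj_norm_le {p : A} (hp : PJ p) : ‖p‖ ≤ 1 := by
  have h := CStarRing.norm_star_mul_self (x := p)
  rw [PJ.star hp, PJ.mul_self hp] at h
  by_contra hlt
  push Not at hlt
  nlinarith

lemma pi_norm_le {v p : A} (hp : PJ p) (h : star v * v = p) : ‖v‖ ≤ 1 := by
  have h1 := CStarRing.norm_star_mul_self (x := v)
  rw [h] at h1
  have h2 := pj_norm_le hp
  by_contra hlt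
  push Not at hlt
  nlinarith

/-- a partial isometry absorbs its final projection. -/
lemma pi_left {v p l : A} (hp : PJ p) (h : star v * v = p) (hl : v * star v = l) : l * v = v := by
  rw [← hl, mul_assoc, h, pi_right hp h]

/-- if the final projection is below `q`, then `q * v = v`. -/
lemma pi_le {v p q : A} (hp : PJ p) (hq : PJ q) (h : star v * v = p)
    (hl : (v * star v) * q = v * star v) : q * v = v := by
  have h1 : q * (v * star v) = v * star v := Le.rev (pi_final hp h) hq hl
  calc q * v = q * (v * star v * v) := by rw [mul_assoc v, h, pi_right hp h]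
    _ = (q * (v * star v)) * v := by simp only [mul_assoc]
    _ = v := by rw [h1, mul_assoc, h, pi_right hp h]

lemma star_absorb_left {v q : A} (hq : PJ q) (h : q * v = v) : star v * q = star v := by
  have := congrArg star h
  rwa [star_mul, PJ.star hq] at this

lemma star_absorb_right {v q : A} (hq : PJ q) (h : v * q = v) : q * star v = star v := by
  have := congrArg star h
  rwa [star_mul, PJ.star hq] at this

lemma not_infin_sub {g e : A} (hg : PJ g) (he : PJ e) (hle : Le e g) (h : ¬ Infin g) :
    ¬ Infin e := by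
  rintro ⟨v, hv1, hv2, hv3⟩
  apply h
  have hev : e * v = v := pi_le he he hv1 hv2
  have hve : v * e = v := pi_right he hv1
  obtain ⟨o1, o2⟩ : e * (g - e) = 0 ∧ (g - e) * e = 0 := by
    constructor
    · rw [mul_sub, hle, PJ.mul_self he, sub_self]
    · rw [sub_mul, hle.rev he hg, PJ.mul_self he, sub_self]
  have hge : PJ (g - e) := pj_sub he hg hle
  have c1 : star v * (g - e) = 0 := by
    rw [← star_absorb_left he hev, mul_assoc, o1, mul_zero]
  have c2 : (g - e) * v = 0 := by rw [← hev, ← mul_assoc, o2, zero_mul]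
  have c3 : v * (g - e) = 0 := by rw [← hve, mul_assoc, o1, mul_zero]
  have c4 : (g - e) * star v = 0 := by
    rw [← star_absorb_right he hve, ← mul_assoc, o2, zero_mul]
  have z1 : star (v + (g - e)) * (v + (g - e)) = g := by
    rw [star_add, PJ.star hge, add_mul, mul_add, mul_add, hv1, c1, c2, PJ.mul_self hge]; abel
  have z2 : (v + (g - e)) * star (v + (g - e)) = v * star v + (g - e) := by
    rw [star_add, PJ.star hge, add_mul, mul_add, mul_add, c3, c4, PJ.mul_self hge]; abel
  have hvg : v * star v * g = v * star v := by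
    calc v * star v * g = (v * star v * e) * g := by rw [hv2]
      _ = v * star v := by rw [mul_assoc, hle, hv2]
  refine ⟨v + (g - e), z1, ?_, ?_⟩
  · rw [z2, add_mul, hvg, sub_mul, PJ.mul_self hg, hle]
  · rw [z2]
    intro hh
    apply hv3
    have h5 : v * star v + (g - e) - (g - e) = g - (g - e) := by rw [hh]
    simpa using h5

lemma eqv_symm {p q : A} (h : Eqv p q) : Eqv q p := by
  obtain ⟨v, h1, h2⟩ := h
  exact ⟨star v, by rw [star_star, h2], by rw [star_star, h1]⟩

lemma eqv_trans {p q r : A} (hp : PJ p) (hq : PJ q) (h : Eqv p q) (h' : Eqv q r) : Eqv p r := by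
  obtain ⟨v, h1, h2⟩ := h
  obtain ⟨w, h3, h4⟩ := h'
  have hqv : q * v = v := pi_left hp h1 h2
  have hwq : w * q = w := pi_right hq h3
  refine ⟨w * v, ?_, ?_⟩
  · rw [star_mul]
    calc star v * star w * (w * v) = star v * ((star w * w) * v) := by simp only [mul_assoc]
      _ = p := by rw [h3, hqv, h1]
  · rw [star_mul]
    calc w * v * (star v * star w) = w * (v * star v) * star w := by simp only [mul_assoc]
      _ = r := by rw [h2, hwq, h4]

lemma fin_compl (hcmp : PCmp A) {g k h v : A} (hg : PJ g) (hk : PJ k) (hh : PJ h)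
    (hkg : Le k g) (hhg : Le h g) (hfin : ¬ Infin g) (hv1 : star v * v = k)
    (hv2 : v * star v = h) : Eqv (g - k) (g - h) := by
  have hpe : PJ (g - k) := pj_sub hk hg hkg
  have hpf : PJ (g - h) := pj_sub hh hg hhg
  obtain ⟨o1, o2⟩ : k * (g - k) = 0 ∧ (g - k) * k = 0 := by
    constructor
    · rw [mul_sub, hkg, PJ.mul_self hk, sub_self]
    · rw [sub_mul, hkg.rev hk hg, PJ.mul_self hk, sub_self]
  obtain ⟨o3, o4⟩ : h * (g - h) = 0 ∧ (g - h) * h = 0 := by
    constructor
    · rw [mul_sub, hhg, PJ.mul_self hh, sub_self]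
    · rw [sub_mul, hhg.rev hh hg, PJ.mul_self hh, sub_self]
  have hhv : h * v = v := pi_left hk hv1 hv2
  have hvk : v * k = v := pi_right hk hv1
  have hsvh : star v * h = star v := star_absorb_left hh hhv
  have hksv : k * star v = star v := star_absorb_right hk hvk
  have hekg : (g - k) * g = g - k := by rw [sub_mul, PJ.mul_self hg, hkg]
  have hehg : (g - h) * g = g - h := by rw [sub_mul, PJ.mul_self hg, hhg]
  rcases hcmp (g - k) (g - h) hpe hpf with ⟨u, hu1, hu2⟩ | ⟨u, hu1, hu2⟩
  · have hfu : (g - h) * u = u := pi_le hpe hpf hu1 hu2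
    have hue : u * (g - k) = u := pi_right hpe hu1
    have hsuf : star u * (g - h) = star u := star_absorb_left hpf hfu
    have hesu : (g - k) * star u = star u := star_absorb_right hpe hue
    have c1 : star v * u = 0 := by
      rw [← hsvh, ← hfu, mul_assoc, ← mul_assoc h, o3, zero_mul, mul_zero]
    have c2 : star u * v = 0 := by
      rw [← hsuf, ← hhv, mul_assoc, ← mul_assoc (g - h), o4, zero_mul, mul_zero]
    have c3 : v * star u = 0 := by
      rw [← hvk, ← hesu, mul_assoc, ← mul_assoc k, o1, zero_mul, mul_zero]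
    have c4 : u * star v = 0 := by
      rw [← hue, ← hksv, mul_assoc, ← mul_assoc (g - k), o2, zero_mul, mul_zero]
    have z1 : star (v + u) * (v + u) = g := by
      rw [star_add, add_mul, mul_add, mul_add, hv1, c1, c2, hu1]; abel
    have z2 : (v + u) * star (v + u) = h + u * star u := by
      rw [star_add, add_mul, mul_add, mul_add, hv2, c3, c4]; abel
    by_cases hne : h + u * star u = g
    · exact ⟨u, hu1, by rw [← hne]; abel⟩
    · exfalso
      apply hfin
      refine ⟨v + u, z1, ?_, by rw [z2]; exact hne⟩
      rw [z2, add_mul, hhg, ← hu2, mul_assoc, hehg, hu2]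
  · have hfu : (g - k) * u = u := pi_le hpf hpe hu1 hu2
    have hue : u * (g - h) = u := pi_right hpf hu1
    have hsuf : star u * (g - k) = star u := star_absorb_left hpe hfu
    have hesu : (g - h) * star u = star u := star_absorb_right hpf hue
    have c1 : v * u = 0 := by
      rw [← hvk, ← hfu, mul_assoc, ← mul_assoc k, o1, zero_mul, mul_zero]
    have c2 : star u * star v = 0 := by
      rw [← hsuf, ← hksv, mul_assoc, ← mul_assoc (g - k), o2, zero_mul, mul_zero]
    have c3 : star v * star u = 0 := by
      rw [← hsvh, ← hesu, mul_assoc, ← mul_assoc h, o3, zero_mul, mul_zero]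
    have c4 : u * v = 0 := by
      rw [← hue, ← hhv, mul_assoc, ← mul_assoc (g - h), o4, zero_mul, mul_zero]
    have z1 : star (star v + u) * (star v + u) = g := by
      rw [star_add, star_star, add_mul, mul_add, mul_add, hv2, c1, c2, hu1]; abel
    have z2 : (star v + u) * star (star v + u) = k + u * star u := by
      rw [star_add, star_star, add_mul, mul_add, mul_add, hv1, c3, c4]; abel
    by_cases hne : k + u * star u = g
    · exact eqv_symm ⟨u, hu1, by rw [← hne]; abel⟩
    · exfalso
      apply hfin
      refine ⟨star v + u, z1, ?_, by rw [z2]; exact hne⟩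
      rw [z2, add_mul, hkg, ← hu2, mul_assoc, hekg, hu2]

end fin

end Pool.Agent.R456.CL
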