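import Pool.Agent.R456.CL.Fin

set_option autoImplicit false

namespace Pool.Agent.R456.CL

universe u

section caseA

variable {A : Type u} [CStarAlgebra A]

lemma clean_conj {g n T : A} (hg : PJ g) (h1 : g * n = n) (h2 : n * g = n) (h3 : n * n = 0)
    (hT1 : g * T = T) (hT2 : T * g = T) (h : CleanIn g ((g - n) * T * (g + n))) :
    CleanIn g T := by
  obtain ⟨P, hP1, hP2, hP3, hP4⟩ := h
  have hgg := PJ.mul_self hg
  have a1 : (g + n) * (g - n) = g := by
    rw [add_mul, mul_sub, mul_sub, hgg, h1, h2, h3]; abel
  have a2 : (g - n) * (g + n) = g := by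
    rw [sub_mul, mul_add, mul_add, hgg, h1, h2, h3]; abel
  have i1 : Iso g g (g + n) := iso_unip hgg h1 h2 h3
  have i2 : Iso g g (g - n) := by
    have := iso_unip (n := -n) hgg (by rw [mul_neg, h1]) (by rw [neg_mul, h2]) (by rw [neg_mul_neg, h3])
    rwa [← sub_eq_add_neg] at this
  refine ⟨(g + n) * P * (g - n), ?_, ?_, ?_, ?_⟩
  · have : g * (g + n) = g + n := by rw [mul_add, hgg, h1]
    rw [← mul_assoc, ← mul_assoc, this]
  · have : (g - n) * g = g - n := by rw [sub_mul, hgg, h2]
    rw [mul_assoc, this]
  · calc (g + n) * P * (g - n) * ((g + n) * P * (g - n))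
        = (g + n) * P * ((g - n) * (g + n)) * P * (g - n) := by simp only [mul_assoc]
      _ = (g + n) * (P * g * P) * (g - n) := by rw [a2]; simp only [mul_assoc]
      _ = (g + n) * P * (g - n) := by rw [hP2, hP3]
  · obtain ⟨X, hX⟩ : ∃ X, X = (g - n) * T * (g + n) := ⟨_, rfl⟩
    have hTX : T = (g + n) * X * (g - n) := by
      calc T = g * T * g := by rw [hT1, hT2]
        _ = (g + n) * (g - n) * T * ((g + n) * (g - n)) := by rw [a1]
        _ = _ := by rw [hX]; simp only [mul_assoc]
    have : T - (g + n) * P * (g - n) = (g + n) * ((X - P) * (g - n)) := by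
      rw [sub_mul X P, mul_sub (g + n), ← mul_assoc, ← mul_assoc, ← hTX]
    rw [this]
    rw [← hX] at hP4
    exact iso_mul (iso_mul i2 hP4) i1

/-- range projection of an idempotent. -/
lemma idem_proj {k : A} (hk : k * k = k) : ∃ p : A, PJ p ∧ k * p = p ∧ p * k = k := by
  let _ : PartialOrder A := CStarAlgebra.spectralOrder A
  let _ : StarOrderedRing A := CStarAlgebra.spectralOrderedRing A
  have hks : star k * star k = star k := by rw [← star_mul, hk]
  obtain ⟨a, ha⟩ : ∃ a : A, a = 1 + (k - star k) * star (k - star k) := ⟨_, rfl⟩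
  have ha2 : a = 1 + (k * star k - k - star k + star k * k) := by
    rw [ha, star_sub, star_star]
    congr 1
    rw [sub_mul, mul_sub, mul_sub, hk, hks]; abel
  have hunit : IsUnit a := by
    have h1 : (1 : A) ≤ a := by
      rw [ha]; exact le_add_of_nonneg_right (mul_star_self_nonneg _)
    exact CStarAlgebra.isUnit_of_le (1 : A) h1
  have hka : k * a = k * star k * k := by
    rw [ha2]
    simp only [mul_add, mul_sub, mul_one, hk, ← mul_assoc]; abel
  have hak : a * k = k * star k * k := by
    rw [ha2]
    simp only [add_mul, sub_mul, one_mul, hk, mul_assoc]; abel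
  have hsa : star a = a := by
    rw [ha, star_add, star_one, star_mul, star_star]
  obtain ⟨u, hu⟩ := hunit
  obtain ⟨b, hb⟩ : ∃ b : A, b = ((u⁻¹ : Aˣ) : A) := ⟨_, rfl⟩
  have hab : a * b = 1 := by rw [← hu, hb]; simp
  have hba : b * a = 1 := by rw [← hu, hb]; simp
  have hcomm : ∀ x : A, a * x = x * a → b * x = x * b := by
    intro x hx
    calc b * x = b * x * (a * b) := by rw [hab, mul_one]
      _ = b * (x * a) * b := by simp only [mul_assoc]
      _ = b * (a * x) * b := by rw [hx]
      _ = (b * a) * x * b := by simp only [mul_assoc]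
      _ = x * b := by rw [hba, one_mul]
  have hbk : b * k = k * b := hcomm k (by rw [hka, hak])
  have hask : a * star k = star k * a := by
    have := congrArg star (hka.trans hak.symm)
    rw [star_mul, star_mul, hsa] at this
    exact this
  have hbsk : b * star k = star k * b := hcomm _ hask
  have hsb : star b = b := by
    have h1 := congrArg star hab
    rw [star_mul, hsa, star_one] at h1
    calc star b = star b * (a * b) := by rw [hab, mul_one]
      _ = b := by rw [← mul_assoc, h1, one_mul]
  have hpk : k * star k * b * k = k := by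
    calc k * star k * b * k = (k * star k * k) * b := by
          rw [mul_assoc (k * star k), hbk]; simp only [mul_assoc]
      _ = k * (a * b) := by rw [← hka, mul_assoc]
      _ = k := by rw [hab, mul_one]
  refine ⟨k * star k * b, ⟨?_, ?_⟩, ?_, hpk⟩
  · unfold IsIdempotentElem
    calc k * star k * b * (k * star k * b) = (k * star k * b * k) * star k * b := by
          simp only [mul_assoc]
      _ = k * star k * b := by rw [hpk]
  · unfold IsSelfAdjoint
    rw [star_mul, star_mul, star_star, hsb]
    calc b * (k * star k) = (b * k) * star k := by rw [mul_assoc]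
      _ = k * (b * star k) := by rw [hbk, mul_assoc]
      _ = k * star k * b := by rw [hbsk, mul_assoc]
  · simp only [← mul_assoc, hk]

lemma infin_eqv {g f : A} (hg : PJ g) (hf : PJ f) (h : Eqv g f) (hi : Infin g) : Infin f := by
  obtain ⟨v, hv1, hv2⟩ := h
  obtain ⟨u, hu1, hu2, hu3⟩ := hi
  have hgu : g * u = u := pi_le hg hg hu1 hu2
  have hvg : v * g = v := pi_right hg hv1
  have hfv : f * v = v := pi_left hg hv1 hv2
  have e1 : (v * u * star v) * star (v * u * star v) = v * (u * star u) * star v := by
    rw [star_mul, star_mul, star_star]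
    calc v * u * star v * (v * (star u * star v)) = v * u * (star v * v) * star u * star v := by
          simp only [mul_assoc]
      _ = v * u * (g * star u) * star v := by rw [hv1]; simp only [mul_assoc]
      _ = _ := by
        rw [star_absorb_right hg (pi_right hg hu1)]; simp only [mul_assoc]
  refine ⟨v * u * star v, ?_, ?_, ?_⟩
  · rw [star_mul, star_mul, star_star]
    calc v * (star u * star v) * (v * u * star v) = v * (star u * ((star v * v) * u)) * star v := by
          simp only [mul_assoc]
      _ = f := by rw [hv1, hgu, hu1, hvg, hv2]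
  · rw [e1, mul_assoc, star_absorb_left hf hfv]
  · rw [e1]
    intro hh
    apply hu3
    have h1 : star v * (v * (u * star u) * star v) * v = g * (u * star u) * g := by
      rw [← hv1]; simp only [mul_assoc]
    have h2 : star v * f * v = g := by rw [mul_assoc, hfv, hv1]
    rw [hh, h2] at h1
    rw [mul_assoc, hu2, ← mul_assoc, hgu] at h1
    exact h1.symm

lemma sub_trans' {p q r : A} (hp : PJ p) (hq : PJ q) (hr : PJ r) (h : Sub p q) (h' : Sub q r) :
    Sub p r := by
  obtain ⟨v, h1, h2⟩ := h
  obtain ⟨w, h3, h4⟩ := h'
  have hqv : q * v = v := pi_le hp hq h1 h2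
  have hrw : r * w = w := pi_le hq hr h3 h4
  refine ⟨w * v, ?_, ?_⟩
  · rw [star_mul]
    calc star v * star w * (w * v) = star v * ((star w * w) * v) := by simp only [mul_assoc]
      _ = p := by rw [h3, hqv, h1]
  · rw [star_mul]
    calc w * v * (star v * star w) * r = w * v * star v * (star w * r) := by simp only [mul_assoc]
      _ = w * v * (star v * star w) := by rw [star_absorb_left hr hrw]; simp only [mul_assoc]

lemma sub_of_eqv {p q : A} (hq : PJ q) (h : Eqv p q) : Sub p q := by
  obtain ⟨v, h1, h2⟩ := h
  exact ⟨v, h1, by rw [h2, PJ.mul_self hq]⟩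

end caseA

end Pool.Agent.R456.CL
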