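import Pool.Agent.R456.CL.CaseA

set_option autoImplicit false

namespace Pool.Agent.R456.CL

universe u

section caseA2

variable {A : Type u} [CStarAlgebra A]

/-- completing a row with a right inverse to an isomorphism. -/
lemma complete_row (hsb : PSB A) {g e f f1 h R ρ : A} (hg : PJ g) (he : PJ e) (hf : PJ f)
    (hf1 : PJ f1) (hh : PJ h) (heg : Le e g) (hfg : Le f g) (hhg : Le h g) (hf1f : Le f1 f)
    (hfh : f * h = 0) (heh : e * h = 0) (hge : Eqv g e) (hgf1 : Eqv g f1)
    (hR1 : h * R = R) (hR2 : R * (f + h) = R) (hρ1 : (f + h) * ρ = ρ) (hρ2 : ρ * h = ρ)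
    (hRρ : R * ρ = h) (hf1ρ : f1 * ρ = 0) :
    ∃ α : A, e * α = α ∧ α * (f + h) = α ∧ Iso (f + h) (e + h) (α + R) := by
  obtain ⟨G, hG⟩ : ∃ G, G = f + h := ⟨_, rfl⟩
  have hGp : PJ G := by rw [hG]; exact pj_add hf hh hfh
  rw [← hG] at hR2 hρ1 ⊢
  have hGG := PJ.mul_self hGp
  obtain ⟨k, hk⟩ : ∃ k, k = G - ρ * R := ⟨_, rfl⟩
  have hρR : (ρ * R) * (ρ * R) = ρ * R := by
    calc (ρ * R) * (ρ * R) = ρ * (R * ρ) * R := by simp only [mul_assoc]
      _ = ρ * R := by rw [hRρ, hρ2]
  have hGk : G * k = k := by rw [hk, mul_sub, hGG, ← mul_assoc, hρ1]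
  have hkG : k * G = k := by rw [hk, sub_mul, hGG, mul_assoc, hR2]
  have hRk : R * k = 0 := by rw [hk, mul_sub, hR2, ← mul_assoc, hRρ, hR1, sub_self]
  have hkρ : k * ρ = 0 := by rw [hk, sub_mul, hρ1, mul_assoc, hRρ, hρ2, sub_self]
  have hkk : k * k = k := by
    have : k * k = k * (G - ρ * R) := by rw [← hk]
    rw [this, mul_sub, ← mul_assoc, hkρ, zero_mul, sub_zero, hkG]
  obtain ⟨p, hp, hkp, hpk⟩ := idem_proj hkk
  have hGp' : G * p = p := by rw [← hkp, ← mul_assoc, hGk]
  have hfg' : g * f = f := hfg.rev hf hg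
  have hhg' : g * h = h := hhg.rev hh hg
  have hgG : g * G = G := by rw [hG, mul_add, hfg', hhg']
  have hgp : g * p = p := by rw [← hGp', ← mul_assoc, hgG]
  have hpg : p * g = p := by
    have := star_absorb_left (v := p) hg hgp
    rwa [PJ.star hp] at this
  -- Sub p e
  have hsub1 : Sub p e := by
    obtain ⟨v, hv1, hv2⟩ := hge
    have hev : e * v = v := pi_left hg hv1 hv2
    refine ⟨v * p, ?_, ?_⟩
    · rw [star_mul, PJ.star hp]
      calc p * star v * (v * p) = p * (star v * v) * p := by simp only [mul_assoc]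
        _ = p := by rw [hv1, hpg, PJ.mul_self hp]
    · rw [star_mul, PJ.star hp]
      have := star_absorb_left he hev
      simp only [mul_assoc, this]
  -- Sub e p
  have hsub2 : Sub e p := by
    have hf1G : f1 * G = f1 := by
      have : f1 * h = 0 := by rw [← hf1f, mul_assoc, hfh, mul_zero]
      rw [hG, mul_add, hf1f, this, add_zero]
    have hf1k : f1 * k = f1 := by rw [hk, mul_sub, hf1G, ← mul_assoc, hf1ρ, zero_mul, sub_zero]
    have hf1f1 := PJ.mul_self hf1
    obtain ⟨w, l, t, hw1, hw2, hl, _, hlt, _⟩ := left_inv (e := f1) (x := k * f1) (y := f1) hf1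
      (by rw [mul_assoc, hf1f1]) (by rw [← mul_assoc, hf1k, hf1f1])
    have hpl : p * l = l := by
      rw [hlt, ← mul_assoc, ← mul_assoc, hpk]
    have hlp : l * p = l := by
      have := star_absorb_left (v := l) hp hpl
      rwa [PJ.star hl] at this
    have s1 : Sub f1 p := ⟨w, hw1, by rw [hw2, hlp]⟩
    have s2 : Sub g f1 := sub_of_eqv hf1 hgf1
    have s3 : Sub e g := sub_of_eqv hg (eqv_symm hge)
    exact sub_trans' he hf1 hp (sub_trans' he hg hf1 s3 s2) s1
  obtain ⟨w, hw1, hw2⟩ := hsb p e hp he hsub1 hsub2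
  have hew : e * w = w := pi_left hp hw1 hw2
  have hwp : w * p = w := pi_right hp hw1
  have hpw : p * star w = star w := star_absorb_right hp hwp
  have hwe : star w * e = star w := star_absorb_left he hew
  have hkw : k * star w = star w := by rw [← hpw, ← mul_assoc, hkp]
  have hwh : star w * h = 0 := by rw [← hwe, mul_assoc, heh, mul_zero]
  have hhe : h * e = 0 := orth_comm he hh heh
  refine ⟨w * k, by rw [← mul_assoc, hew], by rw [mul_assoc, hkG], ?_⟩
  refine ⟨?_, by rw [add_mul, mul_assoc, hkG, hR2], star w + ρ, ?_, ?_, ?_, ?_⟩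
  · have h1 : e * R = 0 := by rw [← hR1, ← mul_assoc, heh, zero_mul]
    have h2 : h * (w * k) = 0 := by rw [← hew, ← mul_assoc, ← mul_assoc, hhe]; simp
    rw [add_mul, mul_add, mul_add, h1, h2, hR1, ← mul_assoc, hew]; abel
  · have : G * star w = star w := by rw [← hkw, ← mul_assoc, hGk]
    rw [mul_add, this, hρ1]
  · have h1 : ρ * e = 0 := by rw [← hρ2, mul_assoc, hhe, mul_zero]
    rw [mul_add, add_mul, add_mul, hwe, h1, hwh, hρ2]; abel
  · have h1 : star w * R = 0 := by rw [← hR1, ← mul_assoc, hwh, zero_mul]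
    have h2 : ρ * (w * k) = 0 := by
      rw [← hew, ← hρ2]
      calc ρ * h * (e * w * k) = ρ * (h * e) * w * k := by simp only [mul_assoc]
        _ = 0 := by rw [hhe]; simp
    rw [add_mul, mul_add, mul_add, h1, h2, ← mul_assoc, hw1, hpk, hk]; abel
  · have h1 : w * k * star w = e := by rw [mul_assoc, hkw, hw2]
    have h2 : w * k * ρ = 0 := by rw [mul_assoc, hkρ, mul_zero]
    have h3 : R * star w = 0 := by rw [← hkw, ← mul_assoc, hRk, zero_mul]
    rw [add_mul, mul_add, mul_add, h1, h2, h3, hRρ]; abel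

end caseA2

end Pool.Agent.R456.CL
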