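import Pool.Agent.R456.CL.CaseA2

set_option autoImplicit false

namespace Pool.Agent.R456.CL

universe u

section caseA3

variable {A : Type u} [CStarAlgebra A]

/-- the core of case (A): `d * T * e = 0`. -/
lemma caseA_core (hc : PCut A) (hinf : PInf A) (hsb : PSB A) {g T e f d c : A}
    (hg : PJ g) (hginf : Infin g) (hgT : g * T = T) (hTg : T * g = T) (he : PJ e) (hf : PJ f)
    (hd : PJ d) (hsum : e + (f + d) = g) (hef : e * f = 0) (hed : e * d = 0) (hfd : f * d = 0)
    (hge : Eqv g e) (hgf : Eqv g f) (hc1 : e * c = c) (hc2 : c * f = c)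
    (hc3 : c * (f * T * e) = e) (hc4 : (f * T * e) * c = f) (hdTe : d * T * e = 0) :
    CleanIn g T := by
  have hfe : f * e = 0 := orth_comm he hf hef
  have hde : d * e = 0 := orth_comm he hd hed
  have hdf : d * f = 0 := orth_comm hf hd hfd
  have hee := PJ.mul_self he
  have hff := PJ.mul_self hf
  have hdd := PJ.mul_self hd
  have hgg := PJ.mul_self hg
  have heg : Le e g := by show e * g = e; rw [← hsum]; simp only [mul_add, hee, hef, hed]; abel
  have hfg : Le f g := by show f * g = f; rw [← hsum]; simp only [mul_add, hff, hfe, hfd]; abel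
  have hdg : Le d g := by show d * g = d; rw [← hsum]; simp only [mul_add, hde, hdf, hdd]; abel
  -- the block z and the cut
  obtain ⟨z, hz⟩ : ∃ z, z = d * T * d := ⟨_, rfl⟩
  have hdz : d * z = z := by rw [hz, ← mul_assoc, ← mul_assoc, hdd]
  have hzd : z * d = z := by rw [hz, mul_assoc, hdd]
  obtain ⟨h, w, c0, hh, hhd, hw, hwd, hwx, hkc, hcw, hcx, hxc, hn⟩ :=
    cut_pack hc (x := star z) hd hd (star_absorb_left hd hdz) (star_absorb_right hd hzd)
      (ε := 1 / 2) (by norm_num)
  have hhh := PJ.mul_self hh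
  obtain ⟨ρ, hρ⟩ : ∃ ρ, ρ = star c0 := ⟨_, rfl⟩
  have hρh : ρ * h = ρ := by rw [hρ, star_absorb_left hh hkc]
  have hzρ : h * z * ρ = h := by
    have := congrArg star hcx
    rw [star_mul, star_mul, star_star, PJ.star hh, ← hρ] at this
    exact this
  have hdρ : d * ρ = ρ := by
    have hl : PJ (w * star w) := pi_final hh hw
    have h1 : (w * star w) * ρ = ρ := by
      rw [hρ]
      have := congrArg star hcw
      rwa [star_mul, PJ.star hl] at this
    rw [← h1, ← mul_assoc, Le.rev hl hd hwd]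
  -- q = d - h
  obtain ⟨q, hqdef⟩ : ∃ q, q = d - h := ⟨_, rfl⟩
  have hq : PJ q := by rw [hqdef]; exact pj_sub hh hd hhd
  obtain ⟨hhq, hqh⟩ : h * q = 0 ∧ q * h = 0 := by rw [hqdef]; exact le_sub_orth hh hd hhd
  have hqq := PJ.mul_self hq
  have hqsum : q + h = d := by rw [hqdef]; abel
  have hqd : q * d = q := by rw [← hqsum, mul_add, hqq, hqh, add_zero]
  have hdq : d * q = q := Le.rev hq hd hqd
  have hdh : d * h = h := hhd.rev hh hd
  have hhd' : h * d = h := hhd
  have heq : e * q = 0 := by rw [← hdq, ← mul_assoc, hed, zero_mul]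
  have hqe : q * e = 0 := orth_comm he hq heq
  have heh : e * h = 0 := by rw [← hdh, ← mul_assoc, hed, zero_mul]
  have hhe : h * e = 0 := orth_comm he hh heh
  have hfq : f * q = 0 := by rw [← hdq, ← mul_assoc, hfd, zero_mul]
  have hqf : q * f = 0 := orth_comm hf hq hfq
  have hfh : f * h = 0 := by rw [← hdh, ← mul_assoc, hfd, zero_mul]
  have hhf : h * f = 0 := orth_comm hf hh hfh
  have hqz : ‖q * z‖ ≤ 1 / 2 := by
    have : q * z = star (star z * (d - h)) := by
      rw [star_mul, star_star, ← hqdef, PJ.star hq]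
    rw [this, norm_star]; exact hn
  have hgd : g * d = d := hdg.rev hd hg
  have hqg : Le q g := by show q * g = q; rw [← hqd, mul_assoc, hdg]
  have hhg : Le h g := by show h * g = h; rw [← hhd', mul_assoc, hdg]
  -- inverse r of q - q z q
  have hIq : Iso q q (q + -(q * z * q)) := by
    refine iso_neumann hq ?_ ?_ ?_
    · rw [mul_neg, ← mul_assoc, ← mul_assoc, hqq]
    · rw [neg_mul, mul_assoc, hqq]
    · rw [norm_neg]
      have : ‖q * z * q‖ ≤ 1 / 2 * 1 :=
        (norm_mul_le _ _).trans (mul_le_mul hqz (pj_norm_le hq) (norm_nonneg _) (by norm_num))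
      linarith
  obtain ⟨_, _, r, hr1, hr2, hr3, hr4⟩ := hIq
  -- splitting of f
  have hfinf : Infin f := infin_eqv hg hf hgf hginf
  obtain ⟨f1, f2, hf1, hf2, hf12, hf1f, hf2f, hff1, hff2⟩ := hinf f hf hfinf
  have hgf1 : Eqv g f1 := eqv_trans hg hf hgf hff1
  have hgf2 : Eqv g f2 := eqv_trans hg hf hgf hff2
  have hff1' : f * f1 = f1 := hf1f.rev hf1 hf
  have hff2' : f * f2 = f2 := hf2f.rev hf2 hf
  have hf21 : f2 * f1 = 0 := orth_comm hf1 hf2 hf12
  -- W : W W* = q, W*W ≤ f1
  obtain ⟨v, hv1, hv2⟩ := hgf1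
  have hf1v : f1 * v = v := pi_left hg hv1 hv2
  obtain ⟨W, hW⟩ : ∃ W, W = q * star v := ⟨_, rfl⟩
  have hWW : W * star W = q := by
    rw [hW, star_mul, star_star, PJ.star hq]
    calc q * star v * (v * q) = q * ((star v * v) * q) := by simp only [mul_assoc]
      _ = q := by rw [hv1, hqg.rev hq hg, hqq]
  have hqW : q * W = W := by rw [hW, ← mul_assoc, hqq]
  have hWf1 : W * f1 = W := by rw [hW, mul_assoc, star_absorb_left hf1 hf1v]
  have hWf : W * f = W := by rw [← hWf1, mul_assoc, hf1f]
  have hWh : W * h = 0 := by rw [← hWf, mul_assoc, hfh, mul_zero]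
  have hf1W : f1 * star W = star W := star_absorb_right hf1 hWf1
  have hf2W : f2 * star W = 0 := by rw [← hf1W, ← mul_assoc, hf21, zero_mul]
  have hfW : f * star W = star W := star_absorb_right hf hWf
  have hhW : h * star W = 0 := by rw [← hfW, ← mul_assoc, hhf, zero_mul]
  -- mu
  obtain ⟨μ, hμ⟩ : ∃ μ, μ = q * ρ - r * (q * z * h * ρ) := ⟨_, rfl⟩
  have hqμ : q * μ = μ := by rw [hμ, mul_sub, ← mul_assoc, ← mul_assoc, hqq, hr1]
  have hμh : μ * h = μ := by
    rw [hμ, sub_mul, mul_assoc q, hρh, mul_assoc r, mul_assoc (q * z * h), hρh]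
  -- lambda
  obtain ⟨l, hl0, hln⟩ : ∃ l : ℝ, 0 < l ∧ ‖(l : ℂ)⁻¹ • (h * T * star W * μ)‖ < 1 := by
    refine ⟨‖h * T * star W * μ‖ + 1, by positivity, ?_⟩
    rw [norm_smul, norm_inv, Complex.norm_real, Real.norm_of_nonneg (by positivity)]
    rw [inv_mul_lt_iff₀ (by positivity)]; linarith [norm_nonneg (h * T * star W * μ)]
  have hl : (l : ℂ) ≠ 0 := by exact_mod_cast hl0.ne'
  obtain ⟨L, hL⟩ : ∃ L : ℂ, L = (l : ℂ) := ⟨_, rfl⟩
  rw [← hL] at hl hln
  have hIh : Iso h h (h + L⁻¹ • (h * T * star W * μ)) := by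
    refine iso_neumann hh ?_ ?_ hln
    · rw [mul_smul_comm]; simp only [← mul_assoc, hhh]
    · rw [smul_mul_assoc, mul_assoc, hμh]
  obtain ⟨_, _, j, hj1, hj2, hj3, hj4⟩ := hIh
  -- the row R and its right inverse
  obtain ⟨R, hR⟩ : ∃ R, R = h * T * f + h * z * h + h * z * r * (q * z * h) + L • (h * z * W) :=
    ⟨_, rfl⟩
  obtain ⟨η, hη⟩ : ∃ η, η = L⁻¹ • (star W * μ) + h * ρ := ⟨_, rfl⟩
  have hhR : h * R = R := by
    rw [hR]; simp only [mul_add, mul_smul_comm, ← mul_assoc, hhh]
  have hRG : R * (f + h) = R := by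
    rw [hR]
    simp only [add_mul, mul_add, smul_mul_assoc, mul_assoc, hff, hfh, hhf, hhh, hWf, hWh,
      mul_zero, smul_zero, add_zero, zero_add]
    abel
  have hGη : (f + h) * η = η := by
    rw [hη]
    simp only [add_mul, mul_add, mul_smul_comm, ← mul_assoc, hfW, hhW, hfh, hhh, zero_mul,
      smul_zero, add_zero, zero_add]
  have hf2η : f2 * η = 0 := by
    have : f2 * h = 0 := by rw [← hf2f, mul_assoc, hfh, mul_zero]
    rw [hη]
    simp only [mul_add, mul_smul_comm, ← mul_assoc, hf2W, this, zero_mul, smul_zero, add_zero]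
  have hRη : R * η = h + L⁻¹ • (h * T * star W * μ) := by
    have t1 : h * T * f * (star W * μ) = h * T * star W * μ := by
      rw [← mul_assoc, mul_assoc (h * T) f, hfW]
    have t2 : h * z * W * (star W * μ) = h * z * μ := by
      calc h * z * W * (star W * μ) = h * z * ((W * star W) * μ) := by simp only [mul_assoc]
        _ = h * z * μ := by rw [hWW, hqμ]
    have hhWμ : h * (star W * μ) = 0 := by rw [← mul_assoc, hhW, zero_mul]
    have t3 : h * z * h * (star W * μ) = 0 := by rw [mul_assoc (h * z), hhWμ, mul_zero]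
    have t4 : h * z * r * (q * z * h) * (star W * μ) = 0 := by
      calc h * z * r * (q * z * h) * (star W * μ) = h * z * r * (q * z) * (h * (star W * μ)) := by
            simp only [mul_assoc]
        _ = 0 := by rw [hhWμ, mul_zero]
    have t5 : h * T * f * (h * ρ) = 0 := by
      rw [← mul_assoc, mul_assoc (h * T) f, hfh]; simp
    have t6 : h * z * W * (h * ρ) = 0 := by
      rw [← mul_assoc, mul_assoc (h * z) W, hWh]; simp
    have t7 : h * z * h * (h * ρ) = h * z * (h * ρ) := by
      rw [mul_assoc (h * z), ← mul_assoc h h, hhh]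
    have t8 : h * z * r * (q * z * h) * (h * ρ) = h * z * (r * (q * z * h * ρ)) := by
      calc h * z * r * (q * z * h) * (h * ρ) = h * z * (r * (q * z * (h * h) * ρ)) := by
            simp only [mul_assoc]
        _ = _ := by rw [hhh]
    have t9 : h * z * μ + h * z * (h * ρ) + h * z * (r * (q * z * h * ρ)) = h := by
      rw [← mul_add, ← mul_add, hμ]
      have : q * ρ - r * (q * z * h * ρ) + h * ρ + r * (q * z * h * ρ) = ρ := by
        have h1 : q * ρ + h * ρ = ρ := by rw [← add_mul, hqsum, hdρ]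
        calc q * ρ - r * (q * z * h * ρ) + h * ρ + r * (q * z * h * ρ) = q * ρ + h * ρ := by abel
          _ = ρ := h1
      rw [this, hzρ]
    rw [hη, mul_add, mul_smul_comm, hR]
    simp only [add_mul, smul_mul_assoc, t1, t2, t3, t4, t5, t6, t7, t8, smul_zero, add_zero,
      zero_add, smul_add, smul_smul, inv_mul_cancel₀ hl, one_smul]
    calc L⁻¹ • (h * T * star W * μ) + h * z * μ + (h * z * (h * ρ) + h * z * (r * (q * z * h * ρ)))
        = (h * z * μ + h * z * (h * ρ) + h * z * (r * (q * z * h * ρ)))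
          + L⁻¹ • (h * T * star W * μ) := by abel
      _ = _ := by rw [t9]
  obtain ⟨α, hα1, hα2, hα3⟩ := complete_row hsb (R := R) (ρ := η * j) hg he hf hf2 hh heg hfg hhg
    hf2f hfh heh hge hgf2 hhR hRG (by rw [← mul_assoc, hGη]) (by rw [mul_assoc, hj2])
    (by rw [← mul_assoc, hRη, hj4]) (by rw [← mul_assoc, hf2η, zero_mul])
  -- the idempotent
  obtain ⟨a, ha⟩ : ∃ a, a = e * T * e - e := ⟨_, rfl⟩
  obtain ⟨Y, hY⟩ : ∃ Y, Y = q * z * h + L • ((q + -(q * z * q)) * W) := ⟨_, rfl⟩
  obtain ⟨F, hF⟩ : ∃ F, F = e * T * (f + h) - a * c * (f * T * (f + h))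
      + (e * T * q - a * c * (f * T * q)) * r * Y := ⟨_, rfl⟩
  obtain ⟨N, hN⟩ : ∃ N, N = F - α := ⟨_, rfl⟩
  obtain ⟨V, hV⟩ : ∃ V, V = q * T * f - L • ((q + -(q * z * q)) * W) := ⟨_, rfl⟩
  have hfhI : (f + h) * (f + h) = f + h := by
    rw [mul_add, add_mul, add_mul, hff, hhf, hfh, hhh]; abel
  have hYG : Y * (f + h) = Y := by
    rw [hY]
    simp only [add_mul, mul_add, smul_mul_assoc, mul_assoc, hhf, hhh, hWf, hWh,
      mul_zero, smul_zero, add_zero, zero_add]
    abel
  have hae : e * a = a := by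
    rw [ha, mul_sub, ← mul_assoc, ← mul_assoc, hee]
  have hea : a * e = a := by rw [ha, sub_mul, mul_assoc, hee]
  have hqa : q * a = 0 := by rw [← hae, ← mul_assoc, hqe, zero_mul]
  have hha : h * a = 0 := by rw [← hae, ← mul_assoc, hhe, zero_mul]
  have heN : e * N = N := by
    rw [hN, mul_sub, hα1, hF]
    simp only [mul_add, mul_sub, add_mul, sub_mul, ← mul_assoc, hee, hae]
  have hNG : N * (f + h) = N := by
    rw [hN, sub_mul, hα2, hF]
    congr 1
    rw [add_mul, sub_mul, mul_assoc (e * T), hfhI, mul_assoc (a * c), mul_assoc (f * T), hfhI,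
      mul_assoc _ Y, hYG]
  have hqV : q * V = V := by
    rw [hV, mul_sub, mul_smul_comm]
    congr 1
    · rw [← mul_assoc, ← mul_assoc, hqq]
    · rw [← mul_assoc, mul_add, hqq, mul_neg, ← mul_assoc, ← mul_assoc, hqq]
  have hVf : V * f = V := by
    rw [hV, sub_mul, smul_mul_assoc, mul_assoc _ W, hWf, mul_assoc _ f f, hff]
  have hGe : (f + h) * e = 0 := by rw [add_mul, hfe, hhe, add_zero]
  have hGq : (f + h) * q = 0 := by rw [add_mul, hfq, hhq, add_zero]
  have hNe : N * e = 0 := by rw [← hNG, mul_assoc, hGe, mul_zero]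
  have hNq : N * q = 0 := by rw [← hNG, mul_assoc, hGq, mul_zero]
  have hNN : N * N = 0 := by rw [← heN, ← mul_assoc, heN, hNe, zero_mul]
  have hNV : N * V = 0 := by rw [← hqV, ← mul_assoc, hNq, zero_mul]
  have heV : e * V = 0 := by rw [← hqV, ← mul_assoc, heq, zero_mul]
  have hVe : V * e = 0 := by rw [← hVf, mul_assoc, hfe, mul_zero]
  have hVq : V * q = 0 := by rw [← hVf, mul_assoc, hfq, mul_zero]
  have hVN : V * N = 0 := by rw [← heN, ← mul_assoc, hVe, zero_mul]
  have hVV : V * V = 0 := by rw [← hqV, ← mul_assoc, hqV, hVq, zero_mul]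
  have hqN : q * N = 0 := by rw [← heN, ← mul_assoc, hqe, zero_mul]
  have hhN : h * N = 0 := by rw [← heN, ← mul_assoc, hhe, zero_mul]
  have hfN : f * N = 0 := by rw [← heN, ← mul_assoc, hfe, zero_mul]
  have hhV : h * V = 0 := by rw [← hqV, ← mul_assoc, hhq, zero_mul]
  have hfV : f * V = 0 := by rw [← hqV, ← mul_assoc, hfq, zero_mul]
  obtain ⟨P, hP⟩ : ∃ P, P = e + N + V + q := ⟨_, rfl⟩
  have heP : e * P = e + N := by
    rw [hP]; simp only [mul_add, hee, heN, heV, heq, add_zero]
  have hqP : q * P = V + q := by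
    rw [hP]; simp only [mul_add, hqe, hqN, hqV, hqq, add_zero, zero_add]
  have hfP : f * P = 0 := by
    rw [hP]; simp only [mul_add, hfe, hfN, hfV, hfq, add_zero]
  have hhP : h * P = 0 := by
    rw [hP]; simp only [mul_add, hhe, hhN, hhV, hhq, add_zero]
  have hPP : P * P = P := by
    have h1 : P * P = e * P + N * P + V * P + q * P := by
      have : P * P = (e + N + V + q) * P := by rw [← hP]
      rw [this]; simp only [add_mul]
    have h2 : N * P = 0 := by rw [hP]; simp only [mul_add, hNe, hNN, hNV, hNq, add_zero]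
    have h3 : V * P = 0 := by rw [hP]; simp only [mul_add, hVe, hVN, hVV, hVq, add_zero]
    rw [h1, h2, h3, heP, hqP, hP]; abel
  have hge' : g * e = e := heg.rev he hg
  have hgf' : g * f = f := hfg.rev hf hg
  have hgq : g * q = q := hqg.rev hq hg
  have hgN : g * N = N := by rw [← heN, ← mul_assoc, hge']
  have hgV : g * V = V := by rw [← hqV, ← mul_assoc, hgq]
  have hNg : N * g = N := by
    rw [← hNG, mul_assoc, add_mul, hfg, hhg]
  have hVg : V * g = V := by rw [← hVf, mul_assoc, hfg]
  have hgP : g * P = P := by rw [hP]; simp only [mul_add, hge', hgN, hgV, hgq]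
  have hPg : P * g = P := by
    rw [hP]; simp only [add_mul]; rw [heg, hNg, hVg, hqg]
  refine ⟨P, hgP, hPg, hPP, ?_⟩
  -- the Schur complements
  have key : ∀ a b : A, a * d = a → d * b = b → a * T * b = a * z * b := by
    intro a b h1 h2
    rw [hz]
    calc a * T * b = (a * d) * T * (d * b) := by rw [h1, h2]
      _ = _ := by simp only [mul_assoc]
  have key0 : ∀ a : A, a * d = a → a * T * e = 0 := by
    intro a h1
    calc a * T * e = a * (d * T * e) := by
          rw [← h1]; simp only [mul_assoc]; simp only [← mul_assoc, h1]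
      _ = 0 := by rw [hdTe, mul_zero]
  obtain ⟨X, hX⟩ : ∃ X, X = T - P := ⟨_, rfl⟩
  rw [← hX]
  have heX : e * X = e * T - (e + N) := by rw [hX, mul_sub, heP]
  have hqX : q * X = q * T - (V + q) := by rw [hX, mul_sub, hqP]
  have hfX : f * X = f * T := by rw [hX, mul_sub, hfP, sub_zero]
  have hhX : h * X = h * T := by rw [hX, mul_sub, hhP, sub_zero]
  have hgX : g * X = X := by rw [hX, mul_sub, hgT, hgP]
  have hXg : X * g = X := by rw [hX, sub_mul, hTg, hPg]
  have hsum2 : f + (e + d) = g := by rw [← hsum]; abel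
  have hfd2 : (f + d) * (f + d) = f + d := by
    simp only [add_mul, mul_add, hff, hfd, hdf, hdd, add_zero, zero_add]
  have hed2 : (e + d) * (e + d) = e + d := by
    simp only [add_mul, mul_add, hee, hed, hde, hdd, add_zero, zero_add]
  have hfXe : f * X * e = f * T * e := by rw [hfX]
  have heXe : e * X * e = a := by rw [heX, sub_mul, add_mul, hNe, hee, add_zero, ha]
  have hqXe : q * X * e = 0 := by
    rw [hqX, sub_mul, key0 q hqd, add_mul, hVe, hqe, add_zero, sub_zero]
  have hhXe : h * X * e = 0 := by rw [hhX, key0 h hhd']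
  have hdXe : d * X * e = 0 := by
    rw [← hqsum, add_mul, add_mul, hqXe, hhXe, add_zero]
  have hedXe : (e + d) * X * e = a := by rw [add_mul, add_mul, heXe, hdXe, add_zero]
  have hNfd : N * (f + d) = N := by
    have : N * (f + h) = N * f + N * h := mul_add _ _ _
    rw [← hqsum, mul_add, mul_add, hNq, zero_add, ← this, hNG]
  have hVfd : V * (f + d) = V := by
    rw [mul_add, hVf, ← hVf, mul_assoc, hfd, mul_zero, add_zero]
  have key3 : IsUnit (1 : A) := isUnit_one
  rw [← hsum]
  conv => 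
    arg 2
    rw [hsum, ← hsum2]
  refine schur hee hfd2 (by rw [mul_add, hef, hed, add_zero]) (by rw [add_mul, hfe, hde, add_zero])
    hff hed2 (by rw [mul_add, hfe, hfd, add_zero]) (by rw [add_mul, hef, hdf, add_zero])
    (by rw [hsum2, hgX]) (by rw [hsum, hXg]) hc1 hc2 (by rw [hfXe, hc3]) (by rw [hfXe, hc4]) ?_
  obtain ⟨S, hS⟩ : ∃ S, S = (e + d) * X * (f + d) - (e + d) * X * e * c * (f * X * (f + d)) :=
    ⟨_, rfl⟩
  rw [← hS]
  have hfdq : (f + d) * q = q := by rw [add_mul, hfq, hdq, zero_add]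
  have hfdG : (f + d) * (f + h) = f + h := by
    simp only [add_mul, mul_add, hff, hfh, hdf, hdh, add_zero, zero_add]
  have hqed : q * (e + d) = q := by rw [mul_add, hqe, hqd, zero_add]
  have hhed : h * (e + d) = h := by rw [mul_add, hhe, hhd', zero_add]
  have heed : e * (e + d) = e := by rw [mul_add, hee, hed, add_zero]
  have hqS : q * S = (q * T - (V + q)) * (f + d) := by
    have e1 : q * (a * c * (f * X * (f + d))) = 0 := by
      rw [mul_assoc a, ← mul_assoc q, hqa, zero_mul]
    rw [hS, hedXe, mul_sub, e1, sub_zero, ← mul_assoc, ← mul_assoc, hqed, hqX]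
  have hhS : h * S = h * T * (f + d) := by
    have e1 : h * (a * c * (f * X * (f + d))) = 0 := by
      rw [mul_assoc a, ← mul_assoc h, hha, zero_mul]
    rw [hS, hedXe, mul_sub, e1, sub_zero, ← mul_assoc, ← mul_assoc, hhed, hhX]
  have heS : e * S = (e * T - (e + N)) * (f + d) - a * c * (f * T * (f + d)) := by
    have e1 : e * (a * c * (f * X * (f + d))) = a * c * (f * T * (f + d)) := by
      rw [mul_assoc a, ← mul_assoc e, hae, hfX, ← mul_assoc]
    rw [hS, hedXe, mul_sub, e1, ← mul_assoc, ← mul_assoc, heed, heX]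
  have hqSq : q * S * q = -(q + -(q * z * q)) := by
    rw [hqS, mul_assoc, hfdq, sub_mul, key q q hqd hdq, add_mul, hVq, hqq]; abel
  have hqSG : q * S * (f + h) = Y := by
    rw [hqS, mul_assoc, hfdG, sub_mul, mul_add (q * T), key q h hqd hdh, add_mul]
    have e1 : V * (f + h) = V := by
      rw [mul_add, hVf, ← hVf, mul_assoc, hfh, mul_zero, add_zero]
    have e2 : q * (f + h) = 0 := by rw [mul_add, hqf, hqh, add_zero]
    rw [e1, e2, hY, hV]; abel
  have heSq : (e + h) * S * q = e * T * q - a * c * (f * T * q) + h * z * q := by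
    rw [add_mul, add_mul, heS, hhS, sub_mul, mul_assoc _ (f + d) q, hfdq, mul_assoc (h * T), hfdq,
      key h q hhd' hdq, mul_assoc (a * c), mul_assoc (f * T), hfdq, sub_mul, add_mul, heq, hNq]
    abel
  have heSG : (e + h) * S * (f + h) = e * T * (f + h) - N - a * c * (f * T * (f + h))
      + (h * T * f + h * z * h) := by
    rw [add_mul, add_mul, heS, hhS, sub_mul, mul_assoc _ (f + d) (f + h), hfdG,
      mul_assoc (h * T), hfdG, mul_assoc (a * c), mul_assoc (f * T), hfdG, sub_mul,
      add_mul e N, hNG, mul_add (h * T), key h h hhd' hdh]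
    have e1 : e * (f + h) = 0 := by rw [mul_add, hef, heh, add_zero]
    rw [e1]; abel
  have hd1 : q + (f + h) = f + d := by rw [← hqsum]; abel
  have hd2 : q + (e + h) = e + d := by rw [← hqsum]; abel
  have hGp2 : (e + h) * (e + h) = e + h := by
    simp only [add_mul, mul_add, hee, heh, hhe, hhh, add_zero, zero_add]
  rw [← hd1, ← hd2]
  have hS1 : (e + d) * S = S := by
    have e1 : (e + d) * ((e + d) * X * (f + d)) = (e + d) * X * (f + d) := by
      rw [← mul_assoc, ← mul_assoc, hed2]
    have e2 : (e + d) * ((e + d) * X * e * c * (f * X * (f + d)))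
        = (e + d) * X * e * c * (f * X * (f + d)) := by
      calc (e + d) * ((e + d) * X * e * c * (f * X * (f + d)))
          = ((e + d) * (e + d)) * X * e * c * (f * X * (f + d)) := by simp only [mul_assoc]
        _ = _ := by rw [hed2]
    rw [hS, mul_sub, e1, e2]
  have hS2 : S * (f + d) = S := by
    have e1 : (e + d) * X * (f + d) * (f + d) = (e + d) * X * (f + d) := by
      rw [mul_assoc, hfd2]
    have e2 : (e + d) * X * e * c * (f * X * (f + d)) * (f + d)
        = (e + d) * X * e * c * (f * X * (f + d)) := by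
      rw [mul_assoc ((e + d) * X * e * c), mul_assoc (f * X), hfd2]
    rw [hS, sub_mul, e1, e2]
  refine schur (c := -r) hqq hfhI (by rw [mul_add, hqf, hqh, add_zero]) hGq
    hqq hGp2 (by rw [mul_add, hqe, hqh, add_zero]) (by rw [add_mul, heq, hhq, add_zero])
    (by rw [hd2, hS1]) (by rw [hd1, hS2]) (by rw [mul_neg, hr1]) (by rw [neg_mul, hr2])
    (by rw [hqSq, neg_mul_neg, hr3]) (by rw [hqSq, neg_mul_neg, hr4]) ?_
  have hfin : (e + h) * S * (f + h) - (e + h) * S * q * -r * (q * S * (f + h)) = α + R := by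
    rw [heSG, heSq, hqSG, mul_neg, neg_mul, sub_neg_eq_add]
    have e1 : (e * T * q - a * c * (f * T * q) + h * z * q) * r * Y
        = (e * T * q - a * c * (f * T * q)) * r * Y + h * z * q * r * Y := by
      rw [add_mul, add_mul]
    have e2 : h * z * q * r * Y = h * z * r * (q * z * h) + L • (h * z * W) := by
      have : h * z * q * r = h * z * r := by rw [mul_assoc, hr1]
      rw [this, hY, mul_add, mul_smul_comm]
      congr 2
      calc h * z * r * ((q + -(q * z * q)) * W) = h * z * ((r * (q + -(q * z * q))) * W) := by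
            simp only [mul_assoc]
        _ = h * z * W := by rw [hr3, hqW]
    have hα : α = F - N := by rw [hN]; abel
    rw [e1, e2, hα, hF, hR]; abel
  rw [hfin]
  exact hα3

end caseA3

end Pool.Agent.R456.CL
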