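import Pool.Agent.R456.CL.CaseA3

set_option autoImplicit false

namespace Pool.Agent.R456.CL

universe u

theorem caseA_ok : St_CaseA.{u} := by
  intro A _ hc hinf hsb g T e f hg hginf hgT hTg he hf heg hfg hef hge hgf hiso
  obtain ⟨hi1, hi2, c, hc1, hc2, hc3, hc4⟩ := hiso
  have hfe : f * e = 0 := orth_comm he hf hef
  have hee := PJ.mul_self he
  have hff := PJ.mul_self hf
  have hgg := PJ.mul_self hg
  have hge' : g * e = e := heg.rev he hg
  have hgf' : g * f = f := hfg.rev hf hg
  have hefp : PJ (e + f) := pj_add he hf hef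
  have hefg : Le (e + f) g := by
    show (e + f) * g = e + f
    rw [add_mul, heg, hfg]
  obtain ⟨d, hd⟩ : ∃ d, d = g - (e + f) := ⟨_, rfl⟩
  have hdp : PJ d := by rw [hd]; exact pj_sub hefp hg hefg
  have hed : e * d = 0 := by rw [hd, mul_sub, mul_add, heg, hee, hef]; abel
  have hfd : f * d = 0 := by rw [hd, mul_sub, mul_add, hfg, hff, hfe]; abel
  have hde : d * e = 0 := orth_comm he hdp hed
  have hdf : d * f = 0 := orth_comm hf hdp hfd
  have hdd := PJ.mul_self hdp
  have hgd : g * d = d := by rw [hd, mul_sub, mul_add, hgg, hge', hgf']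
  have hsum : e + (f + d) = g := by rw [hd]; abel
  obtain ⟨n, hn⟩ : ∃ n, n = d * T * e * c := ⟨_, rfl⟩
  have hgn : g * n = n := by rw [hn]; simp only [← mul_assoc, hgd]
  have hfg2 : f * g = f := hfg
  have hng : n * g = n := by rw [hn, ← hc2]; simp only [mul_assoc, hfg2]
  have hnn : n * n = 0 := by
    have : c * d = 0 := by rw [← hc2, mul_assoc, hfd, mul_zero]
    calc n * n = d * T * e * (c * d) * (T * e * c) := by rw [hn]; simp only [mul_assoc]
      _ = 0 := by rw [this]; simp
  have hfn : f * n = 0 := by rw [hn]; simp only [← mul_assoc, hfd, zero_mul]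
  have hne : n * e = 0 := by rw [hn, ← hc2]; simp only [mul_assoc, hfe, mul_zero]
  have hdn : d * n = n := by rw [hn]; simp only [← mul_assoc, hdd]
  have hcTe : c * T * e = e := by
    calc c * T * e = c * f * T * e := by rw [hc2]
      _ = c * (f * T * e) := by simp only [mul_assoc]
      _ = e := hc3
  refine clean_conj hg hgn hng hnn hgT hTg ?_
  obtain ⟨T', hT'⟩ : ∃ T', T' = (g - n) * T * (g + n) := ⟨_, rfl⟩
  rw [← hT']
  have h1 : T' * e = (g - n) * T * e := by
    rw [hT', mul_assoc, add_mul, hge', hne, add_zero]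
  have hfT : f * T' * e = f * T * e := by
    rw [mul_assoc, h1, ← mul_assoc, ← mul_assoc, mul_sub, hfg, hfn, sub_zero]
  have hdT : d * T' * e = 0 := by
    have hdg : d * g = d := by
      have := star_absorb_left (v := d) hg hgd
      rwa [PJ.star hdp] at this
    rw [mul_assoc, h1, ← mul_assoc, ← mul_assoc, mul_sub, hdg, hdn, sub_mul, sub_mul]
    have : n * T * e = d * T * e := by
      calc n * T * e = d * T * e * (c * T * e) := by rw [hn]; simp only [mul_assoc]
        _ = d * T * e := by rw [hcTe, mul_assoc, hee]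
    rw [this, sub_self]
  have hgT' : g * T' = T' := by
    rw [hT', ← mul_assoc, ← mul_assoc, mul_sub, hgg, hgn]
  have hTg' : T' * g = T' := by
    rw [hT', mul_assoc, add_mul, hgg, hng]
  exact caseA_core hc hinf hsb hg hginf hgT' hTg' he hf hdp hsum hef hed hfd hge hgf hc1 hc2
    (by rw [hfT]; exact hc3) (by rw [hfT]; exact hc4) hdT

end Pool.Agent.R456.CL
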