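import Pool.Agent.R456.CL.Base2

set_option autoImplicit false

namespace Pool.Agent.R456.CL

universe u

section caseB

variable {A : Type u} [CStarAlgebra A]

lemma sub_orth {k g : A} (hk : PJ k) (hg : PJ g) (h : Le k g) :
    k * (g - k) = 0 ∧ (g - k) * k = 0 := by
  constructor
  · rw [mul_sub, h, PJ.mul_self hk, sub_self]
  · rw [sub_mul, h.rev hk hg, PJ.mul_self hk, sub_self]

/-- cleaning block by block. -/
lemma clean_blocks {g k T p c : A} (hg : PJ g) (hk : PJ k) (hkg : Le k g) (hT1 : g * T = T)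
    (hT2 : T * g = T) (hp1 : (g - k) * p = p) (hp2 : p * (g - k) = p) (hp3 : p * p = p)
    (hc1 : (g - k) * c = c) (hc2 : c * (g - k) = c)
    (hc3 : c * ((g - k) * T * (g - k) - p) = g - k)
    (hc4 : ((g - k) * T * (g - k) - p) * c = g - k)
    (hcl : ∀ T' : A, k * T' = T' → T' * k = T' → CleanIn k T') : CleanIn g T := by
  set h : A := g - k with hh
  have hph : PJ h := pj_sub hk hg hkg
  have hhh := PJ.mul_self hph
  have hkk := PJ.mul_self hk
  obtain ⟨hkh, hhk⟩ : k * h = 0 ∧ h * k = 0 := sub_orth hk hg hkg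
  have hgsum : h + k = g := by rw [hh]; abel
  clear_value h
  have hk1 : k * g = k := hkg
  have hk2 : g * k = k := hkg.rev hk hg
  set T' : A := k * T * k - k * T * h * c * (h * T * k) with hT'
  obtain ⟨P, hP1, hP2, hP3, hP4⟩ := hcl T' (by
      rw [hT', mul_sub]; simp only [← mul_assoc, hkk]) (by
      rw [hT', sub_mul]; simp only [mul_assoc, hkk])
  have hgh : g * h = h := by rw [hh, mul_sub, PJ.mul_self hg, hk2]
  have hhg : h * g = h := by rw [hh, sub_mul, PJ.mul_self hg, hk1]
  have hgp : g * p = p := by rw [← hp1, ← mul_assoc, hgh]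
  have hpg : p * g = p := by rw [← hp2, mul_assoc, hhg]
  have hgP : g * P = P := by rw [← hP1, ← mul_assoc, hk2]
  have hPg : P * g = P := by rw [← hP2, mul_assoc, hk1]
  have hpk : p * k = 0 := by rw [← hp2, mul_assoc, hhk, mul_zero]
  have hkp : k * p = 0 := by rw [← hp1, ← mul_assoc, hkh, zero_mul]
  have hPh : P * h = 0 := by rw [← hP2, mul_assoc, hkh, mul_zero]
  have hhP : h * P = 0 := by rw [← hP1, ← mul_assoc, hhk, zero_mul]
  have hpP : p * P = 0 := by rw [← hp2, mul_assoc, hhP, mul_zero]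
  have hPp : P * p = 0 := by rw [← hP2, mul_assoc, hkp, mul_zero]
  refine ⟨p + P, by rw [mul_add, hgp, hgP], by rw [add_mul, hpg, hPg], ?_, ?_⟩
  · rw [mul_add, add_mul, add_mul, hp3, hP3, hpP, hPp, add_zero, zero_add]
  · rw [← hgsum]
    have e11 : h * (T - (p + P)) * h = h * T * h - p := by
      rw [mul_sub, mul_add, hp1, hhP, add_zero, sub_mul, hp2]
    have e12 : h * (T - (p + P)) * k = h * T * k := by
      rw [mul_sub, mul_add, hp1, hhP, add_zero, sub_mul, hpk, sub_zero]
    have e21 : k * (T - (p + P)) * h = k * T * h := by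
      rw [mul_sub, mul_add, hkp, hP1, zero_add, sub_mul, hPh, sub_zero]
    have e22 : k * (T - (p + P)) * k = k * T * k - P := by
      rw [mul_sub, mul_add, hkp, hP1, zero_add, sub_mul, hP2]
    refine schur (c := c) hhh hkk hhk hkh hhh hkk hhk hkh ?_ ?_ hc1 hc2 ?_ ?_ ?_
    · rw [hgsum, mul_sub, mul_add, hT1, hgp, hgP]
    · rw [hgsum, sub_mul, add_mul, hT2, hpg, hPg]
    · rw [e11]; exact hc3
    · rw [e11]; exact hc4
    · rw [e22, e21, e12]
      have : k * T * k - P - k * T * h * c * (h * T * k) = T' - P := by rw [hT']; abel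
      rw [this]; exact hP4

end caseB

theorem caseB_ok : St_CaseB.{u} := by
  intro A _ g T k c hg hT1 hT2 hk hkg hn hcl
  set h : A := g - k with hh
  have hph : PJ h := pj_sub hk hg hkg
  have hhh := PJ.mul_self hph
  have hgh : g * h = h := by
    rw [hh, mul_sub, PJ.mul_self hg, hkg.rev hk hg]
  clear_value h

  set d : A := h * (T - c • g) * h with hd
  clear_value d
  have hd' : h * T * h = c • h + d := by
    rw [hd, mul_sub, sub_mul, mul_smul_comm, smul_mul_assoc, mul_assoc h g h, hgh, hhh]; abel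
  have hd1 : h * d = d := by rw [hd]; simp only [← mul_assoc, hhh]
  have hd2 : d * h = d := by rw [hd]; simp only [mul_assoc, hhh]
  by_cases hc : 1 / 2 ≤ ‖c‖
  · -- p = 0
    have hI : Iso h h (c • h + d) := iso_scalar hph hd1 hd2 (by linarith)
    obtain ⟨_, _, y, hy1, hy2, hy3, hy4⟩ := hI
    refine clean_blocks (p := 0) (c := y) hg hk hkg hT1 hT2 (by simp) (by simp) (by simp)
      (by rw [← hh]; exact hy1) (by rw [← hh]; exact hy2)
      ?_ ?_ hcl
    · rw [← hh, hd', sub_zero]; exact hy3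
    · rw [← hh, hd', sub_zero]; exact hy4
  · -- p = h
    have h1 : (1 : ℝ) / 4 < ‖c - 1‖ := by
      have : ‖(1 : ℂ)‖ ≤ ‖c‖ + ‖c - 1‖ := by
        calc ‖(1 : ℂ)‖ = ‖c - (c - 1)‖ := by congr 1; ring
          _ ≤ _ := norm_sub_le _ _
      rw [norm_one] at this
      linarith
    have hI : Iso h h ((c - 1) • h + d) := iso_scalar hph hd1 hd2 (by linarith)
    obtain ⟨_, _, y, hy1, hy2, hy3, hy4⟩ := hI
    have e : c • h + d - h = (c - 1) • h + d := by rw [sub_smul, one_smul]; abel
    refine clean_blocks (p := h) (c := y) hg hk hkg hT1 hT2 (by rw [← hh]; exact hhh)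
      (by rw [← hh]; exact hhh) hhh (by rw [← hh]; exact hy1) (by rw [← hh]; exact hy2)
      ?_ ?_ hcl
    · rw [← hh, hd', e]; exact hy3
    · rw [← hh, hd', e]; exact hy4

end Pool.Agent.R456.CL
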