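import Pool.Agent.R456.CL.Stm

/-!
# Project CL, module CmpO: comparability of orthogonal projections (by helper33)
-/

set_option autoImplicit false

namespace Pool.Agent.R456.CL.CmpO

open Pool.Agent.R456.CL

universe u

variable {A : Type u} [CStarAlgebra A]

/-- `star v * v` projection implies `v * (star v * v) = v`. -/
theorem mul_init {v : A} (h : IsStarProjection (star v * v)) : v * (star v * v) = v := by
  have hid : (star v * v) * (star v * v) = star v * v := h.isIdempotentElem
  have h0 : star (v * (star v * v) - v) * (v * (star v * v) - v) = 0 := by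
    simp only [star_sub, star_mul, star_star]
    have e1 : (star v * v * star v - star v) * (v * (star v * v) - v)
        = (star v * v) * (star v * v) * (star v * v) - (star v * v) * (star v * v)
          - (star v * v) * (star v * v) + star v * v := by noncomm_ring
    rw [e1, hid, hid]; simp
  have := (CStarRing.star_mul_self_eq_zero_iff _).1 h0
  exact sub_eq_zero.1 this

theorem final_proj {v : A} (h : IsStarProjection (star v * v)) :
    IsStarProjection (v * star v) := by
  refine ⟨?_, ?_⟩
  · show (v * star v) * (v * star v) = v * star v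
    calc (v * star v) * (v * star v) = (v * (star v * v)) * star v := by noncomm_ring
      _ = v * star v := by rw [mul_init h]
  · show star (v * star v) = v * star v
    simp

/-- the admissible sets of partial isometries. -/
def Good (e f : A) (W : Set A) : Prop :=
  (∀ w ∈ W, w ≠ 0 ∧ IsStarProjection (star w * w) ∧ (star w * w) * e = star w * w ∧
    (w * star w) * f = w * star w) ∧
  ∀ w ∈ W, ∀ w' ∈ W, w ≠ w' → (star w * w) * (star w' * w') = 0 ∧
    (w * star w) * (w' * star w') = 0

theorem good_chain (e f : A) (c : Set (Set A)) (hc : c ⊆ {W | Good e f W})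
    (hch : IsChain (· ⊆ ·) c) : Good e f (⋃₀ c) := by
  refine ⟨?_, ?_⟩
  · rintro w ⟨W, hW, hw⟩
    exact (hc hW).1 w hw
  · rintro w ⟨W, hW, hw⟩ w' ⟨W', hW', hw'⟩ hne
    rcases hch.total hW hW' with h | h
    · exact (hc hW').2 w (h hw) w' hw' hne
    · exact (hc hW).2 w hw w' (h hw') hne

theorem exists_max (e f : A) : ∃ W : Set A, Maximal (Good e f) W := by
  obtain ⟨W, hW⟩ := zorn_subset {W | Good e f W} (fun c hc hch =>
    ⟨⋃₀ c, good_chain e f c hc hch, fun s hs => Set.subset_sUnion_of_mem hs⟩)
  exact ⟨W, hW⟩

theorem star_eq_of {p q : A} (hp : IsStarProjection p) (hq : IsStarProjection q)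
    (h : p * q = p) : q * p = p := by
  have := congrArg star h
  rwa [star_mul, hp.isSelfAdjoint.star_eq, hq.isSelfAdjoint.star_eq] at this

theorem sub_proj {p q : A} (hp : IsStarProjection p) (hq : IsStarProjection q)
    (h : p * q = p) : IsStarProjection (q - p) := by
  have h' := star_eq_of hp hq h
  refine ⟨?_, ?_⟩
  · show (q - p) * (q - p) = q - p
    have e1 : (q - p) * (q - p) = q * q - q * p - p * q + p * p := by noncomm_ring
    rw [e1, h, h', show q * q = q from hq.isIdempotentElem,
      show p * p = p from hp.isIdempotentElem]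
    abel
  · show star (q - p) = q - p
    rw [star_sub, hp.isSelfAdjoint.star_eq, hq.isSelfAdjoint.star_eq]

theorem cmpO_ok : St_CmpO.{u} := by
  intro A _ hCut hSup hFac hAdd e f he hf hef
  have hfe : f * e = 0 := by
    have := congrArg star hef
    rwa [star_mul, he.isSelfAdjoint.star_eq, hf.isSelfAdjoint.star_eq, star_zero] at this
  obtain ⟨W, hW⟩ := exists_max e f
  have hG := hW.1
  -- the two suprema
  have hinj : ∀ i j : W, i ≠ j → (i : A) ≠ (j : A) := fun i j h h' => h (Subtype.ext h')
  have hPi : ∀ i : W, IsStarProjection (star (i : A) * (i : A)) := fun i => (hG.1 i i.2).2.1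
  have hPf : ∀ i : W, IsStarProjection ((i : A) * star (i : A)) := fun i => final_proj (hPi i)
  obtain ⟨E, hE⟩ := hSup W (fun i => star (i : A) * (i : A)) hPi
    (fun i j h => (hG.2 i i.2 j j.2 (hinj i j h)).1)
  obtain ⟨F, hF⟩ := hSup W (fun i => (i : A) * star (i : A)) hPf
    (fun i j h => (hG.2 i i.2 j j.2 (hinj i j h)).2)
  have hEP : IsStarProjection E := hE.1
  have hFP : IsStarProjection F := hF.1
  -- E ≤ e, F ≤ f
  have heE : e * E = E := by
    have h1 : (1 - e) * E = 0 := by
      apply hE.2.2
      intro i
      have h2 : e * (star (i : A) * (i : A)) = star (i : A) * (i : A) :=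
        star_eq_of (hPi i) he (hG.1 i i.2).2.2.1
      rw [sub_mul, one_mul, h2, sub_self]
    rw [sub_mul, one_mul, sub_eq_zero] at h1
    exact h1.symm
  have hfF : f * F = F := by
    have h1 : (1 - f) * F = 0 := by
      apply hF.2.2
      intro i
      have h2 : f * ((i : A) * star (i : A)) = (i : A) * star (i : A) :=
        star_eq_of (hPf i) hf (hG.1 i i.2).2.2.2
      rw [sub_mul, one_mul, h2, sub_self]
    rw [sub_mul, one_mul, sub_eq_zero] at h1
    exact h1.symm
  have hEe : E * e = E := by
    have := congrArg star heE
    rwa [star_mul, he.isSelfAdjoint.star_eq, hEP.isSelfAdjoint.star_eq] at this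
  have hFf : F * f = F := by
    have := congrArg star hfF
    rwa [star_mul, hf.isSelfAdjoint.star_eq, hFP.isSelfAdjoint.star_eq] at this
  have hEF : E * F = 0 := by
    rw [← hEe, ← hfF, mul_assoc, ← mul_assoc e f F, hef, zero_mul, mul_zero]
  obtain ⟨v, hv1, hv2, -⟩ := hAdd W (fun i => (i : A)) E F hPi
    (fun i j h => (hG.2 i i.2 j j.2 (hinj i j h)).1)
    (fun i j h => (hG.2 i i.2 j j.2 (hinj i j h)).2) hE hF hEF
  have hPfF : IsStarProjection (f - F) := sub_proj hFP hf hFf
  have hPeE : IsStarProjection (e - E) := sub_proj hEP he hEe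
  by_cases hx : ∀ x : A, (f - F) * x * (e - E) = 0
  · rcases hFac (f - F) (e - E) hPfF hPeE hx with h | h
    · right
      have hfeq : f = F := sub_eq_zero.1 h
      refine ⟨star v, ?_, ?_⟩
      · rw [star_star, hv2, hfeq]
      · rw [star_star, hv1, hEe]
    · left
      have heeq : e = E := sub_eq_zero.1 h
      refine ⟨v, ?_, ?_⟩
      · rw [hv1, ← heeq]
      · rw [hv2, hFf]
  · exfalso
    push Not at hx
    obtain ⟨x, hx⟩ := hx
    set y := (f - F) * x * (e - E) with hy
    have hye : y * (e - E) = y := by
      rw [hy, mul_assoc, hPeE.isIdempotentElem]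
    have hfy : (f - F) * y = y := by
      rw [hy, ← mul_assoc, ← mul_assoc, hPfF.isIdempotentElem]
    have hypos : 0 < ‖y‖ := norm_pos_iff.2 hx
    obtain ⟨k, s, hk, hks, hsk, hss, hcomm, hssy, hyss, hsys, hnorm⟩ :=
      hCut y (‖y‖ / 2) (by linarith)
    have hk0 : k ≠ 0 := by
      intro h
      rw [h, sub_zero, mul_one] at hnorm
      linarith
    have hkeE : k * (e - E) = k := by
      calc k * (e - E) = s * s * (star y * (y * (e - E))) := by rw [← hssy]; noncomm_ring
        _ = k := by rw [hye, hssy]
    have hke : k * e = k := by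
      have h1 : (e - E) * e = e - E := by
        rw [sub_mul, hEe, show e * e = e from he.isIdempotentElem]
      rw [← hkeE, mul_assoc, h1]
    have hkE : k * E = 0 := by
      have h1 : (e - E) * E = 0 := by
        rw [sub_mul, heE, show E * E = E from hEP.isIdempotentElem, sub_self]
      rw [← hkeE, mul_assoc, h1, mul_zero]
    -- the new element
    set w := y * s with hw
    have hww : star w * w = k := by
      rw [hw, star_mul, hss, ← hsys]
      noncomm_ring
    have hwP : IsStarProjection (star w * w) := by rw [hww]; exact hk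
    have hwF : (f - F) * w = w := by rw [hw, ← mul_assoc, hfy]
    have hwwf : (w * star w) * (f - F) = w * star w := by
      have h1 : star w * (f - F) = star w := by
        have := congrArg star hwF
        rwa [star_mul, hPfF.isSelfAdjoint.star_eq] at this
      rw [mul_assoc, h1]
    have hwf : (w * star w) * f = w * star w := by
      have h1 : (f - F) * f = f - F := by
        rw [sub_mul, hFf, show f * f = f from hf.isIdempotentElem]
      rw [← hwwf, mul_assoc, h1]
    have hwF0 : (w * star w) * F = 0 := by
      have h1 : (f - F) * F = 0 := by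
        rw [sub_mul, hfF, show F * F = F from hFP.isIdempotentElem, sub_self]
      rw [← hwwf, mul_assoc, h1, mul_zero]
    have hw0 : w ≠ 0 := by
      intro h
      apply hk0
      rw [← hww, h, mul_zero]
    -- orthogonality with the members
    have ho1 : ∀ i ∈ W, (star w * w) * (star i * i) = 0 := by
      intro i hi
      have h1 : E * (star i * i) = star i * i :=
        star_eq_of (hPi ⟨i, hi⟩) hEP (hE.2.1 ⟨i, hi⟩)
      rw [hww, ← h1, ← mul_assoc, hkE, zero_mul]
    have ho2 : ∀ i ∈ W, (w * star w) * (i * star i) = 0 := by
      intro i hi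
      have h1 : F * (i * star i) = i * star i :=
        star_eq_of (hPf ⟨i, hi⟩) hFP (hF.2.1 ⟨i, hi⟩)
      rw [← h1, ← mul_assoc, hwF0, zero_mul]
    have ho1' : ∀ i ∈ W, (star i * i) * (star w * w) = 0 := by
      intro i hi
      have := congrArg star (ho1 i hi)
      simpa [mul_assoc] using this
    have ho2' : ∀ i ∈ W, (i * star i) * (w * star w) = 0 := by
      intro i hi
      have := congrArg star (ho2 i hi)
      simpa [mul_assoc] using this
    have hwW : w ∉ W := by
      intro h
      have h1 := ho1 w h
      rw [hww, show k * k = k from hk.isIdempotentElem] at h1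
      exact hk0 h1
    have hgood : Good e f (insert w W) := by
      refine ⟨?_, ?_⟩
      · rintro a (rfl | ha)
        · exact ⟨hw0, hwP, by rw [hww, hke], hwf⟩
        · exact hG.1 a ha
      · rintro a ha b hb hne
        rcases ha with rfl | ha <;> rcases hb with rfl | hb
        · exact absurd rfl hne
        · exact ⟨ho1 b hb, ho2 b hb⟩
        · exact ⟨ho1' a ha, ho2' a ha⟩
        · exact hG.2 a ha b hb hne
    have := hW.2 hgood (Set.subset_insert w W)
    exact hwW (this (Set.mem_insert w W))

end Pool.Agent.R456.CL.CmpO
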