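import Mathlib

/-!
# Project CL: every infinite AW*-factor is a clean ring (MP_3fc7b1_an, Q1)

Definitions, and the exact statements of the modules.
-/

set_option autoImplicit false

namespace Pool.Agent.R456.CL

universe u

section defs

variable {A : Type u} [CStarAlgebra A]

/-- `p` is a projection (self-adjoint idempotent). -/
abbrev PJ (p : A) : Prop := IsStarProjection p

/-- `p ≤ q` for projections. -/
def Le (p q : A) : Prop := p * q = p

/-- Murray-von Neumann equivalence. -/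
def Eqv (p q : A) : Prop := ∃ v : A, star v * v = p ∧ v * star v = q

/-- `p` is equivalent to a subprojection of `q`. -/
def Sub (p q : A) : Prop := ∃ v : A, star v * v = p ∧ (v * star v) * q = v * star v

/-- `g` is infinite: equivalent to a proper subprojection. -/
def Infin (g : A) : Prop :=
  ∃ v : A, star v * v = g ∧ (v * star v) * g = v * star v ∧ v * star v ≠ g

/-- `E` is the supremum of the family `e`, in the strong (annihilator) sense. -/
def IsSup {ι : Type*} (e : ι → A) (E : A) : Prop :=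
  PJ E ∧ (∀ i, e i * E = e i) ∧ ∀ x : A, (∀ i, x * e i = 0) → x * E = 0

/-- `x` is an invertible element from `e` to `f`. -/
def Iso (e f x : A) : Prop :=
  f * x = x ∧ x * e = x ∧ ∃ y : A, e * y = y ∧ y * f = y ∧ y * x = e ∧ x * y = f

/-- `T` is clean in the corner `g A g`. -/
def CleanIn (g T : A) : Prop :=
  ∃ P : A, g * P = P ∧ P * g = P ∧ P * P = P ∧ Iso g g (T - P)

end defs

/-- Kaplansky's definition of an AW*-algebra (for unital C*-algebras): orthogonal families of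
projections have a least upper bound in the poset of projections, and every maximal commutative
self-adjoint subalgebra is generated by its projections. -/
structure IsAWStar (A : Type u) [CStarAlgebra A] : Prop where
  lub : ∀ S : Set A, (∀ p ∈ S, IsStarProjection p) → (∀ p ∈ S, ∀ q ∈ S, p ≠ q → p * q = 0) →
    ∃ e : A, IsStarProjection e ∧ (∀ p ∈ S, p * e = p) ∧
      ∀ f : A, IsStarProjection f → (∀ p ∈ S, p * f = p) → e * f = e
  masa : ∀ M : StarSubalgebra ℂ A, (∀ x ∈ M, ∀ y ∈ M, x * y = y * x) →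
    (∀ N : StarSubalgebra ℂ A, (∀ x ∈ N, ∀ y ∈ N, x * y = y * x) → M ≤ N → N = M) →
    ∀ x ∈ M, x ∈ closure
      ((StarAlgebra.adjoin ℂ {p : A | IsStarProjection p ∧ p ∈ M} : StarSubalgebra ℂ A) : Set A)

/-- The center consists of the scalars. -/
def IsFactor (A : Type u) [CStarAlgebra A] : Prop :=
  ∀ z : A, (∀ x : A, z * x = x * z) → ∃ c : ℂ, z = c • (1 : A)

/-- The unit is an infinite projection: it is equivalent to a projection different from it. -/
def IsInfiniteAlg (A : Type u) [CStarAlgebra A] : Prop :=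
  ∃ v : A, star v * v = 1 ∧ v * star v ≠ 1

section statements

variable (A : Type u) [CStarAlgebra A]

/-! ### Properties of `A` used by the modules -/

/-- spectral approximation of a self-adjoint element of `g A g`. -/
def PSa : Prop := ∀ g a : A, PJ g → star a = a → a * g = a → ∀ δ : ℝ, 0 < δ →
  ∃ (ι : Type) (_ : Fintype ι) (p : ι → A) (l : ι → ℝ), (∀ i, PJ (p i)) ∧
    (∀ i j, i ≠ j → p i * p j = 0) ∧ (∑ i, p i = g) ∧ (∀ i, p i * a = a * p i) ∧
    ‖a - ∑ i, (l i : ℂ) • p i‖ ≤ δ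

/-- spectral cut. -/
def PCut : Prop := ∀ x : A, ∀ ε : ℝ, 0 < ε → ∃ k s : A, PJ k ∧ k * s = s ∧ s * k = s ∧
  star s = s ∧ k * (star x * x) = (star x * x) * k ∧ s * s * (star x * x) = k ∧
  (star x * x) * (s * s) = k ∧ s * (star x * x) * s = k ∧ ‖x * (1 - k)‖ ≤ ε

/-- suprema of orthogonal families. -/
def PSupO : Prop := ∀ (ι : Type u) (e : ι → A), (∀ i, PJ (e i)) →
  (∀ i j, i ≠ j → e i * e j = 0) → ∃ E : A, IsSup e E

/-- suprema of arbitrary families of projections. -/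
def PSup : Prop := ∀ (ι : Type u) (e : ι → A), (∀ i, PJ (e i)) → ∃ E : A, IsSup e E

/-- factor property. -/
def PFac : Prop := ∀ e f : A, PJ e → PJ f → (∀ x : A, e * x * f = 0) → e = 0 ∨ f = 0

/-- orthogonal additivity. -/
def PAddO : Prop := ∀ (ι : Type u) (w : ι → A) (E F : A),
  (∀ i, PJ (star (w i) * w i)) →
  (∀ i j, i ≠ j → (star (w i) * w i) * (star (w j) * w j) = 0) →
  (∀ i j, i ≠ j → (w i * star (w i)) * (w j * star (w j)) = 0) →
  IsSup (fun i => star (w i) * w i) E → IsSup (fun i => w i * star (w i)) F →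
  E * F = 0 → ∃ v : A, star v * v = E ∧ v * star v = F ∧ ∀ i, v * (star (w i) * w i) = w i

/-- comparability of orthogonal projections. -/
def PCmpO : Prop := ∀ e f : A, PJ e → PJ f → e * f = 0 → Sub e f ∨ Sub f e

/-- infinite projections are properly infinite. -/
def PInf : Prop := ∀ g : A, PJ g → Infin g →
  ∃ g1 g2 : A, PJ g1 ∧ PJ g2 ∧ g1 * g2 = 0 ∧ Le g1 g ∧ Le g2 g ∧ Eqv g g1 ∧ Eqv g g2

/-- general additivity (sub-equivalence form), with control of the pieces. -/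
def PAdd : Prop := ∀ (ι : Type u) (w : ι → A) (E F : A),
  (∀ i, PJ (star (w i) * w i)) →
  (∀ i j, i ≠ j → (star (w i) * w i) * (star (w j) * w j) = 0) →
  (∀ i j, i ≠ j → (w i * star (w i)) * (w j * star (w j)) = 0) →
  IsSup (fun i => star (w i) * w i) E → IsSup (fun i => w i * star (w i)) F →
  ∃ v : A, star v * v = E ∧ v * star v = F ∧ ∀ i, v * (star (w i) * w i) = w i

/-- comparability. -/
def PCmp : Prop := ∀ e f : A, PJ e → PJ f → Sub e f ∨ Sub f e

/-- polar decomposition (left and right projections are equivalent). -/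
def PLR : Prop := ∀ x : A, ∃ w r l : A, PJ r ∧ PJ l ∧ star w * w = r ∧ w * star w = l ∧
  x * r = x ∧ l * x = x ∧ (∀ y : A, x * y = 0 → r * y = 0) ∧ (∀ y : A, y * x = 0 → y * l = 0)

/-- Schroeder-Bernstein. -/
def PSB : Prop := ∀ e f : A, PJ e → PJ f → Sub e f → Sub f e → Eqv e f

/-- a properly infinite projection below `q + r` is below `q` or below `r`. -/
def PDich : Prop := ∀ g q r : A, PJ g → PJ q → PJ r → Infin g → q * r = 0 → Sub g (q + r) →
  Sub g q ∨ Sub g r

/-- small projections have a small join. -/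
def PJoin : Prop := ∀ g s t : A, PJ g → PJ s → PJ t → Infin g → Le s g → Le t g →
  ¬ Sub g s → ¬ Sub g t → ∃ c : A, PJ c ∧ Le c g ∧ Le s c ∧ Le t c ∧ ¬ Sub g c

/-- the main dichotomy. -/
def PMain : Prop := ∀ g T : A, PJ g → Infin g → g * T = T → T * g = T →
  (∃ e f : A, PJ e ∧ PJ f ∧ Le e g ∧ Le f g ∧ e * f = 0 ∧ Eqv g e ∧ Eqv g f ∧
      Iso e f (f * T * e)) ∨
  (∃ (k : A) (c : ℂ), PJ k ∧ Le k g ∧ ¬ Sub g k ∧
      ‖(g - k) * (T - c • g) * (g - k)‖ ≤ 1 / 4)

/-- case (A) of the dichotomy gives a clean decomposition. -/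
def PCaseA : Prop := ∀ g T e f : A, PJ g → Infin g → g * T = T → T * g = T →
  PJ e → PJ f → Le e g → Le f g → e * f = 0 → Eqv g e → Eqv g f → Iso e f (f * T * e) →
  CleanIn g T

/-- case (B) of the dichotomy reduces to a smaller corner. -/
def PCaseB : Prop := ∀ (g T k : A) (c : ℂ), PJ g → g * T = T → T * g = T → PJ k → Le k g →
  ‖(g - k) * (T - c • g) * (g - k)‖ ≤ 1 / 4 →
  (∀ T' : A, k * T' = T' → T' * k = T' → CleanIn k T') → CleanIn g T

/-- finite projections. -/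
def PFin : Prop := ∀ g T : A, PJ g → ¬ Infin g → g * T = T → T * g = T → CleanIn g T

/-- no infinite strictly descending sequence of infinite projections. -/
def PWF : Prop := ¬ ∃ g : ℕ → A, (∀ n, PJ (g n)) ∧ (∀ n, Infin (g n)) ∧
  (∀ n, Le (g (n + 1)) (g n)) ∧ ∀ n, ¬ Sub (g n) (g (n + 1))

/-! ### Intermediate statements (splitting of Inf, Main, WF) -/

/-- Inf, step 1. -/
def PInf1 : Prop := ∀ g : A, PJ g → Infin g →
  ∃ (ι : Type u) (q : ι → A) (E : A), Infinite ι ∧ (∀ i, PJ (q i)) ∧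
    (∀ i j, i ≠ j → q i * q j = 0) ∧ (∀ i, Le (q i) g) ∧ (∀ i j, Eqv (q i) (q j)) ∧
    IsSup q E ∧ ∀ i, Sub (g - E) (q i)

/-- Main, step 1. `small` projections control the off-diagonal corners. -/
def PMain1 : Prop := ∀ g T : A, PJ g → Infin g → g * T = T → T * g = T →
  (¬ ∃ e f : A, PJ e ∧ PJ f ∧ Le e g ∧ Le f g ∧ e * f = 0 ∧ Eqv g e ∧ Eqv g f ∧
      Iso e f (f * T * e)) →
  ∀ e : A, PJ e → Le e g → ∀ ε : ℝ, 0 < ε → ∃ c : A, PJ c ∧ Le c g ∧ ¬ Sub g c ∧
    ‖(g - e) * T * e * (g - c)‖ ≤ ε ∧ ‖(g - e) * star T * e * (g - c)‖ ≤ ε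

/-- Main, step 3. -/
def PMain3 : Prop := ∀ g a : A, PJ g → Infin g → star a = a → a * g = a →
  (∀ e : A, PJ e → Le e g → ∀ ε : ℝ, 0 < ε → ∃ c : A, PJ c ∧ Le c g ∧ ¬ Sub g c ∧
    ‖(g - e) * a * e * (g - c)‖ ≤ ε) →
  ∃ (s : A) (c : ℝ), PJ s ∧ Le s g ∧ ¬ Sub g s ∧ ‖(a - (c : ℂ) • g) * (g - s)‖ ≤ 1 / 32

/-- WF, step 1: a maximal family of copies of `g'` in `g`. -/
def PW1 : Prop := ∀ g g' : A, PJ g → PJ g' → Infin g' → Le g' g → ¬ Sub g g' →
  ∃ (ι : Type u) (q : ι → A) (E : A), Infinite ι ∧ (∀ i, PJ (q i)) ∧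
    (∀ i j, i ≠ j → q i * q j = 0) ∧ (∀ i, Le (q i) g) ∧ (∀ i, Eqv g' (q i)) ∧
    IsSup q E ∧ Sub (g - E) g'

/-- WF, step 2: comparison of the cardinals of two families. -/
def PW2 : Prop := ∀ (g g' g'' : A) (ι κ : Type u) (q : ι → A) (E : A) (q' : κ → A) (E' : A),
  PJ g → PJ g' → PJ g'' → Infinite ι → Infinite κ →
  (∀ i, PJ (q i)) → (∀ i j, i ≠ j → q i * q j = 0) → (∀ i, Le (q i) g) →
  (∀ i, Eqv g' (q i)) → IsSup q E → Sub (g - E) g' →
  (∀ i, PJ (q' i)) → (∀ i j, i ≠ j → q' i * q' j = 0) → (∀ i, Le (q' i) g') →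
  (∀ i, Eqv g'' (q' i)) → IsSup q' E' → Sub (g' - E') g'' →
  Cardinal.mk ι ≤ Cardinal.mk κ → Sub g g'

end statements

end Pool.Agent.R456.CL
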