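import Pool.Agent.R456.CL.Stm

/-!
# Project CL, module Dich and Join (helper165)
-/

set_option autoImplicit false

namespace Pool.Agent.R456.CL.Dich

open Pool.Agent.R456.CL

universe u

section base

variable {A : Type u} [CStarAlgebra A]

lemma idm {p : A} (h : PJ p) : p * p = p := h.isIdempotentElem

lemma sa {p : A} (h : PJ p) : star p = p := h.isSelfAdjoint

lemma mkPJ {p : A} (h1 : p * p = p) (h2 : star p = p) : PJ p := ⟨h1, h2⟩

lemma le_symm {p q : A} (hp : PJ p) (hq : PJ q) (h : p * q = p) : q * p = p := by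
  have := congrArg star h
  rwa [star_mul, sa hp, sa hq] at this

lemma le_symm' {p q : A} (hp : PJ p) (hq : PJ q) (h : q * p = p) : p * q = p := by
  have := congrArg star h
  rwa [star_mul, sa hp, sa hq] at this

lemma orth_symm {p q : A} (hp : PJ p) (hq : PJ q) (h : p * q = 0) : q * p = 0 := by
  have := congrArg star h
  rwa [star_mul, sa hp, sa hq, star_zero] at this

lemma init {v p : A} (hp : PJ p) (h : star v * v = p) : v * p = v := by
  have h0 : star (v - v * p) * (v - v * p) = 0 := by
    rw [star_sub, star_mul, sa hp]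
    have e1 : (star v - p * star v) * (v - v * p)
        = star v * v - star v * v * p - p * (star v * v) + p * (star v * v) * p := by noncomm_ring
    rw [e1, h, idm hp, idm hp]
    noncomm_ring
  have := (CStarRing.star_mul_self_eq_zero_iff _).1 h0
  exact (sub_eq_zero.1 this).symm

/-- `Sub p q` in partial isometry form. -/
lemma sub_iff {p q : A} (hp : PJ p) (hq : PJ q) :
    Sub p q ↔ ∃ v : A, star v * v = p ∧ q * v = v := by
  constructor
  · rintro ⟨v, h1, h2⟩
    refine ⟨v, h1, ?_⟩
    have h3 : q * (v * star v) = v * star v := by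
      have := congrArg star h2
      rwa [star_mul, star_mul, star_star, sa hq] at this
    have h4 : v * p = v := init hp h1
    calc q * v = q * (v * star v) * v := by
          rw [mul_assoc, mul_assoc, h1, h4]
      _ = v * star v * v := by rw [h3]
      _ = v := by rw [mul_assoc, h1, h4]
  · rintro ⟨v, h1, h2⟩
    refine ⟨v, h1, ?_⟩
    have h3 : star v * q = star v := by
      have := congrArg star h2
      rwa [star_mul, sa hq] at this
    rw [mul_assoc, h3]

lemma sub_trans {p q r : A} (hp : PJ p) (hq : PJ q) (hr : PJ r) (h1 : Sub p q) (h2 : Sub q r) :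
    Sub p r := by
  rw [sub_iff hp hq] at h1
  rw [sub_iff hq hr] at h2
  rw [sub_iff hp hr]
  obtain ⟨v, a1, a2⟩ := h1
  obtain ⟨w, b1, b2⟩ := h2
  refine ⟨w * v, ?_, ?_⟩
  · rw [star_mul]
    calc star v * star w * (w * v) = star v * (star w * w * v) := by noncomm_ring
      _ = p := by rw [b1, a2, a1]
  · rw [← mul_assoc, b2]

lemma sub_of_le {p q : A} (hp : PJ p) (hq : PJ q) (h : p * q = p) : Sub p q := by
  rw [sub_iff hp hq]
  exact ⟨p, by rw [sa hp, idm hp], le_symm hp hq h⟩

lemma pj_add {p q : A} (hp : PJ p) (hq : PJ q) (h : p * q = 0) : PJ (p + q) := by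
  refine mkPJ ?_ ?_
  · rw [mul_add, add_mul, add_mul, idm hp, idm hq, h, orth_symm hp hq h]
    simp
  · rw [star_add, sa hp, sa hq]

lemma pj_sub {p q : A} (hp : PJ p) (hq : PJ q) (h : q * p = q) : PJ (p - q) := by
  refine mkPJ ?_ ?_
  · have h' := le_symm hq hp h
    rw [mul_sub, sub_mul, sub_mul, idm hp, idm hq, h, h']
    simp
  · rw [star_sub, sa hp, sa hq]

lemma sub_add {p p' q q' : A} (hp : PJ p) (hp' : PJ p') (hq : PJ q) (hq' : PJ q')
    (hpp : p * p' = 0) (hqq : q * q' = 0) (h : Sub p q) (h' : Sub p' q') :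
    Sub (p + p') (q + q') := by
  rw [sub_iff hp hq] at h
  rw [sub_iff hp' hq'] at h'
  rw [sub_iff (pj_add hp hp' hpp) (pj_add hq hq' hqq)]
  obtain ⟨v, a1, a2⟩ := h
  obtain ⟨w, b1, b2⟩ := h'
  have hqq' := orth_symm hq hq' hqq
  have c1 : q * w = 0 := by rw [← b2, ← mul_assoc, hqq, zero_mul]
  have c2 : q' * v = 0 := by rw [← a2, ← mul_assoc, hqq', zero_mul]
  have d1 : star v * q = star v := by
    have := congrArg star a2
    rwa [star_mul, sa hq] at this
  have d2 : star w * q' = star w := by
    have := congrArg star b2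
    rwa [star_mul, sa hq'] at this
  have e1 : star v * w = 0 := by rw [← d1, mul_assoc, c1, mul_zero]
  have e2 : star w * v = 0 := by rw [← d2, mul_assoc, c2, mul_zero]
  refine ⟨v + w, ?_, ?_⟩
  · rw [star_add, mul_add, add_mul, add_mul, a1, b1, e1, e2]
    simp
  · rw [mul_add, add_mul, add_mul, a2, b2, c1, c2]
    simp

/-- one half of the argument. -/
lemma half (hLR : PLR A) {q r m : A} (hq : PJ q) (hr : PJ r) (hm : PJ m) (hqr : q * r = 0)
    (hum : (q + r) * m = m) :
    ∃ R L D E : A, PJ R ∧ PJ L ∧ PJ D ∧ PJ E ∧ R * D = 0 ∧ L * E = 0 ∧ R + D = m ∧ L + E = r ∧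
      Sub R L ∧ D * m = D ∧ D * q = D ∧ E * m = 0 ∧
      ∀ t : A, PJ t → t * m = 0 → t * r = t → t * E = t := by
  obtain ⟨w, R, L, hR, hL, w1, w2, x1, x2, x3, x4⟩ := hLR ((1 - q) * m)
  have hrq := orth_symm hq hr hqr
  have hu : PJ (q + r) := pj_add hq hr hqr
  have qq := idm hq
  have rr := idm hr
  have mm := idm hm
  -- R ≤ m
  have Rm : R * m = R := by
    have h1 : (1 - q) * m * (1 - m) = 0 := by
      rw [mul_assoc, mul_sub, mul_one, mm, sub_self, mul_zero]
    have h2 := x3 _ h1
    rw [mul_sub, mul_one, sub_eq_zero] at h2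
    exact h2.symm
  have mR : m * R = R := le_symm hR hm Rm
  -- L ≤ q + r
  have uL : (q + r) * L = L := by
    have h1 : (1 - (q + r)) * ((1 - q) * m) = 0 := by
      have e : (1 - (q + r)) * ((1 - q) * m)
          = m - (q + r) * m - q * m + q * q * m + r * q * m := by noncomm_ring
      rw [e, hum, qq, hrq]
      simp
    have h2 := x4 _ h1
    rw [sub_mul, one_mul, sub_eq_zero] at h2
    exact h2.symm
  have qL : q * L = 0 := by
    apply x4
    rw [← mul_assoc, mul_sub, mul_one, qq, sub_self, zero_mul]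
  have rL : r * L = L := by
    have := uL
    rw [add_mul, qL, zero_add] at this
    exact this
  have Lr : L * r = L := le_symm' hL hr rL
  have Lq : L * q = 0 := orth_symm hq hL qL
  have hD : PJ (m - R) := pj_sub hm hR Rm
  have hE : PJ (r - L) := pj_sub hr hL Lr
  -- (1-q) D = 0
  have qD : q * (m - R) = m - R := by
    have h1 : (1 - q) * m * (m - R) = 0 := by
      rw [mul_sub, x1, mul_assoc, mm, sub_self]
    have h2 : m * (m - R) = m - R := by rw [mul_sub, mm, mR]
    rw [mul_assoc, h2, sub_mul, one_mul, sub_eq_zero] at h1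
    exact h1.symm
  have Lm : L * m = m - q * m := by
    have h1 := x2
    have e : L * ((1 - q) * m) = L * m - L * q * m := by noncomm_ring
    rw [e, Lq, zero_mul, sub_zero] at h1
    rw [h1]
    noncomm_ring
  have Em : (r - L) * m = 0 := by
    have h1 : r * m = m - q * m := by
      rw [add_mul] at hum
      exact eq_sub_of_add_eq' hum
    rw [sub_mul, Lm, h1, sub_self]
  refine ⟨R, L, m - R, r - L, hR, hL, hD, hE, ?_, ?_, ?_, ?_, ?_, ?_, ?_, Em, ?_⟩
  · rw [mul_sub, Rm, idm hR, sub_self]
  · rw [mul_sub, Lr, idm hL, sub_self]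
  · abel
  · abel
  · exact ⟨w, w1, by rw [w2, idm hL]⟩
  · rw [sub_mul, mm, Rm]
  · exact le_symm' hD hq qD
  · intro t ht tm tr
    have tq : t * q = 0 := by rw [← tr, mul_assoc, hrq, mul_zero]
    have tx : t * ((1 - q) * m) = 0 := by
      have e : t * ((1 - q) * m) = t * m - t * q * m := by noncomm_ring
      rw [e, tm, tq, zero_mul, sub_zero]
    have tL := x4 _ tx
    rw [mul_sub, tr, tL, sub_zero]

end base

theorem dich_ok : St_Dich.{u} := by
  intro A _ hInf hLR hCmp g q r hg hq hr hgi hqr hsub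
  have hrq := orth_symm hq hr hqr
  have hu : PJ (q + r) := pj_add hq hr hqr
  obtain ⟨g1, g2, hg1, hg2, h12, hl1, hl2, ⟨v1, a1, a2⟩, ⟨v2, b1, b2⟩⟩ := hInf g hg hgi
  unfold Le at hl1 hl2
  rw [sub_iff hg hu] at hsub
  obtain ⟨v, c1, c2⟩ := hsub
  have vg : v * g = v := init hg c1
  have gg1 : g * g1 = g1 := le_symm hg1 hg hl1
  have gg2 : g * g2 = g2 := le_symm hg2 hg hl2
  have v1g : v1 * g = v1 := init hg a1
  have v2g : v2 * g = v2 := init hg b1
  have g1v1 : g1 * v1 = v1 := by rw [← a2, mul_assoc, a1, v1g]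
  have g2v2 : g2 * v2 = v2 := by rw [← b2, mul_assoc, b1, v2g]
  have gv1 : g * v1 = v1 := by rw [← g1v1, ← mul_assoc, gg1]
  have gv2 : g * v2 = v2 := by rw [← g2v2, ← mul_assoc, gg2]
  -- m and n
  have key : ∀ a b : A, v * a * star v * (v * b * star v) = v * (a * g * b) * star v := by
    intro a b
    rw [← c1]
    noncomm_ring
  have hm : PJ (v * g1 * star v) := by
    refine mkPJ ?_ ?_
    · rw [key, hl1, idm hg1]
    · rw [star_mul, star_mul, star_star, sa hg1]
      noncomm_ring
  have hn : PJ (v * g2 * star v) := by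
    refine mkPJ ?_ ?_
    · rw [key, hl2, idm hg2]
    · rw [star_mul, star_mul, star_star, sa hg2]
      noncomm_ring
  have hmn : v * g1 * star v * (v * g2 * star v) = 0 := by
    rw [key, hl1, h12]
    simp
  have hum : (q + r) * (v * g1 * star v) = v * g1 * star v := by
    rw [← mul_assoc, ← mul_assoc, c2]
  have hun : (q + r) * (v * g2 * star v) = v * g2 * star v := by
    rw [← mul_assoc, ← mul_assoc, c2]
  have sm : Sub g (v * g1 * star v) := by
    rw [sub_iff hg hm]
    refine ⟨v * v1, ?_, ?_⟩
    · rw [star_mul]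
      calc star v1 * star v * (v * v1) = star v1 * (star v * v * v1) := by noncomm_ring
        _ = g := by rw [c1, gv1, a1]
    · calc v * g1 * star v * (v * v1) = v * (g1 * (star v * v * v1)) := by noncomm_ring
        _ = v * v1 := by rw [c1, gv1, g1v1]
  have sn : Sub g (v * g2 * star v) := by
    rw [sub_iff hg hn]
    refine ⟨v * v2, ?_, ?_⟩
    · rw [star_mul]
      calc star v2 * star v * (v * v2) = star v2 * (star v * v * v2) := by noncomm_ring
        _ = g := by rw [c1, gv2, b1]
    · calc v * g2 * star v * (v * v2) = v * (g2 * (star v * v * v2)) := by noncomm_ring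
        _ = v * v2 := by rw [c1, gv2, g2v2]
  generalize v * g1 * star v = m at *
  generalize v * g2 * star v = n at *
  have mu : m * (q + r) = m := le_symm' hm hu hum
  have hn' : PJ (q + r - m) := pj_sub hu hm mu
  have hun' : (r + q) * (q + r - m) = q + r - m := by
    rw [add_comm r q, mul_sub, idm hu, hum]
  have nm : n * m = 0 := orth_symm hm hn hmn
  have nn' : n * (q + r - m) = n := by
    rw [mul_sub, le_symm' hn hu hun, nm, sub_zero]
  obtain ⟨R, L, D, E, hR, hL, hD, hE, RD, LE, RDm, LEr, sRL, Dm, Dq, Em, ht⟩ :=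
    half hLR hq hr hm hqr hum
  obtain ⟨R', L', D', E', hR', hL', hD', hE', RD', LE', RDm', LEr', sRL', Dm', Dq', Em', ht'⟩ :=
    half hLR hr hq hn' hrq hun'
  -- D' ≤ E
  have hD'E : D' * E = D' := by
    apply ht D' hD'
    · rw [← Dm', mul_assoc, sub_mul, hum, idm hm, sub_self, mul_zero]
    · exact Dq'
  have hDE' : D * E' = D := by
    apply ht' D hD
    · rw [← Dm, mul_assoc, mul_sub, mu, idm hm, sub_self, mul_zero]
    · exact Dq
  rcases hCmp D E hD hE with h | h
  · right
    have h1 : Sub m r := by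
      have := sub_add hR hD hL hE RD LE sRL h
      rwa [RDm, LEr] at this
    exact sub_trans hg hm hr sm h1
  · left
    have h1 : Sub D' E' :=
      sub_trans hD' hE hE' (sub_of_le hD' hE hD'E)
        (sub_trans hE hD hE' h (sub_of_le hD hE' hDE'))
    have h2 : Sub (q + r - m) q := by
      have := sub_add hR' hD' hL' hE' RD' LE' sRL' h1
      rwa [RDm', LEr'] at this
    exact sub_trans hg hn hq sn (sub_trans hn hn' hq (sub_of_le hn hn' nn') h2)

theorem join_ok : St_Join.{u} := by
  intro A _ hLR hDich g s t hg hs ht hgi hsg htg hns hnt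
  unfold Le at hsg htg
  obtain ⟨w, R, L, hR, hL, w1, w2, x1, x2, x3, x4⟩ := hLR ((1 - t) * s)
  have tt := idm ht
  have ss := idm hs
  have tL : t * L = 0 := by
    apply x4
    rw [← mul_assoc, mul_sub, mul_one, tt, sub_self, zero_mul]
  have Lt : L * t = 0 := orth_symm ht hL tL
  have gL : g * L = L := by
    have h1 : (1 - g) * ((1 - t) * s) = 0 := by
      have e : (1 - g) * ((1 - t) * s) = s - g * s - t * s + g * t * s := by noncomm_ring
      rw [e, le_symm hs hg hsg, le_symm ht hg htg]
      simp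
    have h2 := x4 _ h1
    rw [sub_mul, one_mul, sub_eq_zero] at h2
    exact h2.symm
  have Lg : L * g = L := le_symm' hL hg gL
  have Rs : R * s = R := by
    have h1 : (1 - t) * s * (1 - s) = 0 := by
      rw [mul_assoc, mul_sub, mul_one, ss, sub_self, mul_zero]
    have h2 := x3 _ h1
    rw [mul_sub, mul_one, sub_eq_zero] at h2
    exact h2.symm
  have Ls : L * s = s - t * s := by
    have h1 := x2
    have e : L * ((1 - t) * s) = L * s - L * t * s := by noncomm_ring
    rw [e, Lt, zero_mul, sub_zero] at h1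
    rw [h1]
    noncomm_ring
  have hc : PJ (t + L) := pj_add ht hL tL
  refine ⟨t + L, hc, ?_, ?_, ?_, ?_⟩
  · unfold Le
    rw [add_mul, htg, Lg]
  · unfold Le
    apply le_symm' hs hc
    rw [add_mul, Ls]
    abel
  · unfold Le
    rw [mul_add, tt, tL, add_zero]
  · intro hsub
    rcases hDich g t L hg ht hL hgi tL hsub with h | h
    · exact hnt h
    · apply hns
      have h1 : Sub L R := by
        rw [sub_iff hL hR]
        refine ⟨star w, by rw [star_star, w2], ?_⟩
        have h2 : w * R = w := init hR w1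
        have := congrArg star h2
        rwa [star_mul, sa hR] at this
      exact sub_trans hg hL hs h (sub_trans hL hR hs h1 (sub_of_le hR hs Rs))

end Pool.Agent.R456.CL.Dich
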