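import Pool.Agent.R456.CL.Base3

set_option autoImplicit false

namespace Pool.Agent.R456.CL

universe u

section fin

variable {A : Type u} [CStarAlgebra A]

lemma le_sub_orth {k g : A} (hk : PJ k) (hg : PJ g) (h : Le k g) :
    k * (g - k) = 0 ∧ (g - k) * k = 0 := by
  constructor
  · rw [mul_sub, h, PJ.mul_self hk, sub_self]
  · rw [sub_mul, h.rev hk hg, PJ.mul_self hk, sub_self]

/-- the cut of `x`, packaged. -/
lemma cut_pack (hc : PCut A) {x e f : A} (he : PJ e) (_hf : PJ f) (hxe : x * e = x)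
    (hfx : f * x = x) {ε : ℝ} (hε : 0 < ε) : ∃ k w c : A, PJ k ∧ Le k e ∧ star w * w = k ∧
      Le (w * star w) f ∧ w * star w * x = x * k ∧ k * c = c ∧ c * (w * star w) = c ∧
      c * (x * k) = k ∧ x * k * c = w * star w ∧ ‖x * (e - k)‖ ≤ ε := by
  obtain ⟨k, s, hk, hs1, hs2, hs3, hs4, hs5, hs6, hs7, hs8⟩ := hc x ε hε
  have hxe' : e * star x = star x := star_absorb_right he hxe
  have hkk := PJ.mul_self hk
  have hke : Le k e := by
    show k * e = k
    rw [← hs5]
    simp only [mul_assoc, hxe]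
  have hw : star (x * s) * (x * s) = k := by
    rw [star_mul, hs3, ← hs7]; simp only [mul_assoc]
  have hww : (x * s) * star (x * s) = x * s * s * star x := by
    rw [star_mul, hs3]; simp only [mul_assoc]
  have hfw : f * (x * s) = x * s := by rw [← mul_assoc, hfx]
  have hwwf : (x * s) * star (x * s) * f = (x * s) * star (x * s) := by
    rw [mul_assoc, star_absorb_left _hf hfw]
  have hwx : (x * s) * star (x * s) * x = x * k := by
    rw [hww]
    calc x * s * s * star x * x = x * (s * s * (star x * x)) := by simp only [mul_assoc]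
      _ = x * k := by rw [hs5]
  refine ⟨k, x * s, s * s * star x, hk, hke, hw, hwwf, hwx, ?_, ?_, ?_, ?_, ?_⟩
  · rw [← mul_assoc, ← mul_assoc, hs1]
  · calc s * s * star x * (x * s * star (x * s)) = (s * s * (star x * x)) * s * star (x * s) := by
          simp only [mul_assoc]
      _ = s * star (x * s) := by rw [hs5, hs1]
      _ = s * s * star x := by rw [star_mul, hs3]; simp only [mul_assoc]
  · calc s * s * star x * (x * k) = (s * s * (star x * x)) * k := by simp only [mul_assoc]
      _ = k := by rw [hs5, hkk]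
  · calc x * k * (s * s * star x) = x * (k * s) * s * star x := by simp only [mul_assoc]
      _ = x * s * s * star x := by rw [hs1]
      _ = x * s * star (x * s) := hww.symm
  · have : x * (e - k) = x * (1 - k) := by rw [mul_sub, mul_sub, hxe, mul_one]
    rw [this]; exact hs8

end fin

theorem fin_ok : St_Fin.{u} := by
  intro A _ hc hcmp g T hg hfin hgT hTg
  -- first cut
  obtain ⟨k, w, c, hk, hkg, hw, hwg, hwT, hkc, hcw, hcT, hTc, hTn⟩ :=
    cut_pack hc hg hg hTg hgT (ε := 1 / 4) (by norm_num)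
  have hh : PJ (w * star w) := pi_final hk hw
  obtain ⟨h, hhdef⟩ : ∃ h, h = w * star w := ⟨_, rfl⟩
  rw [← hhdef] at hwg hwT hcw hTc hh
  have hgg := PJ.mul_self hg
  have hkk := PJ.mul_self hk
  have hhh := PJ.mul_self hh
  have he : PJ (g - k) := pj_sub hk hg hkg
  have hf : PJ (g - h) := pj_sub hh hg hwg
  obtain ⟨oke, oek⟩ := le_sub_orth hk hg hkg
  obtain ⟨ohf, ofh⟩ := le_sub_orth hh hg hwg
  have hEq : Eqv (g - k) (g - h) := fin_compl hcmp hg hk hh hkg hwg hfin hw hhdef.symm
  obtain ⟨e, hedef⟩ : ∃ e, e = g - k := ⟨_, rfl⟩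
  obtain ⟨f, hfdef⟩ : ∃ f, f = g - h := ⟨_, rfl⟩
  rw [← hedef] at he oke oek hEq hTn
  rw [← hfdef] at hf ohf ofh hEq
  have hee := PJ.mul_self he
  have hff := PJ.mul_self hf
  have heg : Le e g := by show e * g = e; rw [hedef, sub_mul, hgg, hkg]
  have hfg : Le f g := by show f * g = f; rw [hfdef, sub_mul, hgg, hwg]
  have hge : g * e = e := heg.rev he hg
  have hgf : g * f = f := hfg.rev hf hg
  have hke : k + e = g := by rw [hedef]; abel
  have hhf : h + f = g := by rw [hfdef]; abel
  have hfine : ¬ Infin e := not_infin_sub hg he heg hfin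
  -- h T e = 0, f T e = T e
  have hhTe : h * T * e = 0 := by rw [hwT, mul_assoc, oke, mul_zero]
  have hfTe : f * (T * e) = T * e := by
    have : (h + f) * (T * e) = T * e := by rw [hhf, ← mul_assoc, hgT]
    rw [add_mul, ← mul_assoc, hhTe, zero_add] at this
    exact this
  have hnTe : ‖T * e‖ ≤ 1 / 4 := hTn
  -- second cut
  obtain ⟨x, hx⟩ : ∃ x, x = f * e - T * e := ⟨_, rfl⟩
  have hxe : x * e = x := by rw [hx, sub_mul, mul_assoc, hee, mul_assoc, hee]
  have hfx : f * x = x := by rw [hx, mul_sub, ← mul_assoc, hff, hfTe]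
  obtain ⟨k', w', c', hk', hk'e, hw', hw'f, hw'x, hk'c', hc'w', hc'x, hxc', hxn⟩ :=
    cut_pack hc he hf hxe hfx (ε := 1 / 4) (by norm_num)
  have hh' : PJ (w' * star w') := pi_final hk' hw'
  obtain ⟨h', hh'def⟩ : ∃ h', h' = w' * star w' := ⟨_, rfl⟩
  rw [← hh'def] at hw'f hw'x hc'w' hxc' hh'
  have hkk' := PJ.mul_self hk'
  have hhh' := PJ.mul_self hh'
  have he2 : PJ (e - k') := pj_sub hk' he hk'e
  have hf2 : PJ (f - h') := pj_sub hh' hf hw'f
  obtain ⟨ok1, ok2⟩ := le_sub_orth hk' he hk'e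
  obtain ⟨oh1, oh2⟩ := le_sub_orth hh' hf hw'f
  -- e'' ~ f''
  obtain ⟨v, hv1, hv2⟩ := hEq
  have hfv : f * v = v := pi_left he hv1 hv2
  have hve : v * e = v := pi_right he hv1
  have hsvf : star v * f = star v := star_absorb_left hf hfv
  have hesv : e * star v = star v := star_absorb_right he hve
  have hEq2 : Eqv (e - k') (f - h') := by
    obtain ⟨m, hm⟩ : ∃ m, m = star v * h' * v := ⟨_, rfl⟩
    have hfh' : f * h' = h' := hw'f.rev hh' hf
    have hmm : star (h' * v) * (h' * v) = m := by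
      rw [star_mul, PJ.star hh', hm]
      calc star v * h' * (h' * v) = star v * (h' * h') * v := by simp only [mul_assoc]
        _ = _ := by rw [hhh']
    have hmPJ : PJ m := by
      refine ⟨?_, ?_⟩
      · unfold IsIdempotentElem
        rw [hm]
        calc star v * h' * v * (star v * h' * v) = star v * h' * (v * star v) * h' * v := by
              simp only [mul_assoc]
          _ = star v * (h' * f) * h' * v := by rw [hv2]; simp only [mul_assoc]
          _ = star v * h' * v := by rw [hw'f, mul_assoc (star v), hhh']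
      · unfold IsSelfAdjoint
        rw [hm, star_mul, star_mul, star_star, PJ.star hh', mul_assoc]
    have hme : Le m e := by show m * e = m; rw [hm, mul_assoc, hve]
    have i1 : star (star v * w') * (star v * w') = k' := by
      rw [star_mul, star_star]
      calc star w' * v * (star v * w') = star w' * (v * star v) * w' := by simp only [mul_assoc]
        _ = star w' * (f * w') := by rw [hv2, mul_assoc]
        _ = k' := by rw [pi_le hk' hf hw' (by rw [← hh'def]; exact hw'f), hw']
    have i2 : (star v * w') * star (star v * w') = m := by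
      rw [star_mul, star_star, hm, hh'def]; simp only [mul_assoc]
    have j1 : Eqv (e - k') (e - m) :=
      fin_compl hcmp he hk' hmPJ hk'e hme hfine i1 i2
    have j2 : Eqv (e - m) (f - h') := by
      refine ⟨v * (e - m), ?_, ?_⟩
      · have hem : PJ (e - m) := pj_sub hmPJ he hme
        rw [star_mul, PJ.star hem]
        calc (e - m) * star v * (v * (e - m)) = (e - m) * (star v * v) * (e - m) := by
              simp only [mul_assoc]
          _ = (e - m) * (e * (e - m)) := by rw [hv1, mul_assoc]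
          _ = e - m := by
            rw [mul_sub e e m, hee, hme.rev hmPJ he, PJ.mul_self hem]
      · have hem : PJ (e - m) := pj_sub hmPJ he hme
        rw [star_mul, PJ.star hem]
        calc v * (e - m) * ((e - m) * star v) = v * ((e - m) * (e - m)) * star v := by
              simp only [mul_assoc]
          _ = v * e * star v - v * m * star v := by rw [PJ.mul_self hem, mul_sub, sub_mul]
          _ = f - h' := by
            have h5 : v * m * star v = (v * star v) * h' * (v * star v) := by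
              rw [hm]; simp only [mul_assoc]
            rw [hve, h5, hv2, hfh', hw'f]
    exact eqv_trans he2 (pj_sub hmPJ he hme) j1 j2
  obtain ⟨e2, he2def⟩ : ∃ e2, e2 = e - k' := ⟨_, rfl⟩
  obtain ⟨f2, hf2def⟩ : ∃ f2, f2 = f - h' := ⟨_, rfl⟩
  rw [← he2def] at he2 ok1 ok2 hEq2 hxn
  rw [← hf2def] at hf2 oh1 oh2 hEq2
  have hk'e2 : k' + e2 = e := by rw [he2def]; abel
  have hh'f2 : h' + f2 = f := by rw [hf2def]; abel
  have hee2 := PJ.mul_self he2
  have hff2 := PJ.mul_self hf2
  have he2e : e2 * e = e2 := by rw [he2def, sub_mul, hee, hk'e]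
  have hee2' : e * e2 = e2 := Le.rev he2 he he2e
  have hf2f : f2 * f = f2 := by rw [hf2def, sub_mul, hff, hw'f]
  have hff2' : f * f2 = f2 := Le.rev hf2 hf hf2f
  obtain ⟨v2, hv21, hv22⟩ := hEq2
  have hf2v2 : f2 * v2 = v2 := pi_left he2 hv21 hv22
  have hv2e2 : v2 * e2 = v2 := pi_right he2 hv21
  have hfv2 : f * v2 = v2 := by rw [← hf2v2, ← mul_assoc, hff2']
  -- y0
  have hfe2n : ‖f * e2‖ ≤ 1 / 2 := by
    have h1 : f * e2 = x * e2 + T * e * e2 := by
      rw [hx, sub_mul, mul_assoc f, hee2']; abel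
    rw [h1]
    have h2 : ‖T * e * e2‖ ≤ 1 / 4 * 1 :=
      (norm_mul_le _ _).trans (mul_le_mul hnTe (pj_norm_le he2) (norm_nonneg _) (by norm_num))
    linarith [norm_add_le (x * e2) (T * e * e2)]
  have hIe2 : Iso e2 e2 (e2 + (- (e2 * f * e2))) := by
    refine iso_neumann he2 ?_ ?_ ?_
    · rw [mul_neg, ← mul_assoc, ← mul_assoc, hee2]
    · rw [neg_mul, mul_assoc, hee2]
    · rw [norm_neg, mul_assoc]
      have : ‖e2 * (f * e2)‖ ≤ 1 * (1 / 2) :=
        (norm_mul_le _ _).trans (mul_le_mul (pj_norm_le he2) hfe2n (norm_nonneg _) (by norm_num))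
      linarith
  obtain ⟨_, _, i0, hi1, hi2, hi3, hi4⟩ := hIe2
  obtain ⟨y0, hy0⟩ : ∃ y0, y0 = i0 * (e2 * h) := ⟨_, rfl⟩
  have hy0h : y0 * h = y0 := by rw [hy0, mul_assoc, mul_assoc, hhh]
  have hy0f : y0 * f = 0 := by rw [← hy0h, mul_assoc, ohf, mul_zero]
  have hy0g : y0 * g = y0 := by rw [← hhf, mul_add, hy0h, hy0f, add_zero]
  have hge2 : g * e2 = e2 := by rw [← hee2', ← mul_assoc, hge]
  have he2y0 : e2 * y0 = y0 := by rw [hy0, ← mul_assoc, hi1]
  have hy0e2 : y0 * e2 = e2 := by
    have h1 : e2 * h * e2 = e2 + (-(e2 * f * e2)) := by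
      have : h = g - f := by rw [← hhf]; abel
      rw [this, mul_sub, sub_mul, mul_assoc e2 g, hge2, hee2]; abel
    rw [hy0, mul_assoc, h1, hi3]
  -- q
  obtain ⟨q, hq⟩ : ∃ q, q = f + v2 * y0 := ⟨_, rfl⟩
  have hy0v2 : y0 * v2 = 0 := by rw [← hfv2, ← mul_assoc, hy0f, zero_mul]
  have hqq : q * q = q := by
    rw [hq, mul_add, add_mul, add_mul, hff, ← mul_assoc f, hfv2]
    have h1 : v2 * y0 * f = 0 := by rw [mul_assoc, hy0f, mul_zero]
    have h2 : v2 * y0 * (v2 * y0) = 0 := by
      calc v2 * y0 * (v2 * y0) = v2 * (y0 * v2) * y0 := by simp only [mul_assoc]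
        _ = 0 := by rw [hy0v2]; simp
    rw [h1, h2]; abel
  have hfq : f * q = q := by rw [hq, mul_add, hff, ← mul_assoc, hfv2]
  have hgq : g * q = q := by rw [← hfq, ← mul_assoc, hgf]
  have hqg : q * g = q := by rw [hq, add_mul, hfg, mul_assoc, hy0g]
  have hhq : h * q = 0 := by rw [← hfq, ← mul_assoc, ohf, zero_mul]
  -- m is an isomorphism from e to f
  obtain ⟨m, hm⟩ : ∃ m, m = x + v2 * y0 * e := ⟨_, rfl⟩
  have hfm : f * m = m := by
    rw [hm, mul_add, hfx, ← mul_assoc, ← mul_assoc, hfv2]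
  have hme : m * e = m := by
    rw [hm, add_mul, hxe, mul_assoc (v2 * y0), hee]
  have hh'v2 : h' * v2 = 0 := by rw [← hf2v2, ← mul_assoc, oh1, zero_mul]
  have hh'm : h' * m = x * k' := by
    rw [hm, mul_add, hw'x, ← mul_assoc, ← mul_assoc, hh'v2]; simp
  have hmIso : Iso e f m := by
    rw [← hk'e2, ← hh'f2]
    have p11 : h' * m * k' = x * k' := by rw [hh'm, mul_assoc, hkk']
    have p12 : h' * m * e2 = 0 := by rw [hh'm, mul_assoc, ok1, mul_zero]
    refine schur (c := c') hkk' hee2 ok1 ok2 hhh' hff2 oh1 oh2 ?_ ?_ hk'c' hc'w' ?_ ?_ ?_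
    · rw [hh'f2]; exact hfm
    · rw [hk'e2]; exact hme
    · rw [p11]; exact hc'x
    · rw [p11]; exact hxc'
    · rw [p12, mul_zero, sub_zero]
      have p22 : f2 * m * e2 = v2 * (e2 + star v2 * (f2 * x * e2)) := by
        have h1 : v2 * (star v2 * (f2 * x * e2)) = f2 * x * e2 := by
          rw [← mul_assoc, hv22, ← mul_assoc, ← mul_assoc, hff2]
        rw [mul_add, h1, hm, mul_add, add_mul, hv2e2]
        have h2 : f2 * (v2 * y0 * e) * e2 = v2 := by
          calc f2 * (v2 * y0 * e) * e2 = (f2 * v2) * (y0 * (e * e2)) := by simp only [mul_assoc]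
            _ = v2 := by rw [hf2v2, hee2', hy0e2, hv2e2]
        rw [h2]; abel
      rw [p22]
      refine iso_mul (f := e2) (iso_neumann he2 ?_ ?_ ?_) ?_
      · rw [← mul_assoc, star_absorb_right he2 hv2e2]
      · simp only [mul_assoc, hee2]
      · have n1 : ‖f2 * x * e2‖ ≤ 1 * (1 / 4) := by
          rw [mul_assoc]
          exact (norm_mul_le _ _).trans (mul_le_mul (pj_norm_le hf2) hxn (norm_nonneg _)
            (by norm_num))
        have n2 : ‖star v2‖ ≤ 1 := by rw [norm_star]; exact pi_norm_le he2 hv21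
        have n3 : ‖star v2 * (f2 * x * e2)‖ ≤ 1 * (1 * (1 / 4)) :=
          (norm_mul_le _ _).trans (mul_le_mul n2 n1 (norm_nonneg _) (by norm_num))
        linarith
      · exact ⟨hf2v2, hv2e2, star v2, star_absorb_right he2 hv2e2, star_absorb_left hf2 hf2v2,
          hv21, hv22⟩
  -- conclusion
  refine ⟨q, hgq, hqg, hqq, ?_⟩
  have q11 : h * (T - q) * k = T * k := by
    rw [mul_sub, hhq, sub_zero, hwT, mul_assoc, hkk]
  have q12 : h * (T - q) * e = 0 := by
    rw [mul_sub, hhq, sub_zero, hhTe]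
  have key : Iso (k + e) (h + f) (T - q) := by
    refine schur (c := c) hkk hee oke oek hhh hff ohf ofh ?_ ?_ hkc hcw ?_ ?_ ?_
    · rw [hhf, mul_sub, hgT, hgq]
    · rw [hke, sub_mul, hTg, hqg]
    · rw [q11]; exact hcT
    · rw [q11]; exact hTc
    · rw [q12, mul_zero, sub_zero]
      have : f * (T - q) * e = (-1 : ℂ) • m := by
        rw [mul_sub, sub_mul, mul_assoc f T e, hfTe, hfq, hq, hm, hx, add_mul]
        rw [neg_smul, one_smul]; abel
      rw [this]
      exact iso_smul (by norm_num) hmIso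
  rwa [hke, hhf] at key

end Pool.Agent.R456.CL
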