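import Pool.Agent.R456.CL.Stm

/-!
# Project CL, module Inf1: an infinite projection contains a maximal infinite family of pairwise
orthogonal equivalent projections, with a small remainder.
-/

set_option autoImplicit false

namespace Pool.Agent.R456.CL.Inf1

open Pool.Agent.R456.CL

universe u

section basic

variable {A : Type u} [CStarAlgebra A]

theorem pj_mk {p : A} (h1 : p * p = p) (h2 : star p = p) : PJ p := ⟨h1, h2⟩

theorem pj_idem {p : A} (h : PJ p) : p * p = p := h.isIdempotentElem

theorem pj_star {p : A} (h : PJ p) : star p = p := h.isSelfAdjoint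

theorem init {v p : A} (hp : PJ p) (h : star v * v = p) : v * p = v := by
  have h1 : star (v - v * p) * (v - v * p) = 0 := by
    have e1 : star (v - v * p) = star v - p * star v := by
      rw [star_sub, star_mul, pj_star hp]
    have e2 : (star v - p * star v) * (v - v * p) =
        star v * v - star v * v * p - p * (star v * v) + p * (star v * v) * p := by
      noncomm_ring
    rw [e1, e2, h, pj_idem hp, pj_idem hp]
    abel
  have h2 := (CStarRing.star_mul_self_eq_zero_iff _).1 h1
  exact (sub_eq_zero.1 h2).symm

theorem final_mul {v p : A} (hp : PJ p) (h : star v * v = p) : v * star v * v = v := by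
  rw [mul_assoc, h, init hp h]

theorem final {v p : A} (hp : PJ p) (h : star v * v = p) : PJ (v * star v) := by
  apply pj_mk
  · have : v * star v * (v * star v) = (v * star v * v) * star v := by noncomm_ring
    rw [this, final_mul hp h]
  · rw [star_mul, star_star]

theorem le_left {p q : A} (hp : PJ p) (hq : PJ q) (h : p * q = p) : q * p = p := by
  have := congrArg star h
  rwa [star_mul, pj_star hp, pj_star hq] at this

theorem fin_le {v q : A} (hq : PJ q) (h : v * star v * q = v * star v) : q * v = v := by
  have h0 : q * (v * star v) = v * star v := by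
    have := congrArg star h
    rwa [star_mul, star_mul, star_star, pj_star hq] at this
  have h1 : (v - q * v) * star (v - q * v) = 0 := by
    have e1 : star (v - q * v) = star v - star v * q := by
      rw [star_sub, star_mul, pj_star hq]
    have e2 : (v - q * v) * (star v - star v * q) =
        v * star v - v * star v * q - q * (v * star v) + q * (v * star v * q) := by
      noncomm_ring
    rw [e1, e2, h, h0]
    abel
  have h2 := (CStarRing.mul_star_self_eq_zero_iff _).1 h1
  exact (sub_eq_zero.1 h2).symm

theorem eqv_symm {p q : A} (h : Eqv p q) : Eqv q p := by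
  obtain ⟨v, h1, h2⟩ := h
  exact ⟨star v, by rw [star_star]; exact h2, by rw [star_star]; exact h1⟩

theorem eqv_trans {p q r : A} (hp : PJ p) (hq : PJ q) (h : Eqv p q) (h' : Eqv q r) : Eqv p r := by
  obtain ⟨u, hu1, hu2⟩ := h
  obtain ⟨w, hw1, hw2⟩ := h'
  refine ⟨w * u, ?_, ?_⟩
  · have e1 : star (w * u) * (w * u) = star u * (star w * w) * u := by
      rw [star_mul]; noncomm_ring
    rw [e1, hw1, ← hu2]
    have e2 : star u * (u * star u) * u = star u * u * (star u * u) := by noncomm_ring
    rw [e2, hu1, pj_idem hp]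
  · have e1 : w * u * star (w * u) = w * (u * star u) * star w := by
      rw [star_mul]; noncomm_ring
    rw [e1, hu2, init hq hw1, hw2]

theorem eqv_ne_zero {p q : A} (h : Eqv p q) (hp : p ≠ 0) : q ≠ 0 := by
  obtain ⟨u, hu1, hu2⟩ := h
  rintro rfl
  apply hp
  have := (CStarRing.mul_star_self_eq_zero_iff _).1 hu2
  rw [← hu1, this, mul_zero]

/-- `r ≲ p ~ q` gives `r ≲ q` -/
theorem sub_eqv {r p q : A} (hp : PJ p) (h : Sub r p) (h' : Eqv p q) : Sub r q := by
  obtain ⟨w, hw1, hw2⟩ := h
  obtain ⟨u, hu1, hu2⟩ := h'
  have hpw : p * w = w := fin_le hp hw2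
  have hqu : q * u = u := by
    rw [← hu2]
    exact final_mul hp hu1
  have hq : PJ q := by
    rw [← hu2]
    exact final hp hu1
  have huq : star u * q = star u := by
    have := congrArg star hqu
    rwa [star_mul, pj_star hq] at this
  refine ⟨u * w, ?_, ?_⟩
  · have e1 : star (u * w) * (u * w) = star w * ((star u * u) * w) := by
      rw [star_mul]; noncomm_ring
    rw [e1, hu1, hpw, hw1]
  · have e1 : u * w * star (u * w) * q = u * (w * star w) * (star u * q) := by
      rw [star_mul]; noncomm_ring
    have e2 : u * w * star (u * w) = u * (w * star w) * star u := by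
      rw [star_mul]; noncomm_ring
    rw [e1, huq, e2]

/-- the sequence `p, v p v*, v² p v*², ...` -/
noncomputable def seq (g v : A) : ℕ → A
  | 0 => g - v * star v
  | n + 1 => v * seq g v n * star v

end basic

theorem inf1_ok : St_Inf1.{u} := by
  classical
  intro A _ hSup _ hCmpO g hg hinf
  obtain ⟨v, hv1, hv2, hv3⟩ := hinf
  have hvg : v * g = v := init hg hv1
  have hgv : g * v = v := fin_le hg hv2
  have hgv' : star v * g = star v := by
    have := congrArg star hgv
    rwa [star_mul, pj_star hg] at this
  have hvg' : g * star v = star v := by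
    have := congrArg star hvg
    rwa [star_mul, pj_star hg] at this
  have hvv : PJ (v * star v) := final hg hv1
  have hvvv : v * star v * v = v := final_mul hg hv1
  set s : ℕ → A := seq g v with hs
  have s0 : s 0 = g - v * star v := rfl
  have ss : ∀ n, s (n + 1) = v * s n * star v := fun n => rfl
  -- projections below g
  have hle : ∀ n, s n * g = s n := by
    intro n
    cases n with
    | zero =>
      rw [s0, sub_mul, pj_idem hg, hv2]
    | succ n =>
      rw [ss, mul_assoc, hgv']
  have hpj : ∀ n, PJ (s n) := by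
    intro n
    induction n with
    | zero =>
      apply pj_mk
      · rw [s0]
        have e1 : (g - v * star v) * (g - v * star v) =
            g * g - (g * v) * star v - v * star v * g + v * star v * (v * star v) := by
          noncomm_ring
        rw [e1, pj_idem hg, hgv, hv2, pj_idem hvv]
        abel
      · rw [s0, star_sub, pj_star hg, pj_star hvv]
    | succ n ih =>
      apply pj_mk
      · rw [ss]
        have e1 : v * s n * star v * (v * s n * star v) = v * (s n * (star v * v)) * s n * star v := by
          noncomm_ring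
        rw [e1, hv1, hle, mul_assoc v (s n) (s n), pj_idem ih]
      · rw [ss, star_mul, star_mul, star_star, pj_star ih, mul_assoc]
  have h0v : s 0 * v = 0 := by
    rw [s0, sub_mul, hgv, hvvv, sub_self]
  have horth : ∀ m n, m < n → s m * s n = 0 := by
    intro m
    induction m with
    | zero =>
      intro n hn
      obtain ⟨k, rfl⟩ : ∃ k, n = k + 1 := ⟨n - 1, by omega⟩
      rw [ss]
      have e1 : s 0 * (v * s k * star v) = (s 0 * v) * s k * star v := by noncomm_ring
      rw [e1, h0v, zero_mul, zero_mul]
    | succ m ih =>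
      intro n hn
      obtain ⟨k, rfl⟩ : ∃ k, n = k + 1 := ⟨n - 1, by omega⟩
      rw [ss, ss]
      have e1 : v * s m * star v * (v * s k * star v) = v * (s m * (star v * v)) * s k * star v := by
        noncomm_ring
      rw [e1, hv1, hle, mul_assoc v (s m) (s k), ih k (by omega), mul_zero, zero_mul]
  have horth' : ∀ m n, m ≠ n → s m * s n = 0 := by
    intro m n hmn
    rcases lt_or_gt_of_ne hmn with h | h
    · exact horth m n h
    · have h1 := congrArg star (horth n m h)
      rwa [star_mul, star_zero, pj_star (hpj m), pj_star (hpj n)] at h1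
  have hp0 : s 0 ≠ 0 := by
    rw [s0]
    intro h
    exact hv3 (sub_eq_zero.1 h).symm
  have heqv : ∀ n, Eqv (s 0) (s n) := by
    intro n
    induction n with
    | zero =>
      refine ⟨s 0, ?_, ?_⟩
      · rw [pj_star (hpj 0), pj_idem (hpj 0)]
      · rw [pj_star (hpj 0), pj_idem (hpj 0)]
    | succ n ih =>
      apply eqv_trans (hpj 0) (hpj n) ih
      refine ⟨v * s n, ?_, ?_⟩
      · have e1 : star (v * s n) * (v * s n) = s n * (star v * v) * s n := by
          rw [star_mul, pj_star (hpj n)]; noncomm_ring
        rw [e1, hv1, hle, pj_idem (hpj n)]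
      · have e1 : v * s n * star (v * s n) = v * (s n * s n) * star v := by
          rw [star_mul, pj_star (hpj n)]; noncomm_ring
        rw [e1, pj_idem (hpj n), ss]
  set p : A := s 0 with hp
  have hpP : PJ p := hpj 0
  -- Zorn
  set Sset : Set (Set A) := {F : Set A | (∀ q ∈ F, PJ q ∧ Le q g ∧ Eqv p q) ∧
    ∀ q ∈ F, ∀ q' ∈ F, q ≠ q' → q * q' = 0} with hSset
  have hF0 : Set.range s ∈ Sset := by
    refine ⟨?_, ?_⟩
    · rintro q ⟨n, rfl⟩
      exact ⟨hpj n, hle n, heqv n⟩
    · rintro q ⟨n, rfl⟩ q' ⟨n', rfl⟩ hne
      apply horth'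
      rintro rfl
      exact hne rfl
  obtain ⟨F, hsub, hFmax⟩ := zorn_subset_nonempty Sset (by
    intro c hc hchain _
    refine ⟨⋃₀ c, ⟨?_, ?_⟩, fun t ht => Set.subset_sUnion_of_mem ht⟩
    · rintro q ⟨t, ht, hq⟩
      exact (hc ht).1 q hq
    · rintro q ⟨t, ht, hq⟩ q' ⟨t', ht', hq'⟩ hne
      rcases hchain.total ht ht' with h | h
      · exact (hc ht').2 q (h hq) q' hq' hne
      · exact (hc ht).2 q hq q' (h hq') hne) (Set.range s) hF0
  have hFS : F ∈ Sset := hFmax.prop
  obtain ⟨hF1, hF2⟩ := hFS
  have hpF : p ∈ F := hsub ⟨0, rfl⟩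
  obtain ⟨E, hE⟩ := hSup (↥F) (fun i => i.1) (fun i => (hF1 i.1 i.2).1)
  obtain ⟨hEP, hE1, hE2⟩ := hE
  have hqE : ∀ q ∈ F, q * E = q := fun q hq => hE1 ⟨q, hq⟩
  have hEq : ∀ q ∈ F, E * q = q := fun q hq => le_left (hF1 q hq).1 hEP (hqE q hq)
  have hgE : g * E = E := by
    have h1 := hE2 (1 - g) (fun i => by
      rw [sub_mul, one_mul, le_left (hF1 i.1 i.2).1 hg (hF1 i.1 i.2).2.1, sub_self])
    rw [sub_mul, one_mul, sub_eq_zero] at h1
    exact h1.symm
  have hEg : E * g = E := by
    have := congrArg star hgE
    rwa [star_mul, pj_star hg, pj_star hEP] at this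
  set r : A := g - E with hr
  have hrP : PJ r := by
    apply pj_mk
    · rw [hr]
      have e1 : (g - E) * (g - E) = g * g - g * E - E * g + E * E := by noncomm_ring
      rw [e1, pj_idem hg, hgE, hEg, pj_idem hEP]
      abel
    · rw [hr, star_sub, pj_star hg, pj_star hEP]
  have hrg : r * g = r := by
    rw [hr, sub_mul, pj_idem hg, hEg]
  have hrq : ∀ q ∈ F, r * q = 0 := by
    intro q hq
    rw [hr, sub_mul, le_left (hF1 q hq).1 hg (hF1 q hq).2.1, hEq q hq, sub_self]
  have hsubrp : Sub r p := by
    rcases hCmpO r p hrP hpP (hrq p hpF) with h | h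
    · exact h
    · exfalso
      obtain ⟨w, hw1, hw2⟩ := h
      set p' : A := w * star w with hp'
      have hp'P : PJ p' := final hpP hw1
      have hp'q : ∀ q ∈ F, p' * q = 0 := by
        intro q hq
        rw [← hw2, mul_assoc, hrq q hq, mul_zero]
      have hqp' : ∀ q ∈ F, q * p' = 0 := by
        intro q hq
        have := congrArg star (hp'q q hq)
        rwa [star_mul, star_zero, pj_star hp'P, pj_star (hF1 q hq).1] at this
      have hpp' : Eqv p p' := ⟨w, hw1, rfl⟩
      have hp'0 : p' ≠ 0 := eqv_ne_zero hpp' hp0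
      have hnot : p' ∉ F := by
        intro h
        have := hp'q p' h
        rw [pj_idem hp'P] at this
        exact hp'0 this
      have hins : insert p' F ∈ Sset := by
        refine ⟨?_, ?_⟩
        · rintro q (rfl | hq)
          · refine ⟨hp'P, ?_, hpp'⟩
            show p' * g = p'
            rw [← hw2, mul_assoc, hrg]
          · exact hF1 q hq
        · rintro q (rfl | hq) q' (rfl | hq') hne
          · exact absurd rfl hne
          · exact hp'q q' hq'
          · exact hqp' q hq
          · exact hF2 q hq q' hq' hne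
      exact hnot (hFmax.le_of_ge hins (Set.subset_insert _ _) (Set.mem_insert _ _))
  refine ⟨↥F, fun i => i.1, E, ?_, fun i => (hF1 i.1 i.2).1, ?_, fun i => (hF1 i.1 i.2).2.1, ?_,
    ⟨hEP, hE1, hE2⟩, ?_⟩
  · -- infinite
    apply Infinite.of_injective (fun n : ℕ => (⟨s n, hsub ⟨n, rfl⟩⟩ : ↥F))
    intro m n hmn
    by_contra hne
    have h1 : s m = s n := congrArg Subtype.val hmn
    have h2 := horth' m n hne
    rw [← h1, pj_idem (hpj m)] at h2
    exact eqv_ne_zero (heqv m) hp0 h2
  · intro i j hij
    exact hF2 i.1 i.2 j.1 j.2 (fun h => hij (Subtype.ext h))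
  · intro i j
    exact eqv_trans (hF1 i.1 i.2).1 hpP (eqv_symm (hF1 i.1 i.2).2.2) (hF1 j.1 j.2).2.2
  · intro i
    exact sub_eqv hpP hsubrp (hF1 i.1 i.2).2.2

end Pool.Agent.R456.CL.Inf1
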