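import Pool.Agent.R456.CL.Stm

/-!
# Project CL: St_Inf2 (halving)
-/

set_option autoImplicit false

namespace Pool.Agent.R456.CL.Inf2

open Pool.Agent.R456.CL

universe u

section

variable {A : Type u} [CStarAlgebra A]

theorem idem {p : A} (h : PJ p) : p * p = p := h.isIdempotentElem
theorem sa {p : A} (h : PJ p) : star p = p := h.isSelfAdjoint

theorem mk {p : A} (h1 : p * p = p) (h2 : star p = p) : PJ p := ⟨h1, h2⟩

theorem le_symm {p q : A} (hp : PJ p) (hq : PJ q) (h : p * q = p) : q * p = p := by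
  have := congrArg star h
  rwa [star_mul, sa hp, sa hq] at this

theorem orth_symm {p q : A} (hp : PJ p) (hq : PJ q) (h : p * q = 0) : q * p = 0 := by
  have := congrArg star h
  rwa [star_mul, sa hp, sa hq, star_zero] at this

theorem v_mul {v p : A} (hp : PJ p) (hv : star v * v = p) : v * p = v := by
  have h : star (v * p - v) * (v * p - v) = 0 := by
    rw [star_sub, star_mul, sa hp]
    have e1 : (p * star v - star v) * (v * p - v) =
        p * (star v * v) * p - p * (star v * v) - (star v * v) * p + star v * v := by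
      noncomm_ring
    rw [e1, hv, idem hp, idem hp]
    abel
  exact sub_eq_zero.1 (CStarRing.star_mul_self_eq_zero_iff _ |>.1 h)

theorem p_mul {v p : A} (hp : PJ p) (hv : star v * v = p) : p * star v = star v := by
  have := congrArg star (v_mul hp hv)
  rwa [star_mul, sa hp] at this

theorem final_pj {v p : A} (hp : PJ p) (hv : star v * v = p) : PJ (v * star v) := by
  refine mk ?_ (by simp)
  calc v * star v * (v * star v) = v * (star v * v) * star v := by noncomm_ring
    _ = v * star v := by rw [hv, v_mul hp hv]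

theorem b_mul {v a b : A} (ha : PJ a) (hb : PJ b) (hv : star v * v = a)
    (hb2 : (v * star v) * b = v * star v) : b * v = v := by
  have h1 := le_symm (final_pj ha hv) hb hb2
  have h2 : v * star v * v = v := by rw [mul_assoc, hv, v_mul ha hv]
  calc b * v = b * (v * star v * v) := by rw [h2]
    _ = (b * (v * star v)) * v := by noncomm_ring
    _ = v := by rw [h1, h2]

theorem star_b_mul {v a b : A} (ha : PJ a) (hb : PJ b) (hv : star v * v = a)
    (hb2 : (v * star v) * b = v * star v) : star v * b = star v := by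
  have := congrArg star (b_mul ha hb hv hb2)
  rwa [star_mul, sa hb] at this

theorem Sub.trans {a b c : A} (ha : PJ a) (hb : PJ b) (hc : PJ c) (h1 : Sub a b) (h2 : Sub b c) :
    Sub a c := by
  obtain ⟨v, hv, hvb⟩ := h1
  obtain ⟨w, hw, hwc⟩ := h2
  refine ⟨w * v, ?_, ?_⟩
  · calc star (w * v) * (w * v) = star v * ((star w * w) * v) := by
          rw [star_mul]; noncomm_ring
      _ = a := by rw [hw, b_mul ha hb hv hvb, hv]
  · have h3 := star_b_mul hb hc hw hwc
    calc w * v * star (w * v) * c = w * v * star v * (star w * c) := by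
          rw [star_mul]; noncomm_ring
      _ = w * v * star (w * v) := by rw [h3, star_mul]; noncomm_ring

theorem pj_add {p q : A} (hp : PJ p) (hq : PJ q) (h : p * q = 0) : PJ (p + q) := by
  refine mk ?_ (by rw [star_add, sa hp, sa hq])
  rw [add_mul, mul_add, mul_add, idem hp, idem hq, h, orth_symm hp hq h]
  abel

theorem Sub.add {a b c d : A} (ha : PJ a) (hb : PJ b) (hc : PJ c) (hd : PJ d) (hac : a * c = 0)
    (hbd : b * d = 0) (h1 : Sub a b) (h2 : Sub c d) : Sub (a + c) (b + d) := by
  obtain ⟨v, hv, hvb⟩ := h1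
  obtain ⟨w, hw, hwd⟩ := h2
  have hbv := b_mul ha hb hv hvb
  have hdw := b_mul hc hd hw hwd
  have hvb' := star_b_mul ha hb hv hvb
  have hwd' := star_b_mul hc hd hw hwd
  have hva := v_mul ha hv
  have hwc := v_mul hc hw
  have hva' := p_mul ha hv
  have hwc' := p_mul hc hw
  have e1 : star v * w = 0 := by
    calc star v * w = (star v * b) * (d * w) := by rw [hvb', hdw]
      _ = star v * (b * d) * w := by noncomm_ring
      _ = 0 := by rw [hbd]; simp
  have e2 : star w * v = 0 := by
    have := congrArg star e1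
    simpa using this
  have e3 : v * star w = 0 := by
    calc v * star w = (v * a) * (c * star w) := by rw [hva, hwc']
      _ = v * (a * c) * star w := by noncomm_ring
      _ = 0 := by rw [hac]; simp
  have e4 : w * star v = 0 := by
    have := congrArg star e3
    simpa using this
  refine ⟨v + w, ?_, ?_⟩
  · rw [star_add, add_mul, mul_add, mul_add, e1, e2, hv, hw]
    abel
  · have e5 : (v + w) * star (v + w) = v * star v + w * star w := by
      rw [star_add, add_mul, mul_add, mul_add, e3, e4]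
      abel
    have e6 : v * star v * d = 0 := by
      calc v * star v * d = v * (star v * b) * d := by rw [hvb']
        _ = v * star v * (b * d) := by noncomm_ring
        _ = 0 := by rw [hbd]; simp
    have e7 : w * star w * b = 0 := by
      calc w * star w * b = w * (star w * d) * b := by rw [hwd']
        _ = w * star w * (d * b) := by noncomm_ring
        _ = 0 := by rw [orth_symm hb hd hbd]; simp
    rw [e5, add_mul, mul_add, mul_add, hvb, hwd, e6, e7]
    abel

/-! ### suprema -/

theorem sup_le {ι : Type*} {e : ι → A} {E f : A} (he : ∀ i, PJ (e i)) (hE : IsSup e E)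
    (hf : PJ f) (h : ∀ i, e i * f = e i) : E * f = E := by
  have h1 := hE.2.2 (1 - f) (fun i => by
    rw [sub_mul, one_mul, le_symm (he i) hf (h i), sub_self])
  have h2 : f * E = E := by
    rw [sub_mul, one_mul, sub_eq_zero] at h1
    exact h1.symm
  have := congrArg star h2
  rwa [star_mul, sa hf, sa hE.1] at this

theorem sup_unique {ι : Type*} {e : ι → A} {E F : A} (he : ∀ i, PJ (e i)) (hE : IsSup e E)
    (hF : IsSup e F) : E = F := by
  have h1 := sup_le he hE hF.1 hF.2.1
  have h2 := sup_le he hF hE.1 hE.2.1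
  have h3 := le_symm hF.1 hE.1 h2
  rw [← h1, h3]

theorem sup_sum {ι κ : Type*} {e : ι → A} {f : κ → A} {E F : A} (hE : IsSup e E)
    (hF : IsSup f F) (h : E * F = 0) : IsSup (Sum.elim e f) (E + F) := by
  have h' := orth_symm hE.1 hF.1 h
  refine ⟨pj_add hE.1 hF.1 h, ?_, ?_⟩
  · rintro (i | j)
    · rw [Sum.elim_inl, mul_add, hE.2.1 i]
      have : e i * F = 0 := by rw [← hE.2.1 i, mul_assoc, h, mul_zero]
      rw [this, add_zero]
    · rw [Sum.elim_inr, mul_add, hF.2.1 j]
      have : f j * E = 0 := by rw [← hF.2.1 j, mul_assoc, h', mul_zero]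
      rw [this, zero_add]
  · intro x hx
    rw [mul_add, hE.2.2 x (fun i => hx (Sum.inl i)), hF.2.2 x (fun j => hx (Sum.inr j)), add_zero]

theorem sup_const {r : A} (hr : PJ r) : IsSup (fun _ : PUnit.{u + 1} => r) r :=
  ⟨hr, fun _ => idem hr, fun x hx => hx PUnit.unit⟩

theorem sup_comp {ι κ : Type*} {e : ι → A} {E : A} (φ : κ ≃ ι) (hE : IsSup e E) :
    IsSup (fun k => e (φ k)) E :=
  ⟨hE.1, fun _ => hE.2.1 _, fun x hx => hE.2.2 x (fun i => by
    simpa using hx (φ.symm i))⟩

/-- Orthogonality of suprema. -/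
theorem sup_orth {ι κ : Type*} {s : ι → A} {t : κ → A} {S T : A} (hs : ∀ i, PJ (s i))
    (ht : ∀ k, PJ (t k)) (hS : IsSup s S) (hT : IsSup t T) (h : ∀ i k, s i * t k = 0) :
    S * T = 0 := by
  refine hT.2.2 S (fun k => ?_)
  have h1 : t k * S = 0 := hS.2.2 (t k) (fun i => orth_symm (hs i) (ht k) (h i k))
  exact orth_symm (ht k) hS.1 h1

theorem move (hP : PSup A) (hA : PAddO A) {κ : Type u} {s t : κ → A} {S T : A}
    (hs : ∀ i, PJ (s i)) (ht : ∀ k, PJ (t k)) (hs2 : ∀ i j, i ≠ j → s i * s j = 0)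
    (ht2 : ∀ i j, i ≠ j → t i * t j = 0) (hst : ∀ i k, s i * t k = 0)
    (hsub : ∀ k, Sub (s k) (t k)) (hS : IsSup s S) (hT : IsSup t T) : Sub S T := by
  choose w hw hw2 using hsub
  have hst0 := sup_orth hs ht hS hT hst
  have hfp : ∀ k, PJ (w k * star (w k)) := fun k => final_pj (hs k) (hw k)
  have hft : ∀ k, w k * star (w k) * T = w k * star (w k) := by
    intro k
    rw [← hw2 k, mul_assoc, hT.2.1 k]
  have horth : ∀ i j, i ≠ j → (w i * star (w i)) * (w j * star (w j)) = 0 := by
    intro i j hij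
    calc (w i * star (w i)) * (w j * star (w j))
        = ((w i * star (w i)) * t i) * (t j * (w j * star (w j))) := by
          rw [hw2 i, le_symm (hfp j) (ht j) (hw2 j)]
      _ = (w i * star (w i)) * (t i * t j) * (w j * star (w j)) := by noncomm_ring
      _ = 0 := by rw [ht2 i j hij]; simp
  obtain ⟨F, hF⟩ := hP κ (fun k => w k * star (w k)) hfp
  have hFT := sup_le hfp hF hT.1 hft
  have hSF : S * F = 0 := by
    have h1 := le_symm hF.1 hT.1 hFT
    rw [← h1, ← mul_assoc, hst0, zero_mul]
  have hS' : IsSup (fun k => star (w k) * w k) S := by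
    have : (fun k => star (w k) * w k) = s := funext hw
    rw [this]; exact hS
  obtain ⟨v, hv1, hv2, -⟩ := hA κ w S F (fun i => by rw [hw i]; exact hs i)
    (fun i j hij => by rw [hw i, hw j]; exact hs2 i j hij) horth hS' hF hSF
  exact ⟨v, hv1, by rw [hv2]; exact hFT⟩

theorem key (hP : PSup A) (hA : PAddO A) {ι : Type u} (e : ι ⊕ ι ≃ ι)
    (e1 : PUnit.{u + 1} ⊕ ι ≃ ι) (q : Fin 4 → ι → A) (G : Fin 4 → A) (r : A) (hr : PJ r)
    (hq : ∀ c i, PJ (q c i)) (ho : ∀ c i j, i ≠ j → q c i * q c j = 0)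
    (ho2 : ∀ c d i j, c ≠ d → q c i * q d j = 0) (hrq : ∀ c i, r * q c i = 0)
    (hG : ∀ c, IsSup (q c) (G c)) (heq : ∀ c d i j, Sub (q c i) (q d j))
    (hrs : ∀ c i, Sub r (q c i)) (a b c d : Fin 4) (hab : a ≠ b) (hac : a ≠ c) (had : a ≠ d)
    (hbc : b ≠ c) (hbd : b ≠ d) (hcd : c ≠ d) :
    Sub ((r + (G c + G d)) + (G a + G b)) (G a + G b) := by
  have hGo : ∀ x y, x ≠ y → G x * G y = 0 := fun x y hxy =>
    sup_orth (hq x) (hq y) (hG x) (hG y) (fun i j => ho2 x y i j hxy)
  have hrG : ∀ x, r * G x = 0 := fun x => (hG x).2.2 r (fun i => hrq x i)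
  have hPG : ∀ x, PJ (G x) := fun x => (hG x).1
  have hPcd := pj_add (hPG c) (hPG d) (hGo c d hcd)
  have hPab := pj_add (hPG a) (hPG b) (hGo a b hab)
  have hrcd : r * (G c + G d) = 0 := by rw [mul_add, hrG, hrG, add_zero]
  have hPrcd := pj_add hr hPcd hrcd
  -- step (a)
  let φ : PUnit.{u + 1} ⊕ (ι ⊕ ι) ≃ ι := (Equiv.sumCongr (Equiv.refl _) e).trans e1
  have hA1 : Sub (r + (G c + G d)) (G a) := by
    refine move hP hA (s := Sum.elim (fun _ : PUnit.{u + 1} => r) (Sum.elim (q c) (q d)))
      (t := fun k => q a (φ k)) ?_ (fun k => hq a _) ?_ ?_ ?_ ?_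
      (sup_sum (sup_const hr) (sup_sum (hG c) (hG d) (hGo c d hcd)) hrcd) (sup_comp φ (hG a))
    · rintro (_ | _ | _)
      · exact hr
      · exact hq c _
      · exact hq d _
    · rintro (x | x | x) (y | y | y) hxy
      · exact absurd rfl hxy
      · exact hrq c y
      · exact hrq d y
      · exact orth_symm hr (hq c x) (hrq c x)
      · exact ho c x y (fun h => hxy (by rw [h]))
      · exact ho2 c d x y hcd
      · exact orth_symm hr (hq d x) (hrq d x)
      · exact ho2 d c x y hcd.symm
      · exact ho d x y (fun h => hxy (by rw [h]))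
    · intro i j hij
      exact ho a _ _ (fun h => hij (φ.injective h))
    · rintro (x | x | x) k
      · exact hrq a _
      · exact ho2 c a _ _ hac.symm
      · exact ho2 d a _ _ had.symm
    · rintro (x | x | x)
      · exact hrs a _
      · exact heq c a _ _
      · exact heq d a _ _
  -- step (b)
  have hB1 : Sub (G a + G b) (G c + G d) := by
    refine move hP hA (s := Sum.elim (q a) (q b)) (t := Sum.elim (q c) (q d)) ?_ ?_ ?_ ?_ ?_ ?_
      (sup_sum (hG a) (hG b) (hGo a b hab)) (sup_sum (hG c) (hG d) (hGo c d hcd))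
    · rintro (_ | _)
      · exact hq a _
      · exact hq b _
    · rintro (_ | _)
      · exact hq c _
      · exact hq d _
    · rintro (x | x) (y | y) hxy
      · exact ho a x y (fun h => hxy (by rw [h]))
      · exact ho2 a b x y hab
      · exact ho2 b a x y hab.symm
      · exact ho b x y (fun h => hxy (by rw [h]))
    · rintro (x | x) (y | y) hxy
      · exact ho c x y (fun h => hxy (by rw [h]))
      · exact ho2 c d x y hcd
      · exact ho2 d c x y hcd.symm
      · exact ho d x y (fun h => hxy (by rw [h]))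
    · rintro (x | x) (y | y)
      · exact ho2 a c x y hac
      · exact ho2 a d x y had
      · exact ho2 b c x y hbc
      · exact ho2 b d x y hbd
    · rintro (x | x)
      · exact heq a c _ _
      · exact heq b d _ _
  -- step (c)
  have hC1 : Sub (G c + G d) (G b) := by
    refine move hP hA (s := Sum.elim (q c) (q d)) (t := fun k => q b (e k)) ?_
      (fun k => hq b _) ?_ ?_ ?_ ?_
      (sup_sum (hG c) (hG d) (hGo c d hcd)) (sup_comp e (hG b))
    · rintro (_ | _)
      · exact hq c _
      · exact hq d _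
    · rintro (x | x) (y | y) hxy
      · exact ho c x y (fun h => hxy (by rw [h]))
      · exact ho2 c d x y hcd
      · exact ho2 d c x y hcd.symm
      · exact ho d x y (fun h => hxy (by rw [h]))
    · intro i j hij
      exact ho b _ _ (fun h => hij (e.injective h))
    · rintro (x | x) k
      · exact ho2 c b _ _ hbc.symm
      · exact ho2 d b _ _ hbd.symm
    · rintro (x | x)
      · exact heq c b _ _
      · exact heq d b _ _
  have hD1 := Sub.trans hPab hPcd (hPG b) hB1 hC1
  refine Sub.add hPrcd (hPG a) hPab (hPG b) ?_ (hGo a b hab) hA1 hD1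
  have z1 : G c * (G a + G b) = 0 := by rw [mul_add, hGo c a hac.symm, hGo c b hbc.symm, add_zero]
  have z2 : G d * (G a + G b) = 0 := by rw [mul_add, hGo d a had.symm, hGo d b hbd.symm, add_zero]
  have z3 : r * (G a + G b) = 0 := by rw [mul_add, hrG, hrG, add_zero]
  rw [add_mul, add_mul, z1, z2, z3]
  simp

theorem inf2 (hP : PSup A) (hA : PAddO A) (hI : PInf1 A) : PInf A := by
  intro g hg hinf
  obtain ⟨ι, q, E, hι, hq, ho, hle, heqv, hE, hsub⟩ := hI g hg hinf
  obtain ⟨e⟩ : Nonempty (ι ⊕ ι ≃ ι) := by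
    rw [← Cardinal.eq, Cardinal.mk_sum, Cardinal.lift_id]
    exact Cardinal.add_eq_self (Cardinal.aleph0_le_mk ι)
  obtain ⟨e1⟩ : Nonempty (PUnit.{u + 1} ⊕ ι ≃ ι) := by
    rw [← Cardinal.eq, Cardinal.mk_sum, Cardinal.lift_id, Cardinal.lift_id, Cardinal.mk_punit]
    exact Cardinal.add_eq_right (Cardinal.aleph0_le_mk ι)
      (Cardinal.one_lt_aleph0.le.trans (Cardinal.aleph0_le_mk ι))
  have hEg : E * g = E := sup_le hq hE hg hle
  have hgE := le_symm hE.1 hg hEg
  have hr : PJ (g - E) := by
    refine mk ?_ (by rw [star_sub, sa hg, sa hE.1])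
    rw [sub_mul, mul_sub, mul_sub, idem hg, idem hE.1, hEg, hgE]
    abel
  have hrE : (g - E) * E = 0 := by rw [sub_mul, hgE, idem hE.1, sub_self]
  -- the four injections
  let f4 : Fin 4 → ι → ι := ![fun i => e (Sum.inl (e (Sum.inl i))),
    fun i => e (Sum.inl (e (Sum.inr i))), fun i => e (Sum.inr (e (Sum.inl i))),
    fun i => e (Sum.inr (e (Sum.inr i)))]
  have hinj : ∀ c, Function.Injective (f4 c) := by
    intro c i j h
    fin_cases c <;> simpa [f4] using h
  have hdisj : ∀ c d i j, c ≠ d → f4 c i ≠ f4 d j := by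
    intro c d i j hcd h
    fin_cases c <;> fin_cases d <;> simp [f4] at h hcd
  let Q : Fin 4 → ι → A := fun c i => q (f4 c i)
  have hQ : ∀ c i, PJ (Q c i) := fun c i => hq _
  choose G hG using fun c => hP ι (Q c) (hQ c)
  have hQo : ∀ c i j, i ≠ j → Q c i * Q c j = 0 := fun c i j hij =>
    ho _ _ (fun h => hij (hinj c h))
  have hQo2 : ∀ c d i j, c ≠ d → Q c i * Q d j = 0 := fun c d i j hcd =>
    ho _ _ (hdisj c d i j hcd)
  have hrq : ∀ i, (g - E) * q i = 0 := by
    intro i
    rw [← le_symm (hq i) hE.1 (hE.2.1 i), ← mul_assoc, hrE, zero_mul]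
  have heq' : ∀ i j, Sub (q i) (q j) := by
    intro i j
    obtain ⟨v, hv1, hv2⟩ := heqv i j
    exact ⟨v, hv1, by rw [hv2, idem (hq j)]⟩
  have hGo : ∀ x y, x ≠ y → G x * G y = 0 := fun x y hxy =>
    sup_orth (hQ x) (hQ y) (hG x) (hG y) (fun i j => hQo2 x y i j hxy)
  -- total sup
  have hsum : G 0 + G 1 + (G 2 + G 3) = E := by
    have h1 := sup_sum (sup_sum (hG 0) (hG 1) (hGo 0 1 (by decide)))
      (sup_sum (hG 2) (hG 3) (hGo 2 3 (by decide))) (by
        rw [add_mul, mul_add, mul_add, hGo 0 2 (by decide), hGo 0 3 (by decide),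
          hGo 1 2 (by decide), hGo 1 3 (by decide)]
        simp)
    have h2 := sup_comp (((Equiv.sumCongr e e).trans e)) hE
    refine sup_unique (e := fun k => q (((Equiv.sumCongr e e).trans e) k)) (fun k => hq _) ?_ h2
    convert h1 using 1
    funext k
    rcases k with (k | k) | (k | k) <;> rfl
  have hg4 : g = (g - E) + (G 2 + G 3) + (G 0 + G 1) := by
    rw [← hsum]; abel
  have hg4' : g = (g - E) + (G 0 + G 1) + (G 2 + G 3) := by
    rw [← hsum]; abel
  have k1 := key hP hA e e1 Q G (g - E) hr hQ hQo hQo2 (fun c i => hrq _) hG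
    (fun c d i j => heq' _ _) (fun c i => hsub _) 0 1 2 3 (by decide) (by decide) (by decide)
    (by decide) (by decide) (by decide)
  have k2 := key hP hA e e1 Q G (g - E) hr hQ hQo hQo2 (fun c i => hrq _) hG
    (fun c d i j => heq' _ _) (fun c i => hsub _) 2 3 0 1 (by decide) (by decide) (by decide)
    (by decide) (by decide) (by decide)
  rw [← hg4] at k1
  rw [← hg4'] at k2
  obtain ⟨v, hv1, hv2⟩ := k1
  obtain ⟨w, hw1, hw2⟩ := k2
  have hP01 := pj_add (hG 0).1 (hG 1).1 (hGo 0 1 (by decide))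
  have hP23 := pj_add (hG 2).1 (hG 3).1 (hGo 2 3 (by decide))
  have hGg : ∀ c, G c * g = G c := fun c => sup_le (hQ c) (hG c) hg (fun i => hle _)
  have h01g : (G 0 + G 1) * g = G 0 + G 1 := by rw [add_mul, hGg, hGg]
  have h23g : (G 2 + G 3) * g = G 2 + G 3 := by rw [add_mul, hGg, hGg]
  have h0123 : (G 0 + G 1) * (G 2 + G 3) = 0 := by
    rw [add_mul, mul_add, mul_add, hGo 0 2 (by decide), hGo 0 3 (by decide),
      hGo 1 2 (by decide), hGo 1 3 (by decide)]
    simp
  have hpv := final_pj hg hv1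
  have hpw := final_pj hg hw1
  refine ⟨v * star v, w * star w, hpv, hpw, ?_, ?_, ?_, ⟨v, hv1, rfl⟩, ⟨w, hw1, rfl⟩⟩
  · calc v * star v * (w * star w)
        = (v * star v * (G 0 + G 1)) * ((G 2 + G 3) * (w * star w)) := by
          rw [hv2, le_symm hpw hP23 hw2]
      _ = v * star v * ((G 0 + G 1) * (G 2 + G 3)) * (w * star w) := by noncomm_ring
      _ = 0 := by rw [h0123]; simp
  · change v * star v * g = v * star v
    rw [← hv2, mul_assoc, h01g]
  · change w * star w * g = w * star w
    rw [← hw2, mul_assoc, h23g]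

end

theorem inf2_ok : St_Inf2.{u} := fun _ _ hP hA hI => inf2 hP hA hI

end Pool.Agent.R456.CL.Inf2
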