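import Pool.Agent.R456.CL.Stm

/-! # Project CL: left and right projections -/

set_option autoImplicit false

namespace Pool.Agent.R456.CL.LR

universe u

variable {A : Type u} [CStarAlgebra A]

/-- the data attached to a projection commuting with `a` on which `a` is invertible -/
def Good (a k : A) : Prop :=
  IsStarProjection k ∧ k ≠ 0 ∧ k * a = a * k ∧
    ∃ s : A, k * s = s ∧ s * k = s ∧ star s = s ∧ s * s * a = k ∧ a * (s * s) = k ∧ s * a * s = k

/-- the families used in Zorn's lemma -/
def Fam (a : A) : Set (Set A) :=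
  {K | (∀ k ∈ K, Good a k) ∧ ∀ k ∈ K, ∀ k' ∈ K, k ≠ k' → k * k' = 0}

theorem fam_max (a : A) : ∃ K, Maximal (fun K => K ∈ Fam a) K := by
  refine zorn_subset (Fam a) fun c hc hch => ⟨⋃₀ c, ⟨?_, ?_⟩, fun s hs => Set.subset_sUnion_of_mem hs⟩
  · rintro k ⟨s, hs, hk⟩
    exact (hc hs).1 k hk
  · rintro k ⟨s, hs, hk⟩ k' ⟨s', hs', hk'⟩ hne
    rcases hch.total hs hs' with h | h
    · exact (hc hs').2 k (h hk) k' hk' hne
    · exact (hc hs).2 k hk k' (h hk') hne

theorem lr_ok : St_LR.{u} := by
  intro A _ hcut hsup hadd x
  obtain ⟨a, ha⟩ : ∃ a : A, a = star x * x := ⟨_, rfl⟩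
  have hsa : star a = a := by rw [ha, star_mul, star_star]
  obtain ⟨K, hK⟩ := fam_max a
  have hKm : K ∈ Fam a := hK.prop
  have hgood : ∀ i : K, Good a i.1 := fun i => hKm.1 i.1 i.2
  choose s hs1 hs2 hs3 hs4 hs5 hs6 using fun i : K => (hgood i).2.2.2
  have hp : ∀ i : K, IsStarProjection i.1 := fun i => (hgood i).1
  have hcomm : ∀ i : K, i.1 * a = a * i.1 := fun i => (hgood i).2.2.1
  have horth : ∀ i j : K, i ≠ j → i.1 * j.1 = 0 := fun i j hij =>
    hKm.2 i.1 i.2 j.1 j.2 fun h => hij (Subtype.ext h)
  obtain ⟨r, hr⟩ := hsup K (fun i => i.1) hp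
  have hrp : IsStarProjection r := hr.1
  have hrs : star r = r := hrp.isSelfAdjoint
  have hrr : r * r = r := hrp.isIdempotentElem
  have hkr : ∀ i : K, i.1 * r = i.1 := hr.2.1
  have hks : ∀ i : K, star i.1 = i.1 := fun i => (hp i).isSelfAdjoint
  have hrk : ∀ i : K, r * i.1 = i.1 := by
    intro i
    have h := congrArg star (hkr i)
    rwa [star_mul, hrs, hks] at h
  -- `r` commutes with `a`
  have h1 : (1 - r) * a * r = 0 := by
    refine hr.2.2 _ fun i => ?_
    rw [mul_assoc, ← hcomm i, ← mul_assoc, sub_mul, one_mul, hrk i, sub_self, zero_mul]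
  have h2 : a * r = r * a * r := by
    rw [sub_mul, sub_mul, one_mul, sub_eq_zero] at h1
    exact h1
  have h3 : r * a = r * a * r := by
    have h := congrArg star h2
    rw [star_mul, star_mul, star_mul, hrs, hsa, ← mul_assoc] at h
    exact h
  have hra : r * a = a * r := h3.trans h2.symm
  -- `x r = x`
  have hxr : x * r = x := by
    by_contra hne
    set y : A := x * (1 - r) with hy
    have hy0 : y ≠ 0 := by
      intro h
      rw [hy, mul_sub, mul_one, sub_eq_zero] at h
      exact hne h.symm
    have hc1 : a * (1 - r) = (1 - r) * a := by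
      rw [mul_sub, sub_mul, one_mul, mul_one, hra]
    have hc2 : (1 - r) * (1 - r) = 1 - r := by
      rw [mul_sub, mul_one, sub_mul, one_mul, hrr, sub_self, sub_zero]
    have hc3 : r * (1 - r) = 0 := by rw [mul_sub, mul_one, hrr, sub_self]
    have hyy : star y * y = (1 - r) * a := by
      rw [hy, star_mul, star_sub, star_one, hrs]
      calc (1 - r) * star x * (x * (1 - r)) = (1 - r) * (a * (1 - r)) := by
            rw [ha]; simp only [mul_assoc]
        _ = (1 - r) * (1 - r) * a := by rw [hc1, mul_assoc]
        _ = (1 - r) * a := by rw [hc2]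
    have hyy' : star y * y = a * (1 - r) := by
      rw [hyy, hc1]
    obtain ⟨k0, s0, hk0, t1, t2, t3, t4, t5, t6, t7, t8⟩ := hcut y (‖y‖ / 2)
      (by have := norm_pos_iff.2 hy0; linarith)
    have hk00 : k0 ≠ 0 := by
      rintro rfl
      rw [sub_zero, mul_one] at t8
      have := norm_pos_iff.2 hy0
      linarith
    have hrk0 : r * k0 = 0 := by
      calc r * k0 = r * ((1 - r) * a * (s0 * s0)) := by rw [← hyy, t6]
        _ = r * (1 - r) * (a * (s0 * s0)) := by simp only [mul_assoc]
        _ = 0 := by rw [hc3, zero_mul]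
    have hk0s : star k0 = k0 := hk0.isSelfAdjoint
    have hk0r : k0 * r = 0 := by
      have h := congrArg star hrk0
      rwa [star_mul, hrs, hk0s, star_zero] at h
    have hk1 : (1 - r) * k0 = k0 := by rw [sub_mul, one_mul, hrk0, sub_zero]
    have hk2 : k0 * (1 - r) = k0 := by rw [mul_sub, mul_one, hk0r, sub_zero]
    have hs1' : (1 - r) * s0 = s0 := by rw [← t1, ← mul_assoc, hk1]
    have hs2' : s0 * (1 - r) = s0 := by rw [← t2, mul_assoc, hk2]
    have hg : Good a k0 := by
      refine ⟨hk0, hk00, ?_, s0, t1, t2, t3, ?_, ?_, ?_⟩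
      · calc k0 * a = k0 * ((1 - r) * a) := by rw [← mul_assoc, hk2]
          _ = star y * y * k0 := by rw [← hyy, t4]
          _ = a * k0 := by rw [hyy', mul_assoc, hk1]
      · calc s0 * s0 * a = s0 * (s0 * (1 - r)) * a := by rw [hs2']
          _ = s0 * s0 * ((1 - r) * a) := by simp only [mul_assoc]
          _ = k0 := by rw [← hyy, t5]
      · calc a * (s0 * s0) = a * (((1 - r) * s0) * s0) := by rw [hs1']
          _ = a * (1 - r) * (s0 * s0) := by simp only [mul_assoc]
          _ = k0 := by rw [← hyy', t6]
      · calc s0 * a * s0 = s0 * (1 - r) * a * s0 := by rw [hs2']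
          _ = s0 * ((1 - r) * a) * s0 := by simp only [mul_assoc]
          _ = k0 := by rw [← hyy, t7]
    have hfam : insert k0 K ∈ Fam a := by
      refine ⟨?_, ?_⟩
      · rintro k (rfl | hk)
        · exact hg
        · exact hKm.1 k hk
      · rintro k (rfl | hk) k' (rfl | hk') hne'
        · exact absurd rfl hne'
        · have h := hrk ⟨k', hk'⟩
          simp only at h
          rw [← h, ← mul_assoc, hk0r, zero_mul]
        · have h := hkr ⟨k, hk⟩
          simp only at h
          rw [← h, mul_assoc, hrk0, mul_zero]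
        · exact hKm.2 k hk k' hk' hne'
    have hmem : k0 ∈ K := hK.2 hfam (Set.subset_insert k0 K) (Set.mem_insert k0 K)
    have := hkr ⟨k0, hmem⟩
    simp only at this
    rw [hk0r] at this
    exact hk00 this.symm
  -- the partial isometries
  have hww : ∀ i : K, star (x * s i) * (x * s i) = i.1 := by
    intro i
    rw [star_mul, hs3 i]
    calc s i * star x * (x * s i) = s i * a * s i := by rw [ha]; noncomm_ring
      _ = i.1 := hs6 i
  have hwk : ∀ i : K, x * s i * i.1 = x * s i := by
    intro i
    rw [mul_assoc, hs2 i]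
  have hcross : ∀ i j : K, i ≠ j → star (x * s i) * (x * s j) = 0 := by
    intro i j hij
    rw [star_mul, hs3 i]
    calc s i * star x * (x * s j) = s i * a * s j := by rw [ha]; noncomm_ring
      _ = (s i * i.1) * a * (j.1 * s j) := by rw [hs2 i, hs1 j]
      _ = s i * (i.1 * a) * (j.1 * s j) := by simp only [mul_assoc]
      _ = s i * a * (i.1 * j.1) * s j := by rw [hcomm i]; simp only [mul_assoc]
      _ = 0 := by rw [horth i j hij, mul_zero, zero_mul]
  have hfp : ∀ i : K, IsStarProjection (x * s i * star (x * s i)) := by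
    intro i
    refine ⟨?_, ?_⟩
    · change x * s i * star (x * s i) * (x * s i * star (x * s i)) = x * s i * star (x * s i)
      calc x * s i * star (x * s i) * (x * s i * star (x * s i))
          = x * s i * (star (x * s i) * (x * s i)) * star (x * s i) := by simp only [mul_assoc]
        _ = x * s i * star (x * s i) := by rw [hww i, hwk i]
    · change star (x * s i * star (x * s i)) = x * s i * star (x * s i)
      rw [star_mul, star_star]
  obtain ⟨l, hl⟩ := hsup K (fun i => x * s i * star (x * s i)) hfp
  have hlp : IsStarProjection l := hl.1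
  have hls : star l = l := hlp.isSelfAdjoint
  have hE : IsSup (fun i : K => star (x * s i) * (x * s i)) r := by
    have : (fun i : K => star (x * s i) * (x * s i)) = fun i => i.1 := funext hww
    rw [this]
    exact hr
  obtain ⟨v, hv1, hv2, hv3⟩ := hadd K (fun i => x * s i) r l
    (fun i => by rw [hww i]; exact hp i)
    (fun i j hij => by rw [hww i, hww j]; exact horth i j hij)
    (fun i j hij => by
      calc x * s i * star (x * s i) * (x * s j * star (x * s j))
          = x * s i * (star (x * s i) * (x * s j)) * star (x * s j) := by simp only [mul_assoc]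
        _ = 0 := by rw [hcross i j hij, mul_zero, zero_mul])
    hE hl
  have hlw : ∀ i : K, l * (x * s i) = x * s i := by
    intro i
    have h := congrArg star (hl.2.1 i)
    simp only at h
    rw [star_mul, hls, star_mul, star_star] at h
    calc l * (x * s i) = l * (x * s i * (star (x * s i) * (x * s i))) := by rw [hww i, hwk i]
      _ = l * (x * s i * star (x * s i)) * (x * s i) := by simp only [mul_assoc]
      _ = x * s i * star (x * s i) * (x * s i) := by rw [h]
      _ = x * s i * (star (x * s i) * (x * s i)) := by simp only [mul_assoc]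
      _ = x * s i := by rw [hww i, hwk i]
  refine ⟨v, r, l, hrp, hlp, hv1, hv2, hxr, ?_, ?_, ?_⟩
  · have h : (1 - l) * x * r = 0 := by
      refine hr.2.2 _ fun i => ?_
      calc (1 - l) * x * i.1 = (1 - l) * x * (s i * s i * a) := by rw [hs4 i]
        _ = (1 - l) * (x * s i) * (s i * a) := by simp only [mul_assoc]
        _ = 0 := by rw [sub_mul, one_mul, hlw i, sub_self, zero_mul]
    rw [mul_assoc, hxr, sub_mul, one_mul, sub_eq_zero] at h
    exact h.symm
  · intro y hxy
    have hky : ∀ i : K, i.1 * y = 0 := by
      intro i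
      calc i.1 * y = s i * s i * a * y := by rw [hs4 i]
        _ = s i * s i * star x * (x * y) := by rw [ha]; simp only [mul_assoc]
        _ = 0 := by rw [hxy, mul_zero]
    have h := hr.2.2 (star y) fun i => by
      have h' := congrArg star (hky i)
      rwa [star_mul, star_zero, hks] at h'
    have h' := congrArg star h
    rwa [star_mul, star_star, hrs, star_zero] at h'
  · intro y hyx
    refine hl.2.2 y fun i => ?_
    calc y * (x * s i * star (x * s i)) = y * x * (s i * star (x * s i)) := by
          simp only [mul_assoc]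
      _ = 0 := by rw [hyx, zero_mul]

end Pool.Agent.R456.CL.LR
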