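import Pool.Agent.R456.CL.Stm

/-!
# Project CL, module Main3 (helper235)
-/

set_option autoImplicit false

namespace Pool.Agent.R456.CL.Main3

open Pool.Agent.R456.CL

universe u

variable {A : Type u} [CStarAlgebra A]

theorem pj_norm {p : A} (hp : PJ p) : ‖p‖ ≤ 1 := by
  have h := CStarRing.norm_star_mul_self (x := p)
  rw [hp.isSelfAdjoint.star_eq, hp.isIdempotentElem.eq] at h
  by_contra hc
  push Not at hc
  nlinarith [norm_nonneg p]

theorem mul_of_initial {v p : A} (hp : PJ p) (h : star v * v = p) : v * p = v := by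
  have hs := hp.isSelfAdjoint.star_eq
  have hi := hp.isIdempotentElem.eq
  have : star (v * p - v) * (v * p - v) = 0 := by
    rw [star_sub, star_mul, hs]
    have : (p * star v - star v) * (v * p - v)
        = p * (star v * v) * p - p * (star v * v) - (star v * v) * p + star v * v := by noncomm_ring
    rw [this, h]
    simp [hi]
  have h0 := CStarRing.norm_star_mul_self (x := v * p - v)
  rw [this, norm_zero] at h0
  have : ‖v * p - v‖ = 0 := by
    by_contra hc
    exact hc (mul_self_eq_zero.mp h0.symm)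
  exact sub_eq_zero.mp (norm_eq_zero.mp this)

theorem pj_range {v p : A} (hp : PJ p) (h : star v * v = p) : PJ (v * star v) := by
  refine ⟨?_, ?_⟩
  · show v * star v * (v * star v) = v * star v
    calc v * star v * (v * star v) = v * (star v * v) * star v := by noncomm_ring
      _ = v * p * star v := by rw [h]
      _ = v * star v := by rw [mul_of_initial hp h]
  · show star (v * star v) = v * star v
    rw [star_mul, star_star]

theorem exists_invsqrt (x e : A) (hx : star x = x) (hn : ‖x‖ < 1) (hc : Commute x e) :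
    ∃ h : A, star h = h ∧ Commute h e ∧ h * (1 - x) * h = 1 := by
  have hsa : IsSelfAdjoint (1 - x) := by
    show star (1 - x) = 1 - x
    rw [star_sub, star_one, hx]
  have hpos : ∀ t ∈ spectrum ℝ (1 - x), 0 < t := by
    intro t ht
    have h1 : (1 : ℝ) - t ∈ spectrum ℝ x := by
      rw [spectrum.mem_iff] at ht ⊢
      intro hu
      apply ht
      have : algebraMap ℝ A t - (1 - x) = -(algebraMap ℝ A (1 - t) - x) := by
        rw [map_sub, map_one]; abel
      rw [this]
      exact hu.neg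
    have h2 : ‖(1 : ℝ) - t‖ ≤ ‖x‖ * ‖(1 : A)‖ := spectrum.norm_le_norm_mul_of_mem h1
    have h3 : ‖(1 : A)‖ ≤ 1 := pj_norm ⟨mul_one 1, star_one A⟩
    have h4 : ‖(1 : ℝ) - t‖ < 1 := by
      refine lt_of_le_of_lt (h2.trans ?_) hn
      exact mul_le_of_le_one_right (norm_nonneg _) h3
    rw [Real.norm_eq_abs, abs_lt] at h4
    linarith [h4.2]
  have hcont : ContinuousOn (fun t : ℝ => (√t)⁻¹) (spectrum ℝ (1 - x)) := by
    apply ContinuousOn.inv₀
    · exact Real.continuous_sqrt.continuousOn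
    · intro t ht
      exact (Real.sqrt_pos.mpr (hpos t ht)).ne'
  refine ⟨cfc (fun t : ℝ => (√t)⁻¹) (1 - x), ?_, ?_, ?_⟩
  · exact (cfc_predicate (fun t : ℝ => (√t)⁻¹) (1 - x) : IsSelfAdjoint _)
  · apply Commute.cfc_real
    exact (Commute.one_left e).sub_left hc
  · have h5 : cfc (fun t : ℝ => (√t)⁻¹) (1 - x) * (1 - x)
        = cfc (fun t : ℝ => (√t)⁻¹ * t) (1 - x) := by
      conv_lhs => rw [show (1 - x) = cfc (fun t : ℝ => t) (1 - x) from (cfc_id' ℝ (1 - x)).symm]
      rw [cfc_mul (fun t : ℝ => (√t)⁻¹) (fun t : ℝ => t) (1 - x) hcont continuousOn_id]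
      rw [cfc_id' ℝ (1 - x)]
    rw [h5, ← cfc_mul (fun t : ℝ => (√t)⁻¹ * t) (fun t : ℝ => (√t)⁻¹) (1 - x)
      (hcont.mul continuousOn_id) hcont]
    rw [cfc_congr (g := fun _ => (1 : ℝ))]
    · exact cfc_one ℝ (1 - x)
    · intro t ht
      have h6 := hpos t ht
      have h7 := Real.sqrt_pos.mpr h6
      have h8 := Real.mul_self_sqrt h6.le
      field_simp
      nlinarith

theorem range_mul {v p q : A} (hp : PJ p) (hq : PJ q) (h : star v * v = p)
    (h2 : (v * star v) * q = v * star v) : q * v = v := by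
  have h3 : q * (v * star v) = v * star v := by
    have := congrArg star h2
    simpa [star_mul, hq.isSelfAdjoint.star_eq, mul_assoc] using this
  calc q * v = q * (v * p) := by rw [mul_of_initial hp h]
    _ = q * (v * star v) * v := by rw [← h]; noncomm_ring
    _ = v * (star v * v) := by rw [h3]; noncomm_ring
    _ = v := by rw [h, mul_of_initial hp h]

theorem le_symm {p q : A} (hp : PJ p) (hq : PJ q) (h : Le p q) : q * p = p := by
  have := congrArg star h
  simpa [star_mul, hq.isSelfAdjoint.star_eq, hp.isSelfAdjoint.star_eq] using this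

theorem pj_sub {p q : A} (hp : PJ p) (hq : PJ q) (h : Le p q) : PJ (q - p) := by
  refine ⟨?_, ?_⟩
  · show (q - p) * (q - p) = q - p
    have h1 := le_symm hp hq h
    have h2 : p * q = p := h
    have : (q - p) * (q - p) = q * q - q * p - p * q + p * p := by noncomm_ring
    rw [this, h1, h2, hq.isIdempotentElem.eq, hp.isIdempotentElem.eq]
    abel
  · show star (q - p) = q - p
    rw [star_sub, hq.isSelfAdjoint.star_eq, hp.isSelfAdjoint.star_eq]

theorem keyE {g e s : A} (hg : PJ g) (he : PJ e) (hs : PJ s) (hge : Sub g e) (heg : Le e g)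
    (hn : ‖e * (g - s)‖ < 1) : Sub g s := by
  have hse := he.isSelfAdjoint.star_eq
  have hie := he.isIdempotentElem.eq
  have hss := hs.isSelfAdjoint.star_eq
  have his := hs.isIdempotentElem.eq
  have heg' : e * g = e := heg
  have hege : e * g * e = e := by rw [heg', hie]
  obtain ⟨x, hx⟩ : ∃ x, x = e * (g - s) * e := ⟨_, rfl⟩
  have hx1 : star x = x := by
    rw [hx, star_mul, star_mul, star_sub, hse, hg.isSelfAdjoint.star_eq, hss, mul_assoc]
  have hx2 : ‖x‖ < 1 := by
    refine lt_of_le_of_lt ?_ hn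
    rw [hx]
    exact (norm_mul_le _ _).trans (mul_le_of_le_one_right (norm_nonneg _) (pj_norm he))
  have hex : e * x = x := by rw [hx, ← mul_assoc, ← mul_assoc, hie]
  have hxe : x * e = x := by rw [hx, mul_assoc, hie]
  have hx3 : e * s * e = e * (1 - x) := by
    rw [mul_sub, mul_one, hex, hx]
    have : e * (g - s) * e = e * g * e - e * s * e := by noncomm_ring
    rw [this, hege]; abel
  obtain ⟨h, h1, h2, h3⟩ := exists_invsqrt x e hx1 hx2 (by
    show x * e = e * x
    rw [hex, hxe])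
  have h2' : h * e = e * h := h2
  obtain ⟨v, hv1, hv2⟩ := hge
  have hev : e * v = v := range_mul hg he hv1 hv2
  refine ⟨s * e * h * v, ?_, ?_⟩
  · calc star (s * e * h * v) * (s * e * h * v)
        = star v * ((h * e) * (s * s) * e * h) * v := by
          rw [star_mul, star_mul, star_mul, hss, hse, h1]; noncomm_ring
      _ = star v * (h * (e * s * e) * h) * v := by rw [his]; noncomm_ring
      _ = star v * ((h * e) * (1 - x) * h) * v := by rw [hx3]; noncomm_ring
      _ = star v * (e * (h * (1 - x) * h)) * v := by rw [h2']; noncomm_ring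
      _ = star v * (e * v) := by rw [h3]; noncomm_ring
      _ = g := by rw [hev, hv1]
  · rw [star_mul, star_mul, star_mul, hss, hse, h1]
    have : s * e * h * v * (star v * (h * (e * s))) * s
        = s * e * h * v * (star v * (h * (e * (s * s)))) := by noncomm_ring
    rw [this, his]

theorem norm_two {g w : A} (hg : PJ g) (h : star w * w = (2 : ℂ) • g) : ‖w‖ * ‖w‖ ≤ 2 := by
  have h1 := CStarRing.norm_star_mul_self (x := w)
  rw [← h1, h, norm_smul]
  have := pj_norm hg
  simp only [Complex.norm_ofNat]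
  linarith

theorem pair_bound {g a a0 pi pj : A} {li lj δ : ℝ} (hg : PJ g) (hpi : PJ pi) (hpj : PJ pj)
    (hij : pi * pj = 0) (hig : Le pi g) (hjg : Le pj g) (hsi : Sub g pi) (hsj : Sub g pj)
    (hai : a0 * pi = (li : ℂ) • pi) (haj : a0 * pj = (lj : ℂ) • pj) (_ : 0 < δ)
    (hn : ‖a - a0‖ ≤ δ)
    (hs : ∀ e : A, PJ e → Le e g → ∃ c : A, PJ c ∧ Le c g ∧ ¬ Sub g c ∧
      ‖(g - e) * a * e * (g - c)‖ ≤ δ) : |li - lj| ≤ 4 * δ := by
  obtain ⟨v, hv1, hv2⟩ := hsi
  obtain ⟨v', hv1', hv2'⟩ := hsj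
  have hvp : pi * v = v := range_mul hg hpi hv1 hv2
  have hvp' : pj * v' = v' := range_mul hg hpj hv1' hv2'
  have hji : pj * pi = 0 := by
    have := congrArg star hij
    simpa [star_mul, hpi.isSelfAdjoint.star_eq, hpj.isSelfAdjoint.star_eq] using this
  have hgv : g * v = v := by
    rw [← hvp, ← mul_assoc, le_symm hpi hg hig]
  have hgv' : g * v' = v' := by
    rw [← hvp', ← mul_assoc, le_symm hpj hg hjg]
  have hvg : v * g = v := mul_of_initial hg hv1
  have hvg' : v' * g = v' := mul_of_initial hg hv1'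
  have c1 : star v * v' = 0 := by
    have : star v = star v * pi := by
      have := congrArg star hvp
      rw [star_mul, hpi.isSelfAdjoint.star_eq] at this
      exact this.symm
    rw [this, ← hvp', mul_assoc, ← mul_assoc pi, hij, zero_mul, mul_zero]
  have c2 : star v' * v = 0 := by
    have := congrArg star c1
    simpa [star_mul] using this
  have hav : a0 * v = (li : ℂ) • v := by
    rw [← hvp, ← mul_assoc, hai, smul_mul_assoc]
  have hav' : a0 * v' = (lj : ℂ) • v' := by
    rw [← hvp', ← mul_assoc, haj, smul_mul_assoc]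
  obtain ⟨w, hw⟩ : ∃ w, w = v + v' := ⟨_, rfl⟩
  obtain ⟨w', hw'⟩ : ∃ w', w' = v - v' := ⟨_, rfl⟩
  have ww : star w * w = (2 : ℂ) • g := by
    rw [hw, star_add, mul_add, add_mul, add_mul, hv1, hv1', c1, c2, two_smul]
    abel
  have ww' : star w' * w' = (2 : ℂ) • g := by
    rw [hw', star_sub, mul_sub, sub_mul, sub_mul, hv1, hv1', c1, c2, two_smul]
    abel
  have hwg : w * g = w := by rw [hw, add_mul, hvg, hvg']
  have hgw : g * w = w := by rw [hw, mul_add, hgv, hgv']
  have hgsw : g * star w = star w := by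
    have := congrArg star hwg
    simpa [star_mul, hg.isSelfAdjoint.star_eq] using this
  obtain ⟨e, he⟩ : ∃ e : A, e = (1 / 2 : ℂ) • (w * star w) := ⟨_, rfl⟩
  have hsc : star (1 / 2 : ℂ) = 1 / 2 := by
    simp
  have hePJ : PJ e := by
    refine ⟨?_, ?_⟩
    · show e * e = e
      rw [he]
      calc (1 / 2 : ℂ) • (w * star w) * ((1 / 2 : ℂ) • (w * star w))
          = ((1 / 2 : ℂ) * (1 / 2 : ℂ)) • (w * (star w * w) * star w) := by
            rw [smul_mul_smul_comm]; congr 1; noncomm_ring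
        _ = ((1 / 2 : ℂ) * (1 / 2 : ℂ) * 2) • (w * g * star w) := by
            rw [ww, mul_smul_comm, smul_mul_assoc, smul_smul]
        _ = (1 / 2 : ℂ) • (w * star w) := by rw [hwg]; norm_num
    · show star e = e
      rw [he, star_smul, star_mul, star_star, hsc]
  have hew : e * w = w := by
    rw [he, smul_mul_assoc, mul_assoc, ww, mul_smul_comm, smul_smul, hwg]; norm_num
  have heg : Le e g := by
    show e * g = e
    have : star w * g = star w := by
      have := congrArg star hgw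
      simpa [star_mul, hg.isSelfAdjoint.star_eq] using this
    rw [he, smul_mul_assoc, mul_assoc, this]
  have hsube : Sub g e := by
    have hsq : ((√2)⁻¹ : ℝ) * (√2)⁻¹ = 1 / 2 := by
      rw [← mul_inv, Real.mul_self_sqrt (by norm_num)]; norm_num
    have hsq' : (((√2)⁻¹ : ℝ) : ℂ) * (((√2)⁻¹ : ℝ) : ℂ) = 1 / 2 := by
      rw [← Complex.ofReal_mul, hsq]; norm_num
    have hst : star (((√2)⁻¹ : ℝ) : ℂ) = (((√2)⁻¹ : ℝ) : ℂ) := by
      exact Complex.conj_ofReal _
    have hst' : star ((((√2)⁻¹ : ℝ) : ℂ) • w) = (((√2)⁻¹ : ℝ) : ℂ) • star w := by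
      rw [star_smul, hst]
    refine ⟨(((√2)⁻¹ : ℝ) : ℂ) • w, ?_, ?_⟩
    · rw [hst', smul_mul_smul_comm, hsq', ww, smul_smul]; norm_num
    · rw [hst', smul_mul_smul_comm, hsq', ← he, hePJ.isIdempotentElem.eq]
  obtain ⟨c, hc1, hc2, hc3, hc4⟩ := hs e hePJ heg
  by_contra hcon
  push Not at hcon
  apply hc3
  apply keyE hg hePJ hc1 hsube heg
  -- the norm bound
  have ne : ‖e‖ ≤ 1 := pj_norm hePJ
  have nge : ‖g - e‖ ≤ 1 := pj_norm (pj_sub hePJ hg heg)
  have ngc : ‖g - c‖ ≤ 1 := pj_norm (pj_sub hc1 hg hc2)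
  have b1 : ‖(g - e) * a0 * e * (g - c)‖ ≤ 2 * δ := by
    have : (g - e) * a0 * e * (g - c) = (g - e) * a * e * (g - c)
        - (g - e) * (a - a0) * e * (g - c) := by noncomm_ring
    rw [this]
    have h3 : ‖(g - e) * (a - a0) * e * (g - c)‖ ≤ δ := by
      calc ‖(g - e) * (a - a0) * e * (g - c)‖
          ≤ ‖(g - e) * (a - a0) * e‖ * ‖g - c‖ := norm_mul_le _ _
        _ ≤ ‖(g - e) * (a - a0) * e‖ := mul_le_of_le_one_right (norm_nonneg _) ngc
        _ ≤ ‖(g - e) * (a - a0)‖ * ‖e‖ := norm_mul_le _ _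
        _ ≤ ‖(g - e) * (a - a0)‖ := mul_le_of_le_one_right (norm_nonneg _) ne
        _ ≤ ‖g - e‖ * ‖a - a0‖ := norm_mul_le _ _
        _ ≤ ‖a - a0‖ := mul_le_of_le_one_left (norm_nonneg _) nge
        _ ≤ δ := hn
    calc ‖(g - e) * a * e * (g - c) - (g - e) * (a - a0) * e * (g - c)‖
        ≤ ‖(g - e) * a * e * (g - c)‖ + ‖(g - e) * (a - a0) * e * (g - c)‖ := norm_sub_le _ _
      _ ≤ 2 * δ := by linarith
  have b2 : (g - e) * a0 * w = (((li - lj) / 2 : ℝ) : ℂ) • w' := by
    have h4 : a0 * w = (li : ℂ) • v + (lj : ℂ) • v' := by rw [hw, mul_add, hav, hav']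
    have h5 : g * (a0 * w) = a0 * w := by
      rw [h4, mul_add, mul_smul_comm, mul_smul_comm, hgv, hgv']
    have h6 : star w * (a0 * w) = ((li : ℂ) + (lj : ℂ)) • g := by
      rw [h4, hw, star_add, mul_add, add_mul, add_mul, mul_smul_comm, mul_smul_comm, mul_smul_comm,
        mul_smul_comm, hv1, hv1', c1, c2, add_smul]
      simp
    have h7 : e * (a0 * w) = (((li : ℂ) + (lj : ℂ)) / 2) • w := by
      rw [he, smul_mul_assoc, mul_assoc, h6, mul_smul_comm, smul_smul, hwg]
      congr 1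
      ring
    rw [mul_assoc, sub_mul, h5, h7, h4, hw, hw']
    push_cast
    module
  have b3 : (g - e) * a0 * e * (g - c)
      = (((li - lj) / 4 : ℝ) : ℂ) • (w' * (star w * (g - c))) := by
    calc (g - e) * a0 * e * (g - c)
        = (g - e) * a0 * ((1 / 2 : ℂ) • (w * star w)) * (g - c) := by rw [← he]
      _ = (1 / 2 : ℂ) • ((g - e) * a0 * w * (star w * (g - c))) := by
          rw [mul_smul_comm, smul_mul_assoc]; congr 1; noncomm_ring
      _ = _ := by
          rw [b2, smul_mul_assoc, smul_smul]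
          congr 1
          push_cast
          ring
  have b4 : e * (g - c) = (1 / 4 : ℂ) • (w * star w' * (w' * (star w * (g - c)))) := by
    calc e * (g - c) = (1 / 2 : ℂ) • (w * (g * star w) * (g - c)) := by
          rw [he, smul_mul_assoc, hgsw]
      _ = (1 / 4 : ℂ) • (w * ((2 : ℂ) • g) * (star w * (g - c))) := by
          rw [mul_smul_comm, smul_mul_assoc, smul_smul]
          norm_num
          noncomm_ring
      _ = _ := by rw [← ww']; congr 1; noncomm_ring
  obtain ⟨N, hN⟩ : ∃ N, N = ‖w' * (star w * (g - c))‖ := ⟨_, rfl⟩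
  have hN0 : 0 ≤ N := hN ▸ norm_nonneg _
  have b5 : |li - lj| / 4 * N ≤ 2 * δ := by
    rw [b3, norm_smul, ← hN] at b1
    have : ‖(((li - lj) / 4 : ℝ) : ℂ)‖ = |li - lj| / 4 := by
      rw [Complex.norm_real, Real.norm_eq_abs, abs_div]
      norm_num
    rwa [this] at b1
  have b6 : ‖e * (g - c)‖ ≤ N / 2 := by
    rw [b4, norm_smul]
    have k1 : ‖w * star w'‖ ≤ 2 := by
      have n1 := norm_two hg ww
      have n2 := norm_two hg ww'
      have n3 : ‖w * star w'‖ ≤ ‖w‖ * ‖w'‖ := by
        refine (norm_mul_le _ _).trans ?_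
        rw [norm_star]
      nlinarith [norm_nonneg w, norm_nonneg w', sq_nonneg (‖w‖ - ‖w'‖)]
    have k2 : ‖w * star w' * (w' * (star w * (g - c)))‖ ≤ 2 * N := by
      refine (norm_mul_le _ _).trans ?_
      rw [← hN]
      exact mul_le_mul_of_nonneg_right k1 hN0
    have k3 : ‖(1 / 4 : ℂ)‖ = 1 / 4 := by norm_num
    rw [k3]
    linarith
  have b7 : N < 2 := by
    by_contra hc
    push Not at hc
    have : |li - lj| / 4 * 2 ≤ |li - lj| / 4 * N :=
      mul_le_mul_of_nonneg_left hc (by positivity)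
    linarith
  linarith

theorem infin_ne {g : A} (hinf : Infin g) : g ≠ 0 := by
  rintro rfl
  obtain ⟨v, h1, h2, h3⟩ := hinf
  apply h3
  rw [mul_zero] at h2
  exact h2.symm

theorem not_sub_zero {g : A} (hg : PJ g) (hinf : Infin g) : ¬ Sub g 0 := by
  rintro ⟨v, h1, h2⟩
  rw [mul_zero] at h2
  apply infin_ne hinf
  have h3 := mul_of_initial hg h1
  calc g = star v * v := h1.symm
    _ = star v * (v * g) := by rw [h3]
    _ = star v * (v * (star v * v)) := by rw [h1]
    _ = star v * ((v * star v) * v) := by noncomm_ring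
    _ = 0 := by rw [← h2]; simp

theorem sum_pj {ι : Type*} (t : Finset ι) (p : ι → A) (hp : ∀ i, PJ (p i))
    (ho : ∀ i j, i ≠ j → p i * p j = 0) : PJ (∑ i ∈ t, p i) := by
  classical
  refine ⟨?_, ?_⟩
  · show (∑ i ∈ t, p i) * (∑ i ∈ t, p i) = ∑ i ∈ t, p i
    rw [Finset.sum_mul]
    apply Finset.sum_congr rfl
    intro i hi
    rw [Finset.mul_sum, Finset.sum_eq_single i]
    · exact (hp i).isIdempotentElem.eq
    · intro j _ hj
      exact ho i j (Ne.symm hj)
    · intro h; exact absurd hi h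
  · show star (∑ i ∈ t, p i) = ∑ i ∈ t, p i
    rw [star_sum]
    exact Finset.sum_congr rfl (fun i _ => (hp i).isSelfAdjoint.star_eq)

theorem sum_small (hD : PDich A) {g : A} (hg : PJ g) (hinf : Infin g) {ι : Type*}
    (t : Finset ι) (p : ι → A) (hp : ∀ i, PJ (p i)) (ho : ∀ i j, i ≠ j → p i * p j = 0)
    (hs : ∀ i ∈ t, ¬ Sub g (p i)) : ¬ Sub g (∑ i ∈ t, p i) := by
  classical
  induction t using Finset.induction_on with
  | empty =>
    rw [Finset.sum_empty]
    exact not_sub_zero hg hinf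
  | insert i t hi ih =>
    rw [Finset.sum_insert hi]
    intro hcon
    have h0 : p i * (∑ j ∈ t, p j) = 0 := by
      rw [Finset.mul_sum]
      apply Finset.sum_eq_zero
      intro j hj
      exact ho i j (fun h => hi (h ▸ hj))
    rcases hD g (p i) _ hg (hp i) (sum_pj t p hp ho) hinf h0 hcon with h | h
    · exact hs i (Finset.mem_insert_self i t) h
    · exact ih (fun j hj => hs j (Finset.mem_insert_of_mem hj)) h

theorem comb_norm {ι : Type*} (t : Finset ι) (p : ι → A) (hp : ∀ i, PJ (p i))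
    (ho : ∀ i j, i ≠ j → p i * p j = 0) (c : ι → ℝ) (M : ℝ) (hM : 0 ≤ M)
    (hc : ∀ i ∈ t, |c i| ≤ M) : ‖∑ i ∈ t, (c i : ℂ) • p i‖ ≤ M := by
  classical
  let _ := CStarAlgebra.spectralOrder A
  have := CStarAlgebra.spectralOrderedRing A
  obtain ⟨b, hb⟩ : ∃ b : A, b = ∑ i ∈ t, (c i : ℂ) • p i := ⟨_, rfl⟩
  have hbs : star b = b := by
    rw [hb, star_sum]
    apply Finset.sum_congr rfl
    intro i _
    rw [star_smul, (hp i).isSelfAdjoint.star_eq]
    congr 1
    exact Complex.conj_ofReal _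
  have hbb : star b * b = ∑ i ∈ t, (((c i) ^ 2 : ℝ) : ℂ) • p i := by
    rw [hbs, hb, Finset.sum_mul]
    apply Finset.sum_congr rfl
    intro i hi
    rw [Finset.mul_sum, Finset.sum_eq_single i]
    · rw [smul_mul_smul_comm, (hp i).isIdempotentElem.eq]
      congr 1
      push_cast; ring
    · intro j _ hj
      rw [smul_mul_smul_comm, ho i j (Ne.symm hj), smul_zero]
    · intro h; exact absurd hi h
  have hpn : ∀ q : A, PJ q → 0 ≤ q := by
    intro q hq
    rw [← hq.isIdempotentElem.eq]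
    nth_rewrite 1 [← hq.isSelfAdjoint.star_eq]
    exact star_mul_self_nonneg q
  have hle : star b * b ≤ ((M ^ 2 : ℝ) : ℂ) • (1 : A) := by
    rw [← sub_nonneg, hbb]
    have h1 : ((M ^ 2 : ℝ) : ℂ) • (1 : A) - ∑ i ∈ t, (((c i) ^ 2 : ℝ) : ℂ) • p i
        = ((M ^ 2 : ℝ) : ℂ) • ((1 : A) - ∑ i ∈ t, p i)
          + ∑ i ∈ t, ((M ^ 2 - (c i) ^ 2 : ℝ) : ℂ) • p i := by
      rw [smul_sub, Finset.smul_sum]
      have : ∑ i ∈ t, ((M ^ 2 - (c i) ^ 2 : ℝ) : ℂ) • p i
          = ∑ i ∈ t, ((M ^ 2 : ℝ) : ℂ) • p i - ∑ i ∈ t, (((c i) ^ 2 : ℝ) : ℂ) • p i := by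
        rw [← Finset.sum_sub_distrib]
        apply Finset.sum_congr rfl
        intro i _
        rw [← sub_smul]; congr 1; push_cast; ring
      rw [this]; abel
    rw [h1]
    have hsm : ∀ (r : ℝ) (q : A), 0 ≤ r → PJ q → 0 ≤ ((r : ℂ)) • q := by
      intro r q hr hq
      have : ((r : ℂ)) • q = star (((√r : ℝ) : ℂ) • q) * (((√r : ℝ) : ℂ) • q) := by
        rw [star_smul, hq.isSelfAdjoint.star_eq, smul_mul_smul_comm, hq.isIdempotentElem.eq]
        congr 1
        have : star (((√r : ℝ) : ℂ)) = ((√r : ℝ) : ℂ) := Complex.conj_ofReal _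
        rw [this, ← Complex.ofReal_mul, Real.mul_self_sqrt hr]
      rw [this]
      exact star_mul_self_nonneg _
    apply add_nonneg
    · apply hsm _ _ (sq_nonneg M)
      exact pj_sub (sum_pj t p hp ho) ⟨mul_one 1, star_one A⟩ (mul_one _)
    · apply Finset.sum_nonneg
      intro i hi
      apply hsm _ _ _ (hp i)
      have := hc i hi
      have h2 := sq_abs (c i)
      nlinarith [abs_nonneg (c i)]
  have h3 := CStarAlgebra.norm_le_norm_of_nonneg_of_le (star_mul_self_nonneg b) hle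
  rw [CStarRing.norm_star_mul_self, norm_smul, Complex.norm_real] at h3
  have h4 : ‖(1 : A)‖ ≤ 1 := pj_norm ⟨mul_one 1, star_one A⟩
  have h5 : ‖(M ^ 2 : ℝ)‖ = M ^ 2 := by rw [Real.norm_eq_abs, abs_of_nonneg (sq_nonneg M)]
  rw [h5] at h3
  have h6 : ‖b‖ * ‖b‖ ≤ M ^ 2 := h3.trans (mul_le_of_le_one_right (sq_nonneg M) h4)
  rw [← hb]
  exact abs_le_of_sq_le_sq' (by nlinarith) hM |>.2

theorem main3 (hSa : PSa A) (hD : PDich A) : PMain3 A := by
  classical
  intro g a hg hinf hsa hag hsm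
  obtain ⟨ι, _, p, l, hp, ho, hsum, hcomm, hn⟩ := hSa g a hg hsa hag (1 / 160) (by norm_num)
  have hsubg : Sub g g := by
    refine ⟨g, ?_, ?_⟩
    · rw [hg.isSelfAdjoint.star_eq, hg.isIdempotentElem.eq]
    · rw [hg.isSelfAdjoint.star_eq, hg.isIdempotentElem.eq, hg.isIdempotentElem.eq]
  have hpg : ∀ i, Le (p i) g := by
    intro i
    show p i * g = p i
    rw [← hsum, Finset.mul_sum, Finset.sum_eq_single i]
    · exact (hp i).isIdempotentElem.eq
    · intro j _ hj
      exact ho i j (Ne.symm hj)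
    · intro h; exact absurd (Finset.mem_univ i) h
  have hL : ∃ i0, Sub g (p i0) := by
    by_contra hcon
    push Not at hcon
    have := sum_small hD hg hinf Finset.univ p hp ho (fun i _ => hcon i)
    rw [hsum] at this
    exact this hsubg
  obtain ⟨i0, hi0⟩ := hL
  obtain ⟨a0, ha0⟩ : ∃ a0 : A, a0 = ∑ i, (l i : ℂ) • p i := ⟨_, rfl⟩
  rw [← ha0] at hn
  have ha0p : ∀ i, a0 * p i = (l i : ℂ) • p i := by
    intro i
    rw [ha0, Finset.sum_mul, Finset.sum_eq_single i]
    · rw [smul_mul_assoc, (hp i).isIdempotentElem.eq]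
    · intro j _ hj
      rw [smul_mul_assoc, ho j i hj, smul_zero]
    · intro h; exact absurd (Finset.mem_univ i) h
  have hpair : ∀ i, Sub g (p i) → |l i - l i0| ≤ 4 * (1 / 160) := by
    intro i hi
    by_cases h : i = i0
    · rw [h, sub_self, abs_zero]; norm_num
    · exact pair_bound hg (hp i) (hp i0) (ho i i0 h) (hpg i) (hpg i0) hi hi0 (ha0p i) (ha0p i0)
        (by norm_num) hn (fun e he heg => hsm e he heg (1 / 160) (by norm_num))
  let t : Finset ι := Finset.univ.filter (fun i => Sub g (p i))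
  let t' : Finset ι := Finset.univ.filter (fun i => ¬ Sub g (p i))
  have htt : ∑ i ∈ t, p i + ∑ i ∈ t', p i = g := by
    rw [← hsum]
    exact Finset.sum_filter_add_sum_filter_not _ _ _
  have hPJs : PJ (∑ i ∈ t', p i) := sum_pj t' p hp ho
  have hgs : g - ∑ i ∈ t', p i = ∑ i ∈ t, p i := by rw [← htt]; abel
  have hLes : Le (∑ i ∈ t', p i) g := by
    show (∑ i ∈ t', p i) * g = ∑ i ∈ t', p i
    rw [Finset.sum_mul]
    exact Finset.sum_congr rfl (fun i _ => hpg i)
  refine ⟨∑ i ∈ t', p i, l i0, hPJs, hLes, ?_, ?_⟩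
  · apply sum_small hD hg hinf t' p hp ho
    intro i hi
    exact (Finset.mem_filter.mp hi).2
  · rw [hgs]
    have h1 : (a - ((l i0 : ℝ) : ℂ) • g) * (∑ i ∈ t, p i)
        = (a - a0) * (∑ i ∈ t, p i) + ∑ i ∈ t, ((l i - l i0 : ℝ) : ℂ) • p i := by
      have h2 : a0 * (∑ i ∈ t, p i) = ∑ i ∈ t, (l i : ℂ) • p i := by
        rw [Finset.mul_sum]
        exact Finset.sum_congr rfl (fun i _ => ha0p i)
      have h3 : (((l i0 : ℝ) : ℂ) • g) * (∑ i ∈ t, p i) = ∑ i ∈ t, ((l i0 : ℝ) : ℂ) • p i := by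
        rw [Finset.mul_sum]
        apply Finset.sum_congr rfl
        intro i _
        rw [smul_mul_assoc, le_symm (hp i) hg (hpg i)]
      have h4 : ∑ i ∈ t, ((l i - l i0 : ℝ) : ℂ) • p i
          = ∑ i ∈ t, (l i : ℂ) • p i - ∑ i ∈ t, ((l i0 : ℝ) : ℂ) • p i := by
        rw [← Finset.sum_sub_distrib]
        apply Finset.sum_congr rfl
        intro i _
        rw [← sub_smul]; congr 1; push_cast; ring
      rw [h4, ← h2, ← h3]
      noncomm_ring
    rw [h1]
    have h5 : ‖(a - a0) * (∑ i ∈ t, p i)‖ ≤ 1 / 160 := by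
      refine (norm_mul_le _ _).trans ?_
      exact (mul_le_of_le_one_right (norm_nonneg _) (pj_norm (sum_pj t p hp ho))).trans hn
    have h6 : ‖∑ i ∈ t, ((l i - l i0 : ℝ) : ℂ) • p i‖ ≤ 4 * (1 / 160) := by
      apply comb_norm t p hp ho (fun i => l i - l i0) (4 * (1 / 160)) (by norm_num)
      intro i hi
      exact hpair i (Finset.mem_filter.mp hi).2
    refine (norm_add_le _ _).trans ?_
    linarith

theorem main3_ok : St_Main3.{u} := fun _ _ hSa hD => main3 hSa hD

end Pool.Agent.R456.CL.Main3
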