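import Pool.Agent.R456.CL.Stm

/-!
# Project CL, module W1: a maximal family of copies of `g'` in `g` is infinite
-/

set_option autoImplicit false

namespace Pool.Agent.R456.CL.W1

universe u

variable {A : Type u} [CStarAlgebra A]

lemma pj_mul {p : A} (h : PJ p) : p * p = p := h.isIdempotentElem.eq

lemma pj_star {p : A} (h : PJ p) : star p = p := h.isSelfAdjoint.star_eq

lemma pj_mk {p : A} (h1 : p * p = p) (h2 : star p = p) : PJ p := ⟨h1, h2⟩

lemma le_symm {p q : A} (hp : PJ p) (hq : PJ q) (h : p * q = p) : q * p = p := by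
  have := congrArg star h
  rwa [star_mul, pj_star hp, pj_star hq] at this

lemma le_symmB {p q : A} (hp : PJ p) (hq : PJ q) (h : p * q = q) : q * p = q := by
  have := congrArg star h
  rwa [star_mul, pj_star hp, pj_star hq] at this

lemma zero_symm {p q : A} (hp : PJ p) (hq : PJ q) (h : p * q = 0) : q * p = 0 := by
  have := congrArg star h
  rwa [star_mul, pj_star hp, pj_star hq, star_zero] at this

/-- `v p = v` when `v* v = p`. -/
lemma v_init {v p : A} (hp : PJ p) (h : star v * v = p) : v * p = v := by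
  have h0 : star (v - v * p) * (v - v * p) = 0 := by
    have e : star (v - v * p) * (v - v * p)
        = star v * v - (star v * v) * p - p * (star v * v) + p * (star v * v) * p := by
      rw [star_sub, star_mul, pj_star hp]; noncomm_ring
    rw [e, h, pj_mul hp, pj_mul hp]; abel
  have h1 := CStarRing.star_mul_self_eq_zero_iff _ |>.1 h0
  exact (sub_eq_zero.1 h1).symm

lemma pj_final {v p : A} (hp : PJ p) (h : star v * v = p) : PJ (v * star v) := by
  refine pj_mk ?_ ?_
  · calc v * star v * (v * star v) = v * (star v * v) * star v := by noncomm_ring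
      _ = v * p * star v := by rw [h]
      _ = v * star v := by rw [v_init hp h]
  · rw [star_mul, star_star]

/-- `g v = v` when `v* v` is a projection and `v v* ≤ g`. -/
lemma v_final {v p g : A} (hp : PJ p) (hg : PJ g) (h : star v * v = p)
    (h2 : (v * star v) * g = v * star v) : g * v = v := by
  have h3 : g * (v * star v) = v * star v := le_symm (pj_final hp h) hg h2
  have h4 : v * star v * v = v := by rw [mul_assoc, h, v_init hp h]
  calc g * v = g * (v * star v) * v := by rw [mul_assoc g, h4]
    _ = v := by rw [h3, h4]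

/-- sums of orthogonal projections which are small with respect to an infinite projection. -/
lemma sub_add {g' a b : A} (hInf : PInf A) (hg' : PJ g') (hi : Infin g') (ha : PJ a)
    (hb : PJ b) (hab : a * b = 0) (h1 : Sub a g') (h2 : Sub b g') : Sub (a + b) g' := by
  obtain ⟨g1, g2, hg1, hg2, h12, hl1, hl2, ⟨u1, hu1, hu1'⟩, ⟨u2, hu2, hu2'⟩⟩ := hInf g' hg' hi
  obtain ⟨v1, hv1, hv1'⟩ := h1
  obtain ⟨v2, hv2, hv2'⟩ := h2
  have hba : b * a = 0 := zero_symm ha hb hab
  have h21 : g2 * g1 = 0 := zero_symm hg1 hg2 h12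
  have gv1 : g' * v1 = v1 := v_final ha hg' hv1 hv1'
  have gv2 : g' * v2 = v2 := v_final hb hg' hv2 hv2'
  have va : v1 * a = v1 := v_init ha hv1
  have vb : v2 * b = v2 := v_init hb hv2
  have gu1 : g1 * u1 = u1 := v_final hg' hg1 hu1 (by rw [hu1', pj_mul hg1])
  have gu2 : g2 * u2 = u2 := v_final hg' hg2 hu2 (by rw [hu2', pj_mul hg2])
  have gu1' : star u1 * g1 = star u1 := by
    have := congrArg star gu1
    rwa [star_mul, pj_star hg1] at this
  have gu2' : star u2 * g2 = star u2 := by
    have := congrArg star gu2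
    rwa [star_mul, pj_star hg2] at this
  have va' : a * star v1 = star v1 := by
    have := congrArg star va
    rwa [star_mul, pj_star ha] at this
  have vb' : b * star v2 = star v2 := by
    have := congrArg star vb
    rwa [star_mul, pj_star hb] at this
  have e12 : star u1 * u2 = 0 := by
    calc star u1 * u2 = (star u1 * g1) * (g2 * u2) := by rw [gu1', gu2]
      _ = star u1 * (g1 * g2) * u2 := by noncomm_ring
      _ = 0 := by rw [h12]; simp
  have e21 : star u2 * u1 = 0 := by
    calc star u2 * u1 = (star u2 * g2) * (g1 * u1) := by rw [gu2', gu1]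
      _ = star u2 * (g2 * g1) * u1 := by noncomm_ring
      _ = 0 := by rw [h21]; simp
  refine ⟨u1 * v1 + u2 * v2, ?_, ?_⟩
  · calc star (u1 * v1 + u2 * v2) * (u1 * v1 + u2 * v2)
        = star v1 * (star u1 * u1) * v1 + star v1 * (star u1 * u2) * v2
          + star v2 * (star u2 * u1) * v1 + star v2 * (star u2 * u2) * v2 := by
            rw [star_add, star_mul, star_mul]; noncomm_ring
      _ = star v1 * (g' * v1) + star v2 * (g' * v2) := by
            rw [e12, e21, hu1, hu2]; noncomm_ring
      _ = a + b := by rw [gv1, gv2, hv1, hv2]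
  · have gg1 : star u1 * g' = star u1 := by
      calc star u1 * g' = (star u1 * g1) * g' := by rw [gu1']
        _ = star u1 * (g1 * g') := by noncomm_ring
        _ = star u1 := by rw [show g1 * g' = g1 from hl1, gu1']
    have gg2 : star u2 * g' = star u2 := by
      calc star u2 * g' = (star u2 * g2) * g' := by rw [gu2']
        _ = star u2 * (g2 * g') := by noncomm_ring
        _ = star u2 := by rw [show g2 * g' = g2 from hl2, gu2']
    have key : star (u1 * v1 + u2 * v2) * g' = star (u1 * v1 + u2 * v2) := by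
      rw [star_add, star_mul, star_mul, add_mul, mul_assoc, mul_assoc, gg1, gg2]
    rw [mul_assoc, key]

lemma sub_zero' (g' : A) : Sub (0 : A) g' := ⟨0, by simp, by simp⟩

lemma pj_zero' : PJ (0 : A) := pj_mk (by simp) (by simp)

lemma pj_add' {a b : A} (ha : PJ a) (hb : PJ b) (hab : a * b = 0) : PJ (a + b) := by
  refine pj_mk ?_ ?_
  · rw [add_mul, mul_add, mul_add, pj_mul ha, pj_mul hb, hab, zero_symm ha hb hab]; abel
  · rw [star_add, pj_star ha, pj_star hb]

lemma pj_sum {ι : Type u} (s : Finset ι) (q : ι → A) (hq : ∀ i, PJ (q i))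
    (ho : ∀ i j, i ≠ j → q i * q j = 0) : PJ (∑ i ∈ s, q i) := by
  classical
  induction s using Finset.induction_on with
  | empty => simp
  | insert a s has ih =>
    rw [Finset.sum_insert has]
    refine pj_add' (hq a) ih ?_
    rw [Finset.mul_sum]
    refine Finset.sum_eq_zero fun j hj => ho a j ?_
    rintro rfl; exact has hj

lemma sub_sum {g' : A} (hInf : PInf A) (hg' : PJ g') (hi : Infin g') {ι : Type u}
    (s : Finset ι) (q : ι → A) (hq : ∀ i, PJ (q i)) (ho : ∀ i j, i ≠ j → q i * q j = 0)
    (hs : ∀ i, Sub (q i) g') : Sub (∑ i ∈ s, q i) g' := by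
  classical
  induction s using Finset.induction_on with
  | empty => simpa using sub_zero' g'
  | insert a s has ih =>
    rw [Finset.sum_insert has]
    refine sub_add hInf hg' hi (hq a) (pj_sum s q hq ho) ?_ (hs a) ih
    rw [Finset.mul_sum]
    refine Finset.sum_eq_zero fun j hj => ho a j ?_
    rintro rfl; exact has hj

/-- the supremum of a finite orthogonal family is the sum. -/
lemma sup_fin {ι : Type u} [Fintype ι] (q : ι → A) (hq : ∀ i, PJ (q i))
    (ho : ∀ i j, i ≠ j → q i * q j = 0) {E : A} (hE : IsSup q E) : E = ∑ i, q i := by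
  classical
  obtain ⟨hE1, hE2, hE3⟩ := hE
  have h : (1 - ∑ i, q i) * E = 0 := by
    refine hE3 _ fun j => ?_
    rw [sub_mul, one_mul, Finset.sum_mul,
      Finset.sum_eq_single j (fun i _ hij => ho i j hij) (fun h => absurd (Finset.mem_univ j) h),
      pj_mul (hq j), sub_self]
  rw [sub_mul, one_mul, Finset.sum_mul] at h
  rw [sub_eq_zero.1 h]
  exact Finset.sum_congr rfl fun i _ => hE2 i

theorem w1_ok : St_W1.{u} := by
  intro A _ hSup hInf hAdd hCmp g g' hg hg' hi hle hns
  classical
  -- `g' ≠ 0`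
  have hg0 : g' ≠ 0 := by
    rintro rfl
    obtain ⟨v, h1, _, h3⟩ := hi
    have hv : v = 0 := (CStarRing.star_mul_self_eq_zero_iff _).1 h1
    apply h3
    rw [hv]; simp
  -- Zorn
  let C : Set (Set A) := {S | (∀ p ∈ S, PJ p ∧ Le p g ∧ Eqv g' p) ∧
    ∀ p ∈ S, ∀ q ∈ S, p ≠ q → p * q = 0}
  obtain ⟨S, hS⟩ : ∃ S, Maximal (· ∈ C) S := by
    refine zorn_subset C ?_
    intro c hc hchain
    refine ⟨⋃₀ c, ⟨?_, ?_⟩, fun s hs => Set.subset_sUnion_of_mem hs⟩
    · rintro p ⟨s, hs, hps⟩
      exact (hc hs).1 p hps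
    · rintro p ⟨s, hs, hps⟩ q ⟨t, ht, hqt⟩ hpq
      rcases hchain.total hs ht with h | h
      · exact (hc ht).2 p (h hps) q hqt hpq
      · exact (hc hs).2 p hps q (h hqt) hpq
  have hSC : S ∈ C := hS.1
  have hq : ∀ i : S, PJ (i : A) := fun i => (hSC.1 i i.2).1
  have ho : ∀ i j : S, i ≠ j → (i : A) * (j : A) = 0 := fun i j hij =>
    hSC.2 i i.2 j j.2 (fun h => hij (Subtype.ext h))
  obtain ⟨E, hE⟩ := hSup S (fun i => (i : A)) hq
  have hEc := hE
  obtain ⟨hE1, hE2, hE3⟩ := hE
  -- `E ≤ g`
  have hgE : g * E = E := by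
    have h : (1 - g) * E = 0 := by
      refine hE3 _ fun i => ?_
      rw [sub_mul, one_mul, le_symm (hq i) hg (hSC.1 i i.2).2.1, sub_self]
    rw [sub_mul, one_mul] at h
    exact (sub_eq_zero.1 h).symm
  have hEg : E * g = E := le_symmB hg hE1 hgE
  have hr : PJ (g - E) := by
    refine pj_mk ?_ ?_
    · rw [sub_mul, mul_sub, mul_sub, pj_mul hg, pj_mul hE1, hgE, hEg]; abel
    · rw [star_sub, pj_star hg, pj_star hE1]
  have hEi : ∀ i : S, E * (i : A) = i := fun i => le_symm (hq i) hE1 (hE2 i)
  -- comparison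
  have hrs : Sub (g - E) g' := by
    rcases hCmp g' (g - E) hg' hr with h | h
    swap
    · exact h
    exfalso
    obtain ⟨v, hv, hv'⟩ := h
    have hp : PJ (v * star v) := pj_final hg' hv
    have hpg : Le (v * star v) g := by
      have : v * star v * g = v * star v * (g - E) * g := by rw [hv']
      unfold Le
      rw [this, mul_assoc, sub_mul, pj_mul hg, hEg, hv']
    have hpi : ∀ i : S, v * star v * (i : A) = 0 := by
      intro i
      have : v * star v * (i : A) = v * star v * (g - E) * (i : A) := by rw [hv']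
      rw [this, mul_assoc, sub_mul, le_symm (hq i) hg (hSC.1 i i.2).2.1, hEi, sub_self, mul_zero]
    have hins : insert (v * star v) S ∈ C := by
      refine ⟨?_, ?_⟩
      · rintro p (rfl | hp')
        · exact ⟨hp, hpg, ⟨v, hv, rfl⟩⟩
        · exact hSC.1 p hp'
      · rintro p (rfl | hp') q (rfl | hq') hpq
        · exact absurd rfl hpq
        · exact hpi ⟨q, hq'⟩
        · exact zero_symm hp (hSC.1 p hp').1 (hpi ⟨p, hp'⟩)
        · exact hSC.2 p hp' q hq' hpq
    have hmem : v * star v ∈ S := hS.2 hins (Set.subset_insert _ _) (Set.mem_insert _ _)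
    have h0 : v * star v = 0 := by
      have := hpi ⟨_, hmem⟩
      rw [← pj_mul hp]; exact this
    have hv0 : star v = 0 := by
      apply (CStarRing.star_mul_self_eq_zero_iff _).1
      rw [star_star]; exact h0
    apply hg0
    rw [← hv, hv0, zero_mul]
  refine ⟨S, fun i => (i : A), E, ?_, hq, ho, fun i => (hSC.1 i i.2).2.1,
    fun i => (hSC.1 i i.2).2.2, hEc, hrs⟩
  by_contra hfin
  rw [not_infinite_iff_finite] at hfin
  haveI : Fintype S := Fintype.ofFinite S
  have hsum : E = ∑ i : S, (i : A) := sup_fin (fun i : S => (i : A)) hq ho hEc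
  have hsE : Sub E g' := by
    rw [hsum]
    refine sub_sum hInf hg' hi Finset.univ (fun i : S => (i : A)) hq ho ?_
    intro i
    obtain ⟨v, hv, hv'⟩ := (hSC.1 i i.2).2.2
    refine ⟨star v, ?_, ?_⟩
    · rw [star_star, hv']
    · rw [star_star, hv, pj_mul hg']
  apply hns
  have := sub_add hInf hg' hi hr hE1 (by rw [sub_mul, hgE, pj_mul hE1, sub_self]) hrs hsE
  rwa [sub_add_cancel] at this

end Pool.Agent.R456.CL.W1
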