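import Pool.Agent.R456.CL.Stm

/-! Project CL, W2 (helper711): comparison of the cardinals of two families. -/

set_option autoImplicit false

namespace Pool.Agent.R456.CL.W2

open Pool.Agent.R456.CL

universe u

variable {A : Type u} [CStarAlgebra A]

theorem pj_mul {p : A} (h : PJ p) : p * p = p := h.isIdempotentElem

theorem pj_star {p : A} (h : PJ p) : star p = p := h.isSelfAdjoint

theorem pj_mk {p : A} (h1 : p * p = p) (h2 : star p = p) : PJ p := ⟨h1, h2⟩

theorem init_mul {v p : A} (hp : PJ p) (h : star v * v = p) : v * p = v := by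
  have h1 : star (v - v * p) * (v - v * p) = 0 := by
    have h2 := pj_mul hp
    have h3 := pj_star hp
    calc star (v - v * p) * (v - v * p) = star v * v - star v * v * p - star p * (star v * v) +
        star p * (star v * v) * p := by
          rw [star_sub, star_mul]
          noncomm_ring
      _ = 0 := by
          rw [h, h3, h2, h2]
          abel
  have h4 := CStarRing.star_mul_self_eq_zero_iff (v - v * p) |>.1 h1
  rw [sub_eq_zero] at h4
  exact h4.symm

theorem final_pj {v p : A} (hp : PJ p) (h : star v * v = p) : PJ (v * star v) := by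
  apply pj_mk
  · calc v * star v * (v * star v) = v * (star v * v) * star v := by noncomm_ring
      _ = v * star v := by rw [h, init_mul hp h]
  · rw [star_mul, star_star]

theorem le_swap {p q : A} (hp : PJ p) (hq : PJ q) (h : Le p q) : q * p = p := by
  have h1 := congrArg star h
  rw [star_mul, pj_star hp, pj_star hq] at h1
  exact h1

theorem sub_trans {p q r : A} (hp : PJ p) (hq : PJ q) (h1 : Sub p q) (h2 : Sub q r) : Sub p r := by
  obtain ⟨v, hv1, hv2⟩ := h1
  obtain ⟨w, hw1, hw2⟩ := h2
  have h3 := init_mul hp hv1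
  have h4 := init_mul hq hw1
  have hvv := pj_star (final_pj hp hv1)
  have h5 : q * v = v := by
    have h6 : q * (v * star v) = v * star v := by
      have := congrArg star hv2
      rw [star_mul, hvv, pj_star hq] at this
      exact this
    calc q * v = q * (v * (star v * v)) := by rw [hv1, h3]
      _ = q * (v * star v) * v := by noncomm_ring
      _ = v * (star v * v) := by rw [h6]; noncomm_ring
      _ = v := by rw [hv1, h3]
  have h7 : q * star w = star w := by
    have := congrArg star h4
    rw [star_mul, pj_star hq] at this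
    exact this
  have h8 : star w * r = star w := by
    calc star w * r = (star w * w) * star w * r := by rw [hw1, h7]
      _ = star w * (w * star w * r) := by noncomm_ring
      _ = (star w * w) * star w := by rw [hw2]; noncomm_ring
      _ = star w := by rw [hw1, h7]
  refine ⟨w * v, ?_, ?_⟩
  · calc star (w * v) * (w * v) = star v * (star w * w) * v := by
          rw [star_mul]; noncomm_ring
      _ = star v * (q * v) := by rw [hw1, mul_assoc]
      _ = p := by rw [h5, hv1]
  · calc w * v * star (w * v) * r = w * v * star v * (star w * r) := by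
          rw [star_mul]; noncomm_ring
      _ = w * v * star (w * v) := by rw [h8, star_mul]; noncomm_ring

theorem sub_of_eqv {p q : A} (hq : PJ q) (h : Eqv p q) : Sub p q := by
  obtain ⟨v, h1, h2⟩ := h
  refine ⟨v, h1, ?_⟩
  rw [h2, pj_mul hq]

theorem eqv_symm {p q : A} (h : Eqv p q) : Eqv q p := by
  obtain ⟨v, h1, h2⟩ := h
  exact ⟨star v, by rw [star_star, h2], by rw [star_star, h1]⟩

theorem sup_le {ι : Type*} {e : ι → A} {E F : A} (he : ∀ i, PJ (e i)) (hE : IsSup e E) (hF : PJ F)
    (h : ∀ i, Le (e i) F) : Le E F := by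
  have h1 : (1 - F) * E = 0 := by
    apply hE.2.2
    intro i
    rw [sub_mul, one_mul, le_swap (he i) hF (h i), sub_self]
  have h2 : F * E = E := by
    rw [sub_mul, one_mul, sub_eq_zero] at h1
    exact h1.symm
  have h3 := congrArg star h2
  rw [star_mul, pj_star hE.1, pj_star hF] at h3
  exact h3

/-- sub-additivity -/
theorem subadd (hSup : PSup A) (hAdd : PAdd A) {ι : Type u} {e f : ι → A} {E F : A}
    (he : ∀ i, PJ (e i)) (hee : ∀ i j, i ≠ j → e i * e j = 0)
    (hf : ∀ i, PJ (f i)) (hff : ∀ i j, i ≠ j → f i * f j = 0)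
    (hF : PJ F) (hfF : ∀ i, Le (f i) F) (hE : IsSup e E)
    (h : ∀ i, Sub (e i) (f i)) : Sub E F := by
  choose w hw1 hw2 using h
  have hwp : ∀ i, PJ (w i * star (w i)) := fun i => final_pj (he i) (hw1 i)
  have hw3 : ∀ i, f i * (w i * star (w i)) = w i * star (w i) := by
    intro i
    have := congrArg star (hw2 i)
    rw [star_mul, pj_star (hwp i), pj_star (hf i)] at this
    exact this
  obtain ⟨F', hF'⟩ := hSup ι (fun i => w i * star (w i)) hwp
  have hle : Le F' F := by
    apply sup_le hwp hF' hF
    intro i
    show w i * star (w i) * F = w i * star (w i)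
    calc w i * star (w i) * F = w i * star (w i) * f i * F := by rw [hw2 i]
      _ = w i * star (w i) * (f i * F) := by noncomm_ring
      _ = w i * star (w i) := by rw [show f i * F = f i from hfF i, hw2 i]
  obtain ⟨v, hv1, hv2, -⟩ := hAdd ι w E F' (fun i => by rw [hw1 i]; exact he i)
    (fun i j hij => by rw [hw1 i, hw1 j]; exact hee i j hij)
    (fun i j hij => by
      calc (w i * star (w i)) * (w j * star (w j)) =
          (w i * star (w i) * f i) * (f j * (w j * star (w j))) := by rw [hw2 i, hw3 j]
        _ = w i * star (w i) * (f i * f j) * (w j * star (w j)) := by noncomm_ring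
        _ = 0 := by rw [hff i j hij]; noncomm_ring)
    (by simp only [hw1]; exact hE) hF'
  exact ⟨v, hv1, by rw [hv2]; exact hle⟩

/-- step (1): `g` is below the sup of the infinite family -/
theorem sub_sup (hSup : PSup A) (hAdd : PAdd A) {g g' : A} {ι : Type u} {q : ι → A} {E : A}
    (hg : PJ g) (hg' : PJ g') (hι : Infinite ι) (hq : ∀ i, PJ (q i))
    (hqq : ∀ i j, i ≠ j → q i * q j = 0) (hqg : ∀ i, Le (q i) g) (hqe : ∀ i, Eqv g' (q i))
    (hE : IsSup q E) (hs : Sub (g - E) g') : Sub g E := by
  have hEg : E * g = E := sup_le hq hE hg hqg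
  have hgE : g * E = E := le_swap hE.1 hg hEg
  have hpj : PJ (g - E) := by
    apply pj_mk
    · calc (g - E) * (g - E) = g * g - g * E - E * g + E * E := by noncomm_ring
        _ = g - E := by rw [pj_mul hg, hgE, hEg, pj_mul hE.1]; abel
    · rw [star_sub, pj_star hg, pj_star hE.1]
  have hEq : ∀ i, E * q i = q i := fun i => le_swap (hq i) hE.1 (hE.2.1 i)
  have hgq : ∀ i, g * q i = q i := fun i => le_swap (hq i) hg (hqg i)
  obtain ⟨φ⟩ : Nonempty (Option ι ≃ ι) := by
    rw [← Cardinal.eq, Cardinal.mk_option]
    exact Cardinal.add_one_eq (Cardinal.aleph0_le_mk ι)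
  let e : Option ι → A := fun o => o.elim (g - E) q
  have he : ∀ o, PJ (e o) := by
    intro o
    cases o with
    | none => exact hpj
    | some i => exact hq i
  have hee : ∀ o o', o ≠ o' → e o * e o' = 0 := by
    intro o o' ho
    cases o with
    | none =>
      cases o' with
      | none => exact absurd rfl ho
      | some j =>
        show (g - E) * q j = 0
        rw [sub_mul, hgq, hEq, sub_self]
    | some i =>
      cases o' with
      | none =>
        show q i * (g - E) = 0
        rw [mul_sub, show q i * g = q i from hqg i, hE.2.1 i, sub_self]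
      | some j => exact hqq i j (fun h => ho (by rw [h]))
  have hsup : IsSup e g := by
    refine ⟨hg, ?_, ?_⟩
    · intro o
      cases o with
      | none =>
        show (g - E) * g = g - E
        rw [sub_mul, pj_mul hg, hEg]
      | some i => exact hqg i
    · intro x hx
      have h1 : x * (g - E) = 0 := hx none
      have h2 : x * E = 0 := hE.2.2 x (fun i => hx (some i))
      rw [mul_sub, h2, sub_zero] at h1
      exact h1
  apply subadd hSup hAdd he hee (f := fun o => q (φ o)) (fun o => hq _)
    (fun o o' ho => hqq _ _ (fun h => ho (φ.injective h))) hE.1 (fun o => hE.2.1 _) hsup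
  intro o
  cases o with
  | none => exact sub_trans hpj hg' hs (sub_of_eqv (hq _) (hqe _))
  | some i =>
    exact sub_trans (hq i) hg' (sub_of_eqv hg' (eqv_symm (hqe i))) (sub_of_eqv (hq _) (hqe _))

theorem w2_ok : St_W2.{u} := by
  intro A _ hSup hAdd g g' g'' ι κ q E q' E' hg hg' hg'' hι hκ hq hqq hqg hqe hE hs hq' hqq' hqg'
    hqe' hE' hs' hcard
  have h1 : Sub g E := sub_sup hSup hAdd hg hg' hι hq hqq hqg hqe hE hs
  have h2 : Sub g' E' := sub_sup hSup hAdd hg' hg'' hκ hq' hqq' hqg' hqe' hE' hs'
  obtain ⟨φ⟩ : Nonempty (ι × κ ≃ κ) := by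
    rw [← Cardinal.eq, Cardinal.mk_prod, Cardinal.lift_id, Cardinal.lift_id]
    exact Cardinal.mul_eq_right (Cardinal.aleph0_le_mk κ) hcard (Cardinal.mk_ne_zero ι)
  have hC : ∀ i : ι, ∃ C : A, IsSup (fun k => q' (φ (i, k))) C := fun i =>
    hSup κ _ (fun k => hq' _)
  choose C hC using hC
  have hCpj : ∀ i, PJ (C i) := fun i => (hC i).1
  have horth : ∀ i j, i ≠ j → C i * C j = 0 := by
    intro i j hij
    apply (hC j).2.2
    intro l
    have h3 : q' (φ (j, l)) * C i = 0 := by
      apply (hC i).2.2
      intro k
      apply hqq'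
      intro h
      have := φ.injective h
      exact hij (congrArg Prod.fst this).symm
    have h4 := congrArg star h3
    rw [star_mul, pj_star (hCpj i), pj_star (hq' _), star_zero] at h4
    exact h4
  have hle : ∀ i, Le (C i) g' := fun i => sup_le (fun k => hq' _) (hC i) hg' (fun k => hqg' _)
  have h3 : ∀ i, Sub E' (C i) := by
    intro i
    apply subadd hSup hAdd hq' hqq' (f := fun k => q' (φ (i, k))) (fun k => hq' _)
      (fun k l hkl => hqq' _ _ (fun h => hkl (congrArg Prod.snd (φ.injective h)))) (hCpj i)
      (fun k => (hC i).2.1 k) hE'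
    intro k
    exact sub_trans (hq' k) hg'' (sub_of_eqv hg'' (eqv_symm (hqe' k)))
      (sub_of_eqv (hq' _) (hqe' _))
  have h4 : ∀ i, Sub (q i) (C i) := fun i =>
    sub_trans (hq i) hg' (sub_of_eqv hg' (eqv_symm (hqe i)))
      (sub_trans hg' hE'.1 h2 (h3 i))
  have h5 : Sub E g' := subadd hSup hAdd hq hqq hCpj horth hg' hle hE h4
  exact sub_trans hg hE.1 h1 h5

end Pool.Agent.R456.CL.W2
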