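import Pool.Agent.R456.CL.CaseA4
import Pool.Agent.R456.CL.Main1
import Pool.Agent.R456.CL.Main3
import Pool.Agent.R456.CL.Inf1
import Pool.Agent.R456.CL.Inf2
import Pool.Agent.R456.CL.W1
import Pool.Agent.R456.CL.W2

set_option autoImplicit false

namespace Pool.Agent.R456.CL

universe u

theorem inf_ok : St_Inf.{u} := fun A _ h1 h2 h3 =>
  Inf2.inf2_ok A h1 h2 (Inf1.inf1_ok A h1 h2 h3)

theorem main_ok : St_Main.{u} := by
  intro A _ hsa hcut hinf hdich hjoin g T hg hginf hgT hTg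
  by_cases hA : ∃ e f : A, PJ e ∧ PJ f ∧ Le e g ∧ Le f g ∧ e * f = 0 ∧ Eqv g e ∧ Eqv g f ∧
      Iso e f (f * T * e)
  · exact Or.inl hA
  right
  have hM1 := Main1.main1_ok A hcut hjoin g T hg hginf hgT hTg hA
  have hM3 := Main3.main3_ok A hsa hdich
  have hsTg : star T * g = star T := star_absorb_left hg hgT
  have hsub : ∀ (c : ℂ) (a : A), ‖c‖ = 1 / 2 → star a = a → (∃ d : ℂ, ‖d‖ = 1 ∧ a = c • (T + d • star T)) →
      ∃ (s : A) (r : ℝ), PJ s ∧ Le s g ∧ ¬ Sub g s ∧ ‖(a - (r : ℂ) • g) * (g - s)‖ ≤ 1 / 32 := by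
    rintro c a hc ha ⟨d, hd, had⟩
    refine hM3 g a hg hginf ha ?_ ?_
    · rw [had, smul_mul_assoc, add_mul, smul_mul_assoc, hTg, hsTg]
    · intro e he heg ε hε
      obtain ⟨k, hk1, hk2, hk3, hk4, hk5⟩ := hM1 e he heg ε hε
      refine ⟨k, hk1, hk2, hk3, ?_⟩
      have : (g - e) * a * e * (g - k)
          = c • ((g - e) * T * e * (g - k) + d • ((g - e) * star T * e * (g - k))) := by
        rw [had]
        simp only [mul_smul_comm, smul_mul_assoc, mul_add, add_mul]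
      rw [this, norm_smul, hc]
      have h2 : ‖(g - e) * T * e * (g - k) + d • ((g - e) * star T * e * (g - k))‖ ≤ ε + ε := by
        refine (norm_add_le _ _).trans (add_le_add hk4 ?_)
        rw [norm_smul, hd, one_mul]; exact hk5
      linarith
  have hhalf : ‖(1 / 2 : ℂ)‖ = 1 / 2 := by norm_num
  obtain ⟨s1, c1, hs1, hs1g, hns1, hb1⟩ := hsub (1 / 2) ((1 / 2 : ℂ) • (T + star T)) hhalf
    (by rw [star_smul, star_add, star_star, add_comm]; congr 1; simp) ⟨1, by simp, by simp⟩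
  obtain ⟨s2, c2, hs2, hs2g, hns2, hb2⟩ := hsub (-(Complex.I / 2))
    ((-(Complex.I / 2) : ℂ) • (T + (-1 : ℂ) • star T)) (by simp)
    (by
      rw [star_smul, star_add, star_smul, star_star]
      have : star (-(Complex.I / 2)) = Complex.I / 2 := by
        simp [Complex.conj_I, neg_div]
      rw [this]
      simp only [star_neg, star_one, smul_add, smul_smul]
      rw [add_comm]
      congr 1
      · congr 1; ring
      · congr 1; ring) ⟨-1, by simp, rfl⟩
  obtain ⟨s, hs, hsg, hs1s, hs2s, hns⟩ := hjoin g s1 s2 hg hs1 hs2 hginf hs1g hs2g hns1 hns2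
  refine ⟨s, (c1 : ℂ) + Complex.I * (c2 : ℂ), hs, hsg, hns, ?_⟩
  have hgs' : g * s = s := hsg.rev hs hg
  have hgg := PJ.mul_self hg
  have hss := PJ.mul_self hs
  have k1 : ∀ t : A, PJ t → Le t g → Le t s → (g - t) * (g - s) = g - s := by
    intro t ht htg hts
    have e1 : t * g = t := htg
    have e2 : t * s = t := hts
    rw [sub_mul, mul_sub, mul_sub, hgg, hgs', e1, e2]; abel
  have hT : T - ((c1 : ℂ) + Complex.I * (c2 : ℂ)) • g
      = ((1 / 2 : ℂ) • (T + star T) - (c1 : ℂ) • g)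
        + Complex.I • ((-(Complex.I / 2) : ℂ) • (T + (-1 : ℂ) • star T) - (c2 : ℂ) • g) := by
    have i1 : Complex.I * -(Complex.I / 2) = 1 / 2 := by
      have := Complex.I_mul_I
      linear_combination (-1 / 2 : ℂ) * this
    rw [smul_sub, smul_smul, smul_smul, i1, add_smul]
    simp only [smul_add, smul_smul]
    have : T = (1 / 2 : ℂ) • T + (1 / 2 : ℂ) • T := by
      rw [← add_smul]; norm_num
    have h3 : (1 / 2 * -1 : ℂ) • star T = - ((1 / 2 : ℂ) • star T) := by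
      rw [← neg_smul]; norm_num
    rw [h3]
    conv_lhs => rw [this]
    abel
  have hgsn : ‖g - s‖ ≤ 1 := pj_norm_le (pj_sub hs hg hsg)
  have b1 : ‖((1 / 2 : ℂ) • (T + star T) - (c1 : ℂ) • g) * (g - s)‖ ≤ 1 / 32 := by
    rw [← k1 s1 hs1 hs1g hs1s, ← mul_assoc]
    refine (norm_mul_le _ _).trans ?_
    calc _ ≤ 1 / 32 * 1 := mul_le_mul hb1 hgsn (norm_nonneg _) (by norm_num)
      _ = _ := by norm_num
  have b2 : ‖((-(Complex.I / 2) : ℂ) • (T + (-1 : ℂ) • star T) - (c2 : ℂ) • g) * (g - s)‖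
      ≤ 1 / 32 := by
    rw [← k1 s2 hs2 hs2g hs2s, ← mul_assoc]
    refine (norm_mul_le _ _).trans ?_
    calc _ ≤ 1 / 32 * 1 := mul_le_mul hb2 hgsn (norm_nonneg _) (by norm_num)
      _ = _ := by norm_num
  have b3 : ‖(T - ((c1 : ℂ) + Complex.I * (c2 : ℂ)) • g) * (g - s)‖ ≤ 1 / 16 := by
    rw [hT, add_mul, smul_mul_assoc]
    refine (norm_add_le _ _).trans ?_
    rw [norm_smul, Complex.norm_I, one_mul]
    linarith
  rw [mul_assoc]
  refine (norm_mul_le _ _).trans ?_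
  calc ‖g - s‖ * ‖(T - ((c1 : ℂ) + Complex.I * (c2 : ℂ)) • g) * (g - s)‖ ≤ 1 * (1 / 16) :=
        mul_le_mul hgsn b3 (norm_nonneg _) (by norm_num)
    _ ≤ 1 / 4 := by norm_num

end Pool.Agent.R456.CL
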