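import Pool.Agent.R456.CL.Stm

/-!
# Schröder–Bernstein for projections
-/

set_option autoImplicit false

namespace Pool.Agent.R456.CL.SB

universe u

variable {A : Type u} [CStarAlgebra A]

lemma pj_idem {p : A} (h : PJ p) : p * p = p := h.isIdempotentElem

lemma pj_star {p : A} (h : PJ p) : star p = p := h.isSelfAdjoint

lemma pj_mk {p : A} (h1 : p * p = p) (h2 : star p = p) : PJ p := ⟨h1, h2⟩

lemma mul_init {e v : A} (he : PJ e) (h : star v * v = e) : v * e = v := by
  have he1 := pj_idem he
  have he2 := pj_star he
  have h1 : star (v - v * e) * (v - v * e) = 0 := by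
    rw [star_sub, star_mul, he2]
    have : (star v - e * star v) * (v - v * e) =
        star v * v - (star v * v) * e - e * (star v * v) + e * (star v * v) * e := by
      noncomm_ring
    rw [this, h, he1, he1]
    abel
  have h2 := (CStarRing.star_mul_self_eq_zero_iff _).1 h1
  exact (sub_eq_zero.1 h2).symm

/-- all the absorption identities of a partial isometry `v : e → f` -/
lemma sub_ids {e f v : A} (he : PJ e) (hf : PJ f) (h : star v * v = e)
    (h' : (v * star v) * f = v * star v) :
    v * e = v ∧ e * star v = star v ∧ f * v = v ∧ star v * f = star v := by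
  have h1 := mul_init he h
  have h2 : e * star v = star v := by
    have := congrArg star h1
    rwa [star_mul, pj_star he] at this
  have h3 : star v * f = star v := by
    calc star v * f = (star v * v) * star v * f := by rw [h, h2]
      _ = star v * ((v * star v) * f) := by simp only [mul_assoc]
      _ = (star v * v) * star v := by rw [h']; simp only [mul_assoc]
      _ = star v := by rw [h, h2]
  have h4 : f * v = v := by
    have := congrArg star h3
    rwa [star_mul, star_star, pj_star hf] at this
  exact ⟨h1, h2, h4, h3⟩

theorem sB_ok : St_SB.{u} := by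
  intro A _ hsup e f he hf hef hfe
  obtain ⟨v, v1, v2⟩ := hef
  obtain ⟨w, w1, w2⟩ := hfe
  obtain ⟨hve, hev, hfv, hvf⟩ := sub_ids he hf v1 v2
  obtain ⟨hwf, hfw, hew, hwe⟩ := sub_ids hf he w1 w2
  have ee := pj_idem he
  have es := pj_star he
  have ff := pj_idem hf
  have fs := pj_star hf
  -- right-associated versions
  have v1' : ∀ x, star v * (v * x) = e * x := fun x => by rw [← mul_assoc, v1]
  have w1' : ∀ x, star w * (w * x) = f * x := fun x => by rw [← mul_assoc, w1]
  have ee' : ∀ x, e * (e * x) = e * x := fun x => by rw [← mul_assoc, ee]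
  have ff' : ∀ x, f * (f * x) = f * x := fun x => by rw [← mul_assoc, ff]
  have hve' : ∀ x, v * (e * x) = v * x := fun x => by rw [← mul_assoc, hve]
  have hev' : ∀ x, e * (star v * x) = star v * x := fun x => by rw [← mul_assoc, hev]
  have hfv' : ∀ x, f * (v * x) = v * x := fun x => by rw [← mul_assoc, hfv]
  have hvf' : ∀ x, star v * (f * x) = star v * x := fun x => by rw [← mul_assoc, hvf]
  have hwf' : ∀ x, w * (f * x) = w * x := fun x => by rw [← mul_assoc, hwf]
  have hfw' : ∀ x, f * (star w * x) = star w * x := fun x => by rw [← mul_assoc, hfw]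
  have hew' : ∀ x, e * (w * x) = w * x := fun x => by rw [← mul_assoc, hew]
  have hwe' : ∀ x, star w * (e * x) = star w * x := fun x => by rw [← mul_assoc, hwe]
  -- the map
  set φ : A → A := fun p => e - w * star w + w * v * p * (star v * star w) with hφ
  have hφmul : ∀ x y : A, x * e = x → φ x * φ y = e - w * star w +
      w * v * (x * y) * (star v * star w) := by
    intro x y hx
    have hx' : ∀ z, x * (e * z) = x * z := fun z => by rw [← mul_assoc, hx]
    simp only [hφ]
    simp only [mul_add, add_mul, mul_sub, sub_mul, mul_assoc, v1', w1', ee, ee', ff, hve', hev,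
      hev', hfv', hvf', hwf', hfw, hfw', hew, hew', hwe, hwe', hx', hfv, v1, w1]
    abel
  have hφpj : ∀ x : A, PJ x → x * e = x → PJ (φ x) := by
    intro x hx hxe
    refine pj_mk ?_ ?_
    · rw [hφmul x x hxe, pj_idem hx]
    · simp only [hφ, star_add, star_sub, star_mul, star_star, es, pj_star hx, mul_assoc]
  have hφe : ∀ x : A, φ x * e = φ x := by
    intro x
    simp only [hφ]
    simp only [add_mul, sub_mul, mul_assoc, ee, hwe]
  have hφmono : ∀ x y : A, x * e = x → x * y = x → φ x * φ y = φ x := by
    intro x y hx hxy
    rw [hφmul x y hx, hxy]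
  -- the supremum
  let ι : Type u := {x : A // PJ x ∧ x * e = x ∧ x * φ x = x}
  obtain ⟨p, hp, hp1, hp2⟩ := hsup ι (fun i => i.1) (fun i => i.2.1)
  have hstar : ∀ a b : A, PJ a → PJ b → a * b = a → b * a = a := by
    intro a b ha hb h
    have := congrArg star h
    rwa [star_mul, pj_star ha, pj_star hb] at this
  have hle : ∀ q : A, PJ q → (∀ i : ι, i.1 * q = i.1) → p * q = p := by
    intro q hq h
    have h1 : ∀ i : ι, (1 - q) * i.1 = 0 := by
      intro i
      rw [sub_mul, one_mul, hstar _ _ i.2.1 hq (h i), sub_self]
    have h2 := hp2 (1 - q) h1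
    rw [sub_mul, one_mul, sub_eq_zero] at h2
    have h3 := congrArg star h2
    rw [star_mul, pj_star hp, pj_star hq] at h3
    exact h3.symm
  have hpe : p * e = p := hle e he (fun i => i.2.2.1)
  have hφp := hφpj p hp hpe
  have hple : p * φ p = p := by
    refine hle _ hφp fun i => ?_
    have h1 : i.1 * φ i.1 = i.1 := i.2.2.2
    have h2 : φ i.1 * φ p = φ i.1 := hφmono _ _ i.2.2.1 (hp1 i)
    calc i.1 * φ p = i.1 * φ i.1 * φ p := by rw [h1]
      _ = i.1 * (φ i.1 * φ p) := mul_assoc _ _ _
      _ = i.1 := by rw [h2, h1]
  have hmem : φ p * φ (φ p) = φ p := hφmono _ _ hpe hple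
  have hge : φ p * p = φ p := hp1 ⟨φ p, hφp, hφe p, hmem⟩
  have hfix : φ p = p := by
    have := hstar _ _ hp hφp hple
    rw [← hge]; exact this
  have hpp := pj_idem hp
  have hps := pj_star hp
  have hep : e * p = p := hstar _ _ hp he hpe
  -- e - p = w q w*
  have hq : e - p = w * ((f - v * p * star v) * star w) := by
    conv_lhs => rw [← hfix]
    simp only [hφ, sub_mul, mul_sub, mul_assoc, hfw]
    abel
  have hwq : star w * (e - p) = (f - v * p * star v) * star w := by
    rw [hq]
    simp only [sub_mul, mul_sub, mul_assoc, w1', ff', hfw, hfv', ff]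
  have hpp' : ∀ x, p * (p * x) = p * x := fun x => by rw [← mul_assoc, hpp]
  have hep' : ∀ x, e * (p * x) = p * x := fun x => by rw [← mul_assoc, hep]
  have hpe' : ∀ x, p * (e * x) = p * x := fun x => by rw [← mul_assoc, hpe]
  have hu : star (v * p + star w * (e - p)) = p * star v + (e - p) * w := by
    rw [star_add, star_mul, star_mul, star_star, star_sub, hps, es]
  refine ⟨v * p + star w * (e - p), ?_, ?_⟩
  · rw [hu]
    have h1 : p * star v * (v * p) = p := by
      simp only [mul_assoc, v1', hep, hpp]
    have h2 : p * star v * (star w * (e - p)) = 0 := by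
      rw [hwq]
      simp only [sub_mul, mul_sub, mul_assoc, hvf', v1', hep', hpp', hfw]
      abel
    have h3 : (e - p) * w * (v * p) = 0 := by
      have := congrArg star h2
      rw [star_zero] at this
      simp only [star_mul, star_star, star_sub, hps, es] at this
      rw [← this]
    have h4 : (e - p) * w * (star w * (e - p)) = e - p := by
      rw [hwq]
      have h5 : (e - p) * w = w * (f - v * p * star v) := by
        have := congrArg star hwq
        simp only [star_mul, star_star, star_sub, hps, es, fs] at this
        rw [this]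
        simp only [mul_assoc]
      rw [h5]
      have h6 : (f - v * p * star v) * (f - v * p * star v) = f - v * p * star v := by
        simp only [sub_mul, mul_sub, mul_assoc, ff, hfv', hvf, v1', hep', hpp']
        abel
      calc w * (f - v * p * star v) * ((f - v * p * star v) * star w)
          = w * (((f - v * p * star v) * (f - v * p * star v)) * star w) := by
            simp only [mul_assoc]
        _ = e - p := by rw [h6, hq]
    rw [add_mul, mul_add, mul_add, h1, h2, h3, h4]
    abel
  · rw [hu]
    have h1 : v * p * (p * star v) = v * p * star v := by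
      simp only [mul_assoc, hpp']
    have h0 : p * (e - p) = 0 := by rw [mul_sub, hpe, hpp, sub_self]
    have h0' : (e - p) * p = 0 := by rw [sub_mul, hep, hpp, sub_self]
    have h2 : v * p * ((e - p) * w) = 0 := by
      rw [mul_assoc, ← mul_assoc p, h0, zero_mul, mul_zero]
    have h3 : star w * (e - p) * (p * star v) = 0 := by
      rw [mul_assoc, ← mul_assoc (e - p), h0', zero_mul, mul_zero]
    have h4 : star w * (e - p) * ((e - p) * w) = f - v * p * star v := by
      have h5 : (e - p) * (e - p) = e - p := by
        rw [sub_mul, h0, sub_zero, mul_sub, ee, hep]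
      calc star w * (e - p) * ((e - p) * w) = star w * ((e - p) * (e - p)) * w := by
            simp only [mul_assoc]
        _ = (f - v * p * star v) * star w * w := by rw [h5, hwq]
        _ = f - v * p * star v := by
            rw [mul_assoc, w1, sub_mul, ff, mul_assoc (v * p), hvf]
    rw [add_mul, mul_add, mul_add, h1, h2, h3, h4]
    abel

end Pool.Agent.R456.CL.SB
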