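import Pool.Agent.R456.CL.Stm

/-!
# Project CL: spectral approximation from the axioms (helper806)
-/

set_option autoImplicit false

namespace Pool.Agent.R456.CL.Sa

universe u

open Pool.Agent.R456.CL

variable {A : Type u} [CStarAlgebra A]

/-- simple elements of a set of commuting elements -/
def Simp (M : Set A) (y : A) : Prop := ∃ (ι : Type) (_ : Fintype ι) (p : ι → A) (d : ι → ℂ),
  (∀ i, PJ (p i) ∧ p i ∈ M) ∧ (∀ i j, i ≠ j → p i * p j = 0) ∧ ∑ i, p i = 1 ∧
    y = ∑ i, d i • p i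

theorem simp_op {M : StarSubalgebra ℂ A} (hM : ∀ x ∈ M, ∀ y ∈ M, x * y = y * x) {y y' : A}
    (hy : Simp (M : Set A) y) (hy' : Simp (M : Set A) y') (op : ℂ → ℂ → ℂ) (z : A)
    (hz : ∀ (ι κ : Type) [Fintype ι] [Fintype κ] (p : ι → A) (p' : κ → A) (d : ι → ℂ) (d' : κ → ℂ),
      (∑ i, p i = 1) → (∑ i, p' i = 1) → (∀ i, p i * p i = p i) → (∀ i, p' i * p' i = p' i) →
      (∀ i j, p i * p' j = p' j * p i) →
      (∀ i j, i ≠ j → p i * p j = 0) → (∀ i j, i ≠ j → p' i * p' j = 0) →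
      y = ∑ i, d i • p i → y' = ∑ i, d' i • p' i →
      z = ∑ i : ι × κ, (op (d i.1) (d' i.2)) • (p i.1 * p' i.2)) :
    Simp (M : Set A) z := by
  obtain ⟨ι, _, p, d, hp, ho, hs, rfl⟩ := hy
  obtain ⟨κ, _, p', d', hp', ho', hs', rfl⟩ := hy'
  have hc : ∀ i j, p i * p' j = p' j * p i := fun i j => hM _ (hp i).2 _ (hp' j).2
  refine ⟨ι × κ, inferInstance, fun i => p i.1 * p' i.2, fun i => op (d i.1) (d' i.2), ?_, ?_, ?_,
    hz ι κ p p' d d' hs hs' (fun i => (hp i).1.isIdempotentElem)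
      (fun i => (hp' i).1.isIdempotentElem) hc ho ho' rfl rfl⟩
  · intro i
    exact ⟨(hp i.1).1.mul (hp' i.2).1 (hc _ _), mul_mem (hp i.1).2 (hp' i.2).2⟩
  · rintro ⟨i, i'⟩ ⟨j, j'⟩ hij
    change p i * p' i' * (p j * p' j') = 0
    have h1 : p i * p' i' * (p j * p' j') = (p i * p j) * (p' i' * p' j') := by
      rw [mul_assoc, ← mul_assoc (p' i'), ← hc j i', mul_assoc, ← mul_assoc (p i)]
    rw [h1]
    by_cases h : i = j
    · have h' : i' ≠ j' := by
        rintro rfl
        exact hij (by rw [h])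
      rw [ho' _ _ h', mul_zero]
    · rw [ho _ _ h, zero_mul]
  · rw [Fintype.sum_prod_type]
    have h1 : ∀ i, ∑ j, p i * p' j = p i := fun i => by rw [← Finset.mul_sum, hs', mul_one]
    simp only [h1, hs]

theorem simp_all {M : StarSubalgebra ℂ A} (hM : ∀ x ∈ M, ∀ y ∈ M, x * y = y * x) {y : A}
    (hy : y ∈ StarAlgebra.adjoin ℂ {p : A | IsStarProjection p ∧ p ∈ M}) :
    Simp (M : Set A) y := by
  induction hy using StarAlgebra.adjoin_induction with
  | mem x hx =>
    refine ⟨Bool, inferInstance, fun b => if b then x else 1 - x, fun b => if b then 1 else 0,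
      ?_, ?_, ?_, ?_⟩
    · intro b
      cases b
      · simpa using ⟨hx.1.one_sub, sub_mem (one_mem M) hx.2⟩
      · simpa using ⟨hx.1, hx.2⟩
    · intro b c hbc
      cases b <;> cases c
      · exact absurd rfl hbc
      · simp [sub_mul, hx.1.isIdempotentElem.eq]
      · simp [mul_sub, hx.1.isIdempotentElem.eq]
      · exact absurd rfl hbc
    · simp
    · simp
  | algebraMap r =>
    refine ⟨Unit, inferInstance, fun _ => 1, fun _ => r, fun _ => ⟨IsStarProjection.one A, one_mem M⟩,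
      fun i j hij => absurd (Subsingleton.elim i j) hij, by simp, ?_⟩
    simp [Algebra.algebraMap_eq_smul_one]
  | add x y hx hy h1 h2 =>
    refine simp_op hM h1 h2 (fun a b => a + b) (x + y) ?_
    intro ι κ _ _ p p' d d' hs hs' _ _ hc _ _ rfl rfl
    simp only [add_smul, Finset.sum_add_distrib, Fintype.sum_prod_type]
    congr 1
    · refine Finset.sum_congr rfl fun i _ => ?_
      rw [← Finset.smul_sum, ← Finset.mul_sum, hs', mul_one]
    · rw [Finset.sum_comm]
      refine Finset.sum_congr rfl fun i _ => ?_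
      rw [← Finset.smul_sum, ← Finset.sum_mul, hs, one_mul]
  | mul x y hx hy h1 h2 =>
    refine simp_op hM h1 h2 (fun a b => a * b) (x * y) ?_
    intro ι κ _ _ p p' d d' _ _ _ _ _ _ _ rfl rfl
    rw [Fintype.sum_prod_type, Finset.sum_mul_sum]
    refine Finset.sum_congr rfl fun i _ => Finset.sum_congr rfl fun j _ => ?_
    rw [smul_mul_smul_comm]
  | star x hx h1 =>
    obtain ⟨ι, _, p, d, hp, ho, hs, rfl⟩ := h1
    refine ⟨ι, inferInstance, p, fun i => star (d i), hp, ho, hs, ?_⟩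
    rw [star_sum]
    refine Finset.sum_congr rfl fun i _ => ?_
    rw [star_smul, (hp i).1.isSelfAdjoint.star_eq]

/-- a maximal commutative subalgebra containing given elements -/
theorem exists_masa (X₀ : Set A) (hc : ∀ x ∈ X₀, ∀ y ∈ X₀, x * y = y * x)
    (hs : ∀ x ∈ X₀, star x ∈ X₀) :
    ∃ M : StarSubalgebra ℂ A, X₀ ⊆ M ∧ (∀ x ∈ M, ∀ y ∈ M, x * y = y * x) ∧
      ∀ N : StarSubalgebra ℂ A, (∀ x ∈ N, ∀ y ∈ N, x * y = y * x) → M ≤ N → N = M := by
  obtain ⟨X, hX0, hX⟩ := zorn_subset_nonempty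
    {X : Set A | (∀ x ∈ X, ∀ y ∈ X, x * y = y * x) ∧ ∀ x ∈ X, star x ∈ X} (by
    intro c hcs hchain _
    refine ⟨⋃₀ c, ⟨?_, ?_⟩, fun s hs => Set.subset_sUnion_of_mem hs⟩
    · rintro x ⟨s, hs, hx⟩ y ⟨t, ht, hy⟩
      rcases hchain.total hs ht with h | h
      · exact (hcs ht).1 x (h hx) y hy
      · exact (hcs hs).1 x hx y (h hy)
    · rintro x ⟨s, hs, hx⟩
      exact ⟨s, hs, (hcs hs).2 x hx⟩) X₀ ⟨hc, hs⟩
  have hXp : (∀ x ∈ X, ∀ y ∈ X, x * y = y * x) ∧ ∀ x ∈ X, star x ∈ X := hX.prop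
  have hcomm : ∀ x ∈ StarAlgebra.adjoin ℂ X, ∀ y ∈ StarAlgebra.adjoin ℂ X, x * y = y * x := by
    intro x hx y hy
    letI := StarAlgebra.adjoinCommRingOfComm ℂ hXp.1 (fun a ha b hb => hXp.1 a ha _ (hXp.2 b hb))
    have h1 := mul_comm (⟨x, hx⟩ : StarAlgebra.adjoin ℂ X) ⟨y, hy⟩
    exact congrArg Subtype.val h1
  have hsub : X ⊆ StarAlgebra.adjoin ℂ X := StarAlgebra.subset_adjoin ℂ X
  refine ⟨StarAlgebra.adjoin ℂ X, hX0.trans hsub, hcomm, fun N hN hle => ?_⟩
  have h1 : (N : Set A) ∈ {X : Set A | (∀ x ∈ X, ∀ y ∈ X, x * y = y * x) ∧ ∀ x ∈ X, star x ∈ X} :=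
    ⟨hN, fun x hx => star_mem hx⟩
  have h2 : (N : Set A) ⊆ X := hX.le_of_ge h1 (hsub.trans hle)
  exact le_antisymm (fun x hx => hsub (h2 hx)) hle

theorem sa_ok : St_Sa.{u} := by
  intro A _ hA g a hg ha hag δ hδ
  have hga : g * a = a := by
    have h1 := congrArg star hag
    rwa [star_mul, ha, hg.isSelfAdjoint.star_eq] at h1
  obtain ⟨M, hXM, hM, hmax⟩ := exists_masa ({a, g} : Set A) (by
    rintro x (rfl | rfl) y (rfl | rfl)
    · rfl
    · rw [hag, hga]
    · rw [hag, hga]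
    · rfl) (by
    rintro x (rfl | rfl)
    · rw [ha]
      exact Or.inl rfl
    · rw [hg.isSelfAdjoint.star_eq]
      exact Or.inr rfl)
  have haM : a ∈ M := hXM (Or.inl rfl)
  have hgM : g ∈ M := hXM (Or.inr rfl)
  have hcl := hA.masa M hM hmax a haM
  obtain ⟨y, hy, hay⟩ := Metric.mem_closure_iff.1 hcl δ hδ
  obtain ⟨ι, _, p, d, hp, ho, hs, hyd⟩ := simp_all hM hy
  have hpg : ∀ i, p i * g = g * p i := fun i => hM _ (hp i).2 _ hgM
  refine ⟨ι, inferInstance, fun i => p i * g, fun i => (d i).re, fun i => ?_, fun i j hij => ?_, ?_,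
    fun i => ?_, ?_⟩
  · exact (hp i).1.mul hg (hpg i)
  · change p i * g * (p j * g) = 0
    rw [mul_assoc, ← mul_assoc g, ← hpg j, ← mul_assoc, ← mul_assoc, ho i j hij]
    simp
  · rw [← Finset.sum_mul, hs, one_mul]
  · rw [mul_assoc, hga, hM _ (hp i).2 _ haM, ← mul_assoc, hM _ haM _ (hp i).2, mul_assoc, hag]
  · set b := a - ∑ i, d i • (p i * g) with hb
    have h1 : b = (a - y) * g := by
      rw [hb, sub_mul, hag, hyd, Finset.sum_mul]
      simp only [smul_mul_assoc]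
    have h2 : ‖b‖ ≤ δ := by
      rw [h1]
      refine (norm_mul_le _ _).trans ?_
      have h3 : ‖g‖ ≤ 1 := by
        have h4 : ‖g‖ * ‖g‖ = ‖g‖ := by
          rw [← CStarRing.norm_star_mul_self, hg.isSelfAdjoint.star_eq, hg.isIdempotentElem.eq]
        by_contra hcon
        push Not at hcon
        nlinarith
      rw [dist_eq_norm] at hay
      have := norm_nonneg (a - y)
      nlinarith [norm_nonneg g]
    have hstar : star b = a - ∑ i, star (d i) • (p i * g) := by
      rw [hb, star_sub, ha, star_sum]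
      congr 1
      refine Finset.sum_congr rfl fun i _ => ?_
      rw [star_smul, ((hp i).1.mul hg (hpg i)).isSelfAdjoint.star_eq]
    have h5 : a - ∑ i, (((d i).re : ℝ) : ℂ) • (p i * g) = (1 / 2 : ℂ) • (b + star b) := by
      rw [hstar, hb]
      have h6 : ∀ i, (((d i).re : ℝ) : ℂ) • (p i * g) =
          (1 / 2 : ℂ) • (d i • (p i * g) + star (d i) • (p i * g)) := by
        intro i
        rw [← add_smul, smul_smul]
        congr 1
        have := Complex.add_conj (d i)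
        rw [Complex.star_def, this]
        push_cast
        ring
      simp only [h6]
      rw [← Finset.smul_sum, Finset.sum_add_distrib]
      module
    rw [h5, norm_smul]
    have h7 : ‖b + star b‖ ≤ 2 * δ := by
      refine (norm_add_le _ _).trans ?_
      rw [norm_star]
      linarith
    have h8 : ‖(1 / 2 : ℂ)‖ = 1 / 2 := by simp
    rw [h8]
    linarith

end Pool.Agent.R456.CL.Sa
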