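import Pool.Agent.R456.CL.Base3

set_option autoImplicit false

namespace Pool.Agent.R456.CL

universe u

section sa

variable {A : Type u} [CStarAlgebra A]

lemma pj_comm_mul {p q : A} (hp : PJ p) (hq : PJ q) (h : p * q = q * p) : PJ (p * q) := by
  refine ⟨?_, ?_⟩
  · show p * q * (p * q) = p * q
    calc p * q * (p * q) = p * (q * p) * q := by simp only [mul_assoc]
      _ = (p * p) * (q * q) := by rw [← h]; simp only [mul_assoc]
      _ = p * q := by rw [PJ.mul_self hp, PJ.mul_self hq]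
  · show star (p * q) = p * q
    rw [star_mul, PJ.star hp, PJ.star hq, h]

/-- finite combination with respect to a partition of unity by projections of `M`. -/
def Comb (M : StarSubalgebra ℂ A) (y : A) : Prop :=
  ∃ (ι : Type) (_ : Fintype ι) (p : ι → A) (d : ι → ℂ), (∀ i, PJ (p i)) ∧ (∀ i, p i ∈ M) ∧
    (∀ i j, i ≠ j → p i * p j = 0) ∧ (∑ i, p i = 1) ∧ y = ∑ i, d i • p i

lemma comb_two (M : StarSubalgebra ℂ A) (hM : ∀ x ∈ M, ∀ y ∈ M, x * y = y * x) {y z : A}
    (hy : Comb M y) (hz : Comb M z) : Comb M (y + z) ∧ Comb M (y * z) := by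
  obtain ⟨ι, _, p, d, hp, hpM, hpo, hps, rfl⟩ := hy
  obtain ⟨κ, _, q, e, hq, hqM, hqo, hqs, rfl⟩ := hz
  have hr : ∀ x : ι × κ, PJ (p x.1 * q x.2) := fun x =>
    pj_comm_mul (hp _) (hq _) (hM _ (hpM _) _ (hqM _))
  have hrM : ∀ x : ι × κ, p x.1 * q x.2 ∈ M := fun x => mul_mem (hpM _) (hqM _)
  have hro : ∀ x y : ι × κ, x ≠ y → p x.1 * q x.2 * (p y.1 * q y.2) = 0 := by
    intro x y hxy
    have e1 : p x.1 * q x.2 * (p y.1 * q y.2) = (p x.1 * p y.1) * (q x.2 * q y.2) := by
      calc p x.1 * q x.2 * (p y.1 * q y.2) = p x.1 * (q x.2 * p y.1) * q y.2 := by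
            simp only [mul_assoc]
        _ = _ := by rw [hM _ (hqM _) _ (hpM _)]; simp only [mul_assoc]
    rw [e1]
    by_cases h : x.1 = y.1
    · have h2 : x.2 ≠ y.2 := fun h2 => hxy (Prod.ext h h2)
      rw [hqo _ _ h2, mul_zero]
    · rw [hpo _ _ h, zero_mul]
  have hrs : ∑ x : ι × κ, p x.1 * q x.2 = 1 := by
    rw [Fintype.sum_prod_type]
    calc ∑ i, ∑ j, p i * q j = ∑ i, p i * ∑ j, q j := by
          refine Finset.sum_congr rfl (fun i _ => ?_)
          rw [Finset.mul_sum]
      _ = 1 := by rw [hqs]; simp only [mul_one, hps]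
  refine ⟨⟨ι × κ, inferInstance, fun x => p x.1 * q x.2, fun x => d x.1 + e x.2, hr, hrM, hro, hrs,
    ?_⟩, ⟨ι × κ, inferInstance, fun x => p x.1 * q x.2, fun x => d x.1 * e x.2, hr, hrM, hro, hrs,
    ?_⟩⟩
  · rw [Fintype.sum_prod_type]
    have h1 : ∀ i, ∑ j, (d i + e j) • (p i * q j) = d i • p i + p i * ∑ j, e j • q j := by
      intro i
      simp only [add_smul, Finset.sum_add_distrib]
      congr 1
      · rw [← Finset.smul_sum, ← Finset.mul_sum, hqs, mul_one]
      · rw [Finset.mul_sum]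
        exact Finset.sum_congr rfl (fun j _ => by rw [mul_smul_comm])
    simp only [h1]
    rw [Finset.sum_add_distrib, ← Finset.sum_mul, hps, one_mul]
  · rw [Fintype.sum_prod_type, Finset.sum_mul]
    refine Finset.sum_congr rfl (fun i _ => ?_)
    rw [Finset.mul_sum]
    refine Finset.sum_congr rfl (fun j _ => ?_)
    rw [smul_mul_smul_comm]

lemma comb_star (M : StarSubalgebra ℂ A) {y : A} (hy : Comb M y) : Comb M (star y) := by
  obtain ⟨ι, _, p, d, hp, hpM, hpo, hps, rfl⟩ := hy
  refine ⟨ι, inferInstance, p, fun i => star (d i), hp, hpM, hpo, hps, ?_⟩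
  rw [star_sum]
  exact Finset.sum_congr rfl (fun i _ => by rw [star_smul, PJ.star (hp i)])

lemma pj_one' : PJ (1 : A) := ⟨by simp [IsIdempotentElem], by simp [IsSelfAdjoint]⟩

lemma comb_adjoin (M : StarSubalgebra ℂ A) (hM : ∀ x ∈ M, ∀ y ∈ M, x * y = y * x) {y : A}
    (hy : y ∈ (StarAlgebra.adjoin ℂ {p : A | IsStarProjection p ∧ p ∈ M} : StarSubalgebra ℂ A)) :
    Comb M y := by
  induction hy using StarAlgebra.adjoin_induction with
  | mem x hx =>
    refine ⟨Bool, inferInstance, fun b => if b then x else 1 - x, fun b => if b then 1 else 0,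
      ?_, ?_, ?_, ?_, ?_⟩
    · intro b
      cases b
      · simp only [Bool.false_eq_true, if_false]
        refine ⟨?_, ?_⟩
        · show (1 - x) * (1 - x) = 1 - x
          rw [mul_sub, sub_mul, sub_mul, PJ.mul_self hx.1]; simp
        · show star (1 - x) = 1 - x
          rw [star_sub, star_one, PJ.star hx.1]
      · simpa using hx.1
    · intro b
      cases b
      · simp only [Bool.false_eq_true, if_false]
        exact sub_mem (one_mem M) hx.2
      · simpa using hx.2
    · intro i j hij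
      cases i <;> cases j
      · exact absurd rfl hij
      · simp [sub_mul, PJ.mul_self hx.1]
      · simp [mul_sub, PJ.mul_self hx.1]
      · exact absurd rfl hij
    · simp
    · simp
  | algebraMap r =>
    refine ⟨Unit, inferInstance, fun _ => 1, fun _ => r, fun _ => pj_one', fun _ => one_mem M,
      fun i j hij => absurd rfl hij, by simp, by simp [Algebra.algebraMap_eq_smul_one]⟩
  | add x y _ _ h1 h2 => exact (comb_two M hM h1 h2).1
  | mul x y _ _ h1 h2 => exact (comb_two M hM h1 h2).2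
  | star x _ h => exact comb_star M h

/-- a maximal commutative star subalgebra containing two commuting self-adjoint elements. -/
lemma exists_masa {a g : A} (ha : star a = a) (hg : star g = g) (hag : a * g = g * a) :
    ∃ M : StarSubalgebra ℂ A, a ∈ M ∧ g ∈ M ∧ (∀ x ∈ M, ∀ y ∈ M, x * y = y * x) ∧
    (∀ N : StarSubalgebra ℂ A, (∀ x ∈ N, ∀ y ∈ N, x * y = y * x) → M ≤ N → N = M) := by
  obtain ⟨S, hS⟩ : ∃ S : Set (StarSubalgebra ℂ A),
      S = {N | ∀ x ∈ N, ∀ y ∈ N, x * y = y * x} := ⟨_, rfl⟩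
  obtain ⟨M0, hM0⟩ : ∃ M0 : StarSubalgebra ℂ A, M0 = StarAlgebra.adjoin ℂ {a, g} := ⟨_, rfl⟩
  have h1 : ∀ x ∈ ({a, g} : Set A), ∀ y ∈ ({a, g} : Set A), x * y = y * x := by
    intro x hx y hy
    simp only [Set.mem_insert_iff, Set.mem_singleton_iff] at hx hy
    rcases hx with rfl | rfl <;> rcases hy with rfl | rfl
    · rfl
    · exact hag
    · exact hag.symm
    · rfl
  have h2 : ∀ x ∈ ({a, g} : Set A), star x = x := by
    intro x hx
    simp only [Set.mem_insert_iff, Set.mem_singleton_iff] at hx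
    rcases hx with rfl | rfl
    · exact ha
    · exact hg
  have hM0S : M0 ∈ S := by
    rw [hS]
    intro x hx y hy
    let _ : CommRing (StarAlgebra.adjoin ℂ ({a, g} : Set A)) :=
      StarAlgebra.adjoinCommRingOfComm ℂ h1 (fun x hx y hy => by rw [h2 y hy]; exact h1 x hx y hy)
    rw [hM0] at hx hy
    have := mul_comm (⟨x, hx⟩ : StarAlgebra.adjoin ℂ ({a, g} : Set A)) ⟨y, hy⟩
    exact congrArg Subtype.val this
  obtain ⟨M, hM0M, hMmax⟩ := zorn_le_nonempty₀ S (by
    intro c hcS hc N0 hN0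
    refine ⟨{ carrier := {x | ∃ N ∈ c, x ∈ N}
              mul_mem' := ?_
              one_mem' := ⟨N0, hN0, one_mem _⟩
              add_mem' := ?_
              zero_mem' := ⟨N0, hN0, zero_mem _⟩
              algebraMap_mem' := fun r => ⟨N0, hN0, algebraMap_mem N0 r⟩
              star_mem' := ?_ }, ?_, ?_⟩
    · rintro x y ⟨N, hN, hx⟩ ⟨N', hN', hy⟩
      rcases hc.total hN hN' with h | h
      · exact ⟨N', hN', mul_mem (h hx) hy⟩
      · exact ⟨N, hN, mul_mem hx (h hy)⟩
    · rintro x y ⟨N, hN, hx⟩ ⟨N', hN', hy⟩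
      rcases hc.total hN hN' with h | h
      · exact ⟨N', hN', add_mem (h hx) hy⟩
      · exact ⟨N, hN, add_mem hx (h hy)⟩
    · rintro x ⟨N, hN, hx⟩
      exact ⟨N, hN, star_mem hx⟩
    · rw [hS]
      rintro x ⟨N, hN, hx⟩ y ⟨N', hN', hy⟩
      rcases hc.total hN hN' with h | h
      · have := hcS hN'
        rw [hS] at this
        exact this x (h hx) y hy
      · have := hcS hN
        rw [hS] at this
        exact this x hx y (h hy)
    · intro N hN x hx
      exact ⟨N, hN, hx⟩) M0 hM0S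
  have hMS := hMmax.prop
  refine ⟨M, hM0M ?_, hM0M ?_, ?_, ?_⟩
  · rw [hM0]; exact StarAlgebra.subset_adjoin ℂ _ (by simp)
  · rw [hM0]; exact StarAlgebra.subset_adjoin ℂ _ (by simp)
  · rw [hS] at hMS; exact hMS
  · intro N hN hMN
    exact le_antisymm (hMmax.le_of_ge (by rw [hS]; exact hN) hMN) hMN

end sa

theorem sa456_ok : St_Sa.{u} := by
  intro A _ hW g a hg ha hag δ hδ
  have hga : g * a = a := by
    have := congrArg star hag
    rwa [star_mul, PJ.star hg, ha] at this
  obtain ⟨M, haM, hgM, hM, hMmax⟩ := exists_masa ha (PJ.star hg) (by rw [hag, hga])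
  have hcl := hW.masa M hM hMmax a haM
  rw [Metric.mem_closure_iff] at hcl
  obtain ⟨y, hy, hyd⟩ := hcl δ hδ
  obtain ⟨ι, _, p, d, hp, hpM, hpo, hps, hyp⟩ := comb_adjoin M hM hy
  rw [dist_eq_norm] at hyd
  have hpg : ∀ i, p i * g = g * p i := fun i => hM _ (hpM i) _ hgM
  have hgg := PJ.mul_self hg
  refine ⟨ι, inferInstance, fun i => p i * g, fun i => (d i).re, ?_, ?_, ?_, ?_, ?_⟩
  · exact fun i => pj_comm_mul (hp i) hg (hpg i)
  · intro i j hij
    show p i * g * (p j * g) = 0
    calc p i * g * (p j * g) = p i * (g * p j) * g := by simp only [mul_assoc]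
      _ = (p i * p j) * (g * g) := by rw [← hpg]; simp only [mul_assoc]
      _ = 0 := by rw [hpo i j hij, zero_mul]
  · show ∑ i, p i * g = g
    rw [← Finset.sum_mul, hps, one_mul]
  · intro i
    show p i * g * a = a * (p i * g)
    rw [mul_assoc, hga, hpg, ← mul_assoc, hag, hM _ (hpM i) _ haM]
  · show ‖a - ∑ i, ((d i).re : ℂ) • (p i * g)‖ ≤ δ
    obtain ⟨z, hz⟩ : ∃ z, z = (a - y) * g := ⟨_, rfl⟩
    have hzn : ‖z‖ ≤ δ := by
      rw [hz]
      refine (norm_mul_le _ _).trans ?_
      calc ‖a - y‖ * ‖g‖ ≤ δ * 1 :=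
            mul_le_mul hyd.le (pj_norm_le hg) (norm_nonneg _) hδ.le
        _ = δ := mul_one _
    have hz1 : z = a - ∑ i, d i • (p i * g) := by
      rw [hz, sub_mul, hag, hyp, Finset.sum_mul]
      congr 1
      exact Finset.sum_congr rfl (fun i _ => by rw [smul_mul_assoc])
    have hz2 : star z = a - ∑ i, star (d i) • (p i * g) := by
      rw [hz1, star_sub, ha, star_sum]
      congr 1
      refine Finset.sum_congr rfl (fun i _ => ?_)
      rw [star_smul, PJ.star (pj_comm_mul (hp i) hg (hpg i))]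
    have hre : a - ∑ i, ((d i).re : ℂ) • (p i * g) = (1 / 2 : ℂ) • (z + star z) := by
      rw [hz2]
      conv_rhs => rw [hz1]
      have e1 : ∑ i, ((d i).re : ℂ) • (p i * g)
          = (1 / 2 : ℂ) • (∑ i, d i • (p i * g) + ∑ i, star (d i) • (p i * g)) := by
        rw [← Finset.sum_add_distrib, Finset.smul_sum]
        refine Finset.sum_congr rfl (fun i _ => ?_)
        rw [← add_smul, smul_smul]
        congr 1
        have : d i + star (d i) = ((2 * (d i).re : ℝ) : ℂ) := Complex.add_conj (d i)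
        rw [this]; push_cast; ring
      rw [e1]
      have e2 : a = (1 / 2 : ℂ) • (a + a) := by
        rw [← two_smul ℂ a, smul_smul]; norm_num
      conv_lhs => rw [e2]
      rw [← smul_sub]
      congr 1
      abel
    rw [hre, norm_smul]
    have : ‖z + star z‖ ≤ δ + δ :=
      (norm_add_le _ _).trans (add_le_add hzn (by rw [norm_star]; exact hzn))
    have h3 : ‖(1 / 2 : ℂ)‖ = 1 / 2 := by norm_num
    rw [h3]; linarith

end Pool.Agent.R456.CL
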