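import Pool.Agent.R456.CL.Stm

/-!
# Project CL: suprema of projections, and the factor property (helper806)
-/

set_option autoImplicit false

namespace Pool.Agent.R456.CL.Sup

universe u

open Pool.Agent.R456.CL

section basics

variable {A : Type u} [CStarAlgebra A]

theorem star_eq {p : A} (hp : PJ p) : star p = p := hp.isSelfAdjoint.star_eq

theorem mul_self {p : A} (hp : PJ p) : p * p = p := hp.isIdempotentElem

/-- take stars of a vanishing product with a projection on the right -/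
theorem star_zero_right {x p : A} (hp : PJ p) (h : x * p = 0) : p * star x = 0 := by
  have h1 := congrArg star h
  rwa [star_mul, star_eq hp, star_zero] at h1

theorem star_zero_left {x p : A} (hp : PJ p) (h : p * x = 0) : star x * p = 0 := by
  have h1 := congrArg star h
  rwa [star_mul, star_eq hp, star_zero] at h1

theorem pj_zero_comm {p q : A} (hp : PJ p) (hq : PJ q) (h : p * q = 0) : q * p = 0 := by
  have h1 := star_zero_right hq h
  rwa [star_eq hp] at h1

theorem le_right {p q : A} (hp : PJ p) (hq : PJ q) (h : p * q = p) : q * p = p := by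
  have h1 := congrArg star h
  rwa [star_mul, star_eq hp, star_eq hq] at h1

theorem le_left {p q : A} (hp : PJ p) (hq : PJ q) (h : q * p = p) : p * q = p := by
  have h1 := congrArg star h
  rwa [star_mul, star_eq hp, star_eq hq] at h1

theorem isSup_left {ι : Type*} {e : ι → A} {E : A} (he : ∀ i, PJ (e i)) (h : IsSup e E) {x : A}
    (hx : ∀ i, e i * x = 0) : E * x = 0 := by
  have h1 := h.2.2 (star x) (fun i => star_zero_left (he i) (hx i))
  have h2 := star_zero_right h.1 h1
  rwa [star_star] at h2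

/-- nonzero element has nonzero cut -/
theorem cut_ne (hC : PCut A) {y : A} (hy : y ≠ 0) :
    ∃ k s : A, k ≠ 0 ∧ PJ k ∧ star s = s ∧ s * s * (star y * y) = k ∧
      (star y * y) * (s * s) = k := by
  obtain ⟨k, s, hk, -, -, hs, -, h1, h2, -, h3⟩ := hC y (‖y‖ / 2) (by
    have := norm_pos_iff.2 hy
    linarith)
  refine ⟨k, s, ?_, hk, hs, h1, h2⟩
  rintro rfl
  rw [sub_zero, mul_one] at h3
  have := norm_pos_iff.2 hy
  linarith

end basics

theorem supO_ok : St_SupO.{u} := by
  intro A _ hA hC ι e he horth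
  obtain ⟨E, hE, hle, hlub⟩ := hA.lub (Set.range e) (by
    rintro p ⟨i, rfl⟩
    exact he i) (by
    rintro p ⟨i, rfl⟩ q ⟨j, rfl⟩ hpq
    exact horth i j fun h => hpq (by rw [h]))
  have hle' : ∀ i, e i * E = e i := fun i => hle _ ⟨i, rfl⟩
  refine ⟨E, hE, hle', fun x hx => ?_⟩
  by_contra hne
  obtain ⟨k, s, hk0, hk, hs, h1, h2⟩ := cut_ne hC hne
  have hEk : E * k = k := by
    rw [← h2, star_mul, star_eq hE]
    simp only [← mul_assoc, mul_self hE]
  have hkE : k * E = k := le_left hk hE hEk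
  have hke : ∀ i, k * e i = 0 := by
    intro i
    rw [← h1, mul_assoc, mul_assoc (star (x * E)), mul_assoc x, le_right (he i) hE (hle' i), hx i]
    simp
  have hF : PJ (E - k) := hk.sub_of_mul_eq_left hE hkE
  have h3 := hlub (E - k) hF (by
    rintro p ⟨i, rfl⟩
    rw [mul_sub, hle' i, pj_zero_comm hk (he i) (hke i), sub_zero])
  rw [mul_sub, mul_self hE, hEk, sub_eq_self] at h3
  exact hk0 h3

theorem sup_ok : St_Sup.{u} := by
  intro A _ hO hC ι e he
  obtain ⟨Q, hQ⟩ := zorn_subset {Q : Set A | (∀ q ∈ Q, PJ q ∧ ∀ i, q * e i = 0) ∧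
    ∀ p ∈ Q, ∀ q ∈ Q, p ≠ q → p * q = 0} (by
    intro c hc hchain
    refine ⟨⋃₀ c, ⟨?_, ?_⟩, fun s hs => Set.subset_sUnion_of_mem hs⟩
    · rintro q ⟨Q, hQ, hq⟩
      exact (hc hQ).1 q hq
    · rintro p ⟨Q, hQ, hp⟩ q ⟨Q', hQ', hq⟩ hpq
      rcases hchain.total hQ hQ' with h | h
      · exact (hc hQ').2 p (h hp) q hq hpq
      · exact (hc hQ).2 p hp q (h hq) hpq)
  have hQP : (∀ q ∈ Q, PJ q ∧ ∀ i, q * e i = 0) ∧ ∀ p ∈ Q, ∀ q ∈ Q, p ≠ q → p * q = 0 := hQ.prop
  obtain ⟨s, hs⟩ := hO Q (fun q => (q : A)) (fun q => (hQP.1 q q.2).1)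
    (fun p q hpq => hQP.2 p p.2 q q.2 fun h => hpq (Subtype.ext h))
  have hes : ∀ i, e i * s = 0 := fun i =>
    hs.2.2 (e i) fun q => pj_zero_comm (hQP.1 q q.2).1 (he i) ((hQP.1 q q.2).2 i)
  have hse : ∀ i, s * e i = 0 := fun i => pj_zero_comm (he i) hs.1 (hes i)
  refine ⟨1 - s, hs.1.one_sub, fun i => by rw [mul_sub, mul_one, hes i, sub_zero], fun x hx => ?_⟩
  by_contra hne
  obtain ⟨k, t, hk0, hk, ht, h1, h2⟩ := cut_ne hC hne
  have hsk : s * k = 0 := by
    rw [← h2, star_mul, star_eq hs.1.one_sub]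
    simp only [← mul_assoc, mul_sub, mul_one, mul_self hs.1, sub_self, zero_mul]
  have hke : ∀ i, k * e i = 0 := by
    intro i
    have h3 : (x * (1 - s)) * e i = 0 := by
      rw [mul_assoc, sub_mul, one_mul, hse i, sub_zero, hx i]
    rw [← h1, mul_assoc, mul_assoc (star (x * (1 - s))), h3]
    simp
  have hqk : ∀ q ∈ Q, q * k = 0 := by
    intro q hq
    have h0 : q * s = q := hs.2.1 ⟨q, hq⟩
    rw [← h0, mul_assoc, hsk, mul_zero]
  have hkq : ∀ q ∈ Q, k * q = 0 := fun q hq => pj_zero_comm (hQP.1 q hq).1 hk (hqk q hq)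
  have hmem : k ∈ Q := by
    have h4 : insert k Q ∈ {Q : Set A | (∀ q ∈ Q, PJ q ∧ ∀ i, q * e i = 0) ∧
        ∀ p ∈ Q, ∀ q ∈ Q, p ≠ q → p * q = 0} := by
      refine ⟨?_, ?_⟩
      · rintro q (rfl | hq)
        · exact ⟨hk, hke⟩
        · exact hQP.1 q hq
      · rintro p (rfl | hp) q (rfl | hq) hpq
        · exact absurd rfl hpq
        · exact hkq q hq
        · exact hqk p hp
        · exact hQP.2 p hp q hq hpq
    exact hQ.le_of_ge h4 (Set.subset_insert k Q) (Set.mem_insert k Q)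
  have h5 := hqk k hmem
  rw [mul_self hk] at h5
  exact hk0 h5

theorem fac_ok : St_Fac.{u} := by
  intro A _ hF hS hC e f he hf hef
  obtain ⟨c, hc⟩ := hS {p : A // PJ p ∧ ∀ x : A, p * x * f = 0} (fun p => (p : A))
    (fun p => p.2.1)
  have hfc : f * c = 0 := hc.2.2 f fun p => by
    have h1 := p.2.2 1
    rw [mul_one] at h1
    exact pj_zero_comm p.2.1 hf h1
  have hec : e * c = e := hc.2.1 ⟨e, he, hef⟩
  have hcp : ∀ p : {p : A // PJ p ∧ ∀ x : A, p * x * f = 0}, c * (p : A) = p := fun p =>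
    le_right p.2.1 hc.1 (hc.2.1 p)
  have hcen : ∀ x : A, (1 - c) * x * c = 0 := by
    intro x
    refine hc.2.2 _ fun p => ?_
    by_contra hne
    have hne' : star ((1 - c) * x * (p : A)) ≠ 0 := fun h => hne (star_eq_zero.1 h)
    obtain ⟨k, s, hk0, hk, hs, h1, h2⟩ := cut_ne hC hne'
    rw [star_star] at h1 h2
    have h3 : c * k = 0 := by
      rw [← h2]
      simp only [← mul_assoc, mul_sub, mul_one, mul_self hc.1, sub_self, zero_mul]
    have h4 : ∀ z : A, k * z * f = 0 := by
      intro z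
      have h5 := p.2.2 (star x * (1 - c) * z)
      rw [← h1, star_mul, star_mul, star_eq p.2.1, star_eq hc.1.one_sub]
      have h6 : s * s * ((1 - c) * x * (p : A) * ((p : A) * (star x * (1 - c)))) * z * f =
          s * s * ((1 - c) * x * (p : A)) * ((p : A) * (star x * (1 - c) * z) * f) := by
        simp only [mul_assoc]
      rw [h6, h5, mul_zero]
    have h5 := hcp ⟨k, hk, h4⟩
    exact hk0 (h5.symm.trans h3)
  have hcen' : ∀ x : A, c * x * (1 - c) = 0 := by
    intro x
    have h1 := congrArg star (hcen (star x))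
    rw [star_mul, star_mul, star_star, star_eq hc.1, star_eq hc.1.one_sub, star_zero,
      ← mul_assoc] at h1
    exact h1
  obtain ⟨t, ht⟩ := hF c (fun x => by
    have h1 := hcen x
    have h2 := hcen' x
    rw [sub_mul, sub_mul, one_mul, sub_eq_zero] at h1
    rw [mul_sub, mul_one, sub_eq_zero] at h2
    rw [h2, ← h1])
  rw [ht] at hfc hec
  rw [mul_smul_comm, mul_one] at hfc hec
  rcases smul_eq_zero.1 hfc with h | h
  · left
    rw [← hec, h, zero_smul]
  · right
    exact h

end Pool.Agent.R456.CL.Sup
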