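import Pool.Agent.R456.CL.Main
import Pool.Agent.R456.CL.CaseB
import Pool.Agent.R456.CL.Sup
import Pool.Agent.R456.CL.Add
import Pool.Agent.R456.CL.AddO
import Pool.Agent.R456.CL.CmpO
import Pool.Agent.R456.CL.LR
import Pool.Agent.R456.CL.SB
import Pool.Agent.R456.CL.Dich

set_option autoImplicit false

namespace Pool.Agent.R456.CL

universe u

theorem wf_ok : St_WF.{u} := by
  intro A _ hsup hinf hadd hcmp
  have hW1 := W1.w1_ok A hsup hinf hadd hcmp
  have hW2 := W2.w2_ok A hsup hadd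
  rintro ⟨g, h1, h2, h3, h4⟩
  have hfam := fun n => hW1 (g n) (g (n + 1)) (h1 n) (h1 (n + 1)) (h2 (n + 1)) (h3 n) (h4 n)
  choose ι q E a1 a2 a3 a4 a5 a6 a7 using hfam
  have hlt : ∀ n, Cardinal.mk (ι (n + 1)) < Cardinal.mk (ι n) := by
    intro n
    by_contra hle
    push Not at hle
    exact h4 n (hW2 (g n) (g (n + 1)) (g (n + 2)) (ι n) (ι (n + 1)) (q n) (E n) (q (n + 1))
      (E (n + 1)) (h1 n) (h1 (n + 1)) (h1 (n + 2)) (a1 n) (a1 (n + 1)) (a2 n) (a3 n) (a4 n) (a5 n)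
      (a6 n) (a7 n) (a2 (n + 1)) (a3 (n + 1)) (a4 (n + 1)) (a5 (n + 1)) (a6 (n + 1))
      (a7 (n + 1)) hle)
  exact not_strictAnti_of_wellFoundedLT (fun n => Cardinal.mk (ι n)) (strictAnti_nat_of_succ_lt hlt)

/-- everything together, assuming the spectral approximation property and the spectral cut. -/
theorem clean_of_sa (A : Type u) [CStarAlgebra A] (hW : IsAWStar A) (hF : IsFactor A)
    (hI : IsInfiniteAlg A) (hsa : PSa A) (hcut : PCut A) :
    ∀ g T : A, PJ g → g * T = T → T * g = T → CleanIn g T := by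
  have hsupO : PSupO A := Sup.supO_ok A hW hcut
  have hsup : PSup A := Sup.sup_ok A hsupO hcut
  have hfac : PFac A := Sup.fac_ok A hF hsup hcut
  have haddO : PAddO A := AddO.addO_ok A hsupO
  have hcmpO : PCmpO A := CmpO.cmpO_ok A hcut hsupO hfac haddO
  have hinf : PInf A := inf_ok A hsup haddO hcmpO
  have hadd : PAdd A := Add.add_ok A hI hinf haddO
  have hcmp : PCmp A := Add.cmp_ok A hI hinf hcmpO
  have hlr : PLR A := LR.lr_ok A hcut hsup hadd
  have hsb : PSB A := SB.sB_ok A hsup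
  have hdich : PDich A := Dich.dich_ok A hinf hlr hcmp
  have hjoin : PJoin A := Dich.join_ok A hlr hdich
  have hmain : PMain A := main_ok A hsa hcut hinf hdich hjoin
  have hA : PCaseA A := caseA_ok A hcut hinf hsb
  have hB : PCaseB A := caseB_ok A
  have hfin : PFin A := fin_ok A hcut hcmp
  have hwf : PWF A := wf_ok A hsup hinf hadd hcmp
  -- one step
  have step : ∀ g : A, PJ g → (∃ T, g * T = T ∧ T * g = T ∧ ¬ CleanIn g T) →
      Infin g ∧ ∃ k : A, PJ k ∧ Le k g ∧ ¬ Sub g k ∧ ∃ T, k * T = T ∧ T * k = T ∧ ¬ CleanIn k T := by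
    rintro g hg ⟨T, hgT, hTg, hn⟩
    have hgi : Infin g := by
      by_contra hni
      exact hn (hfin g T hg hni hgT hTg)
    refine ⟨hgi, ?_⟩
    rcases hmain g T hg hgi hgT hTg with ⟨e, f, he, hf, heg, hfg, hef, hge, hgf, hiso⟩ |
      ⟨k, c, hk, hkg, hnk, hb⟩
    · exact absurd (hA g T e f hg hgi hgT hTg he hf heg hfg hef hge hgf hiso) hn
    · refine ⟨k, hk, hkg, hnk, ?_⟩
      by_contra hno
      push Not at hno
      exact hn (hB g T k c hg hgT hTg hk hkg hb hno)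
  intro g0 T0 hg0 hgT0 hTg0
  by_contra hn0
  obtain ⟨G, hG⟩ : ∃ G : {g : A // PJ g ∧ ∃ T, g * T = T ∧ T * g = T ∧ ¬ CleanIn g T} →
      {g : A // PJ g ∧ ∃ T, g * T = T ∧ T * g = T ∧ ¬ CleanIn g T},
      ∀ x, Le (G x).1 x.1 ∧ ¬ Sub x.1 (G x).1 := by
    have : ∀ x : {g : A // PJ g ∧ ∃ T, g * T = T ∧ T * g = T ∧ ¬ CleanIn g T},
        ∃ y : {g : A // PJ g ∧ ∃ T, g * T = T ∧ T * g = T ∧ ¬ CleanIn g T},
        Le y.1 x.1 ∧ ¬ Sub x.1 y.1 := by
      intro x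
      obtain ⟨_, k, hk, hkg, hnk, hT⟩ := step x.1 x.2.1 x.2.2
      exact ⟨⟨k, hk, hT⟩, hkg, hnk⟩
    choose G hG using this
    exact ⟨G, hG⟩
  obtain ⟨s, hs⟩ : ∃ s : ℕ → {g : A // PJ g ∧ ∃ T, g * T = T ∧ T * g = T ∧ ¬ CleanIn g T},
      ∀ n, s (n + 1) = G (s n) :=
    ⟨fun n => Nat.rec ⟨g0, hg0, T0, hgT0, hTg0, hn0⟩ (fun _ x => G x) n, fun n => rfl⟩
  refine hwf ⟨fun n => (s n).1, fun n => (s n).2.1, fun n => (step _ (s n).2.1 (s n).2.2).1, ?_, ?_⟩
  · intro n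
    show Le (s (n + 1)).1 (s n).1
    rw [hs]; exact (hG _).1
  · intro n
    show ¬ Sub (s n).1 (s (n + 1)).1
    rw [hs]; exact (hG _).2

end Pool.Agent.R456.CL
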